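import Pool.Agent.H712R5.BO.Stmts

/-! C12: invariant subspace from a nonscalar strong limit. -/

set_option autoImplicit false
open scoped ComplexConjugate InnerProductSpace Topology
open Filter MeasureTheory NormedSpace

namespace Pool.Agent.H712R5.BO

theorem C12_spec {H : Type} [NormedAddCommGroup H] [InnerProductSpace ℂ H] [CompleteSpace H]
    (X : H →L[ℂ] H) (hX : IsSelfAdjoint X) (hns : ¬ ∃ c : ℂ, X = c • 1) :
    ∃ s1 ∈ spectrum ℝ X, ∃ s2 ∈ spectrum ℝ X, s1 < s2 := by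
  by_contra hcon
  push Not at hcon
  apply hns
  by_cases hne : (spectrum ℝ X).Nonempty
  · obtain ⟨s, hs⟩ := hne
    have hall : ∀ x ∈ spectrum ℝ X, x = s := fun x hx =>
      le_antisymm (hcon s hs x hx) (hcon x hx s hs)
    refine ⟨(s : ℂ), ?_⟩
    have h1 : cfc (id : ℝ → ℝ) X = cfc (fun _ : ℝ => s) X := cfc_congr (fun x hx => hall x hx)
    rw [cfc_id ℝ X, cfc_const s X] at h1
    rw [h1, Algebra.algebraMap_eq_smul_one]
    ext v
    simp
  · refine ⟨0, ?_⟩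
    have h1 : cfc (id : ℝ → ℝ) X = cfc (fun _ : ℝ => (0:ℝ)) X :=
      cfc_congr (fun x hx => absurd ⟨x, hx⟩ hne)
    rw [cfc_id ℝ X, cfc_const (0:ℝ) X, map_zero] at h1
    rw [h1, zero_smul]

theorem C12_ne {H : Type} [NormedAddCommGroup H] [InnerProductSpace ℂ H] [CompleteSpace H]
    (X : H →L[ℂ] H) (hX : IsSelfAdjoint X) (f : ℝ → ℝ) (hf : Continuous f) {s : ℝ}
    (hs : s ∈ spectrum ℝ X) (h : f s ≠ 0) : cfc f X ≠ 0 := by
  intro h0
  have h1 : cfc f X = cfc (fun _ : ℝ => (0:ℝ)) X := by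
    rw [h0, cfc_const (0:ℝ) X, map_zero]
  have h2 := eqOn_of_cfc_eq_cfc (R := ℝ) (f := f) (g := fun _ => (0:ℝ)) (a := X) h1
    (hf.continuousOn) continuousOn_const hX
  exact h (h2 hs)

theorem C12_exp {H : Type} [NormedAddCommGroup H] [InnerProductSpace ℂ H] [CompleteSpace H]
    (h1 : P_B4v) (T : H →L[ℂ] H) (k : ℕ) (hk : 1 ≤ k) :
    IsSelfAdjoint ((1/(k : ℝ)) • Lg (ex ((k : ℕ) : ℂ) T)) ∧
    ‖(1/(k : ℝ)) • Lg (ex ((k : ℕ) : ℂ) T)‖ ≤ 2 * ‖T‖ ∧
    star (ex ((k : ℕ) : ℂ) T) * ex ((k : ℕ) : ℂ) T =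
      exp ((k:ℝ) • ((1/(k : ℝ)) • Lg (ex ((k : ℕ) : ℂ) T))) := by
  obtain ⟨a1, a2, -, -, a5⟩ := h1 (H →L[ℂ] H)
  have hkp : (0:ℝ) < k := by exact_mod_cast (by omega : 0 < k)
  refine ⟨(IsSelfAdjoint.all _).smul (a1 _), ?_, ?_⟩
  · rw [norm_smul]
    have h2 := a5 (((k : ℕ) : ℂ) • T)
    rw [norm_smul, Complex.norm_natCast] at h2
    have h3 : ‖(1/(k:ℝ))‖ = 1 / (k:ℝ) := by
      rw [Real.norm_eq_abs, abs_of_pos (by positivity)]
    rw [h3]
    unfold ex
    calc 1 / (k:ℝ) * ‖Lg (exp (((k : ℕ) : ℂ) • T))‖ ≤ 1 / (k:ℝ) * (2 * (k * ‖T‖)) := by gcongr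
      _ = 2 * ‖T‖ := by field_simp
  · rw [smul_smul, mul_one_div_cancel hkp.ne', one_smul]
    rw [a2]
    unfold ex
    let _ : NormedAlgebra ℚ (H →L[ℂ] H) := .restrictScalars ℚ ℂ (H →L[ℂ] H)
    exact isUnit_exp _

theorem t_C12 (h1 : P_B4v) (h2 : P_C10) (h3 : P_C11) : P_C12 := by
  intro H _ _ _ T k hk hk1 X hlim hns
  set Y : ℕ → (H →L[ℂ] H) := fun i => (1/(k i : ℝ)) • Lg (ex ((k i : ℕ) : ℂ) T) with hY
  have hYs : ∀ i, IsSelfAdjoint (Y i) := fun i => (C12_exp h1 T (k i) (hk1 i)).1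
  have hYn : ∀ i, ‖Y i‖ ≤ 2 * ‖T‖ := fun i => (C12_exp h1 T (k i) (hk1 i)).2.1
  obtain ⟨hX, hcfc⟩ := h2 H Y X (2 * ‖T‖) hYn hYs hlim
  obtain ⟨s1, hs1, s2, hs2, hlt⟩ := C12_spec X hX hns
  set a : ℝ := (2 * s1 + s2) / 3 with ha
  set b : ℝ := (s1 + 2 * s2) / 3 with hb
  have hab : a < b := by rw [ha, hb]; linarith
  set φ : ℝ → ℝ := fun x => max (a - x) 0 with hφ
  set χ : ℝ → ℝ := fun x => min (max (x - b) 0) 1 with hχ
  have hφc : Continuous φ := by rw [hφ]; fun_prop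
  have hχc : Continuous χ := by rw [hχ]; fun_prop
  have hχ01 : ∀ x, 0 ≤ χ x ∧ χ x ≤ 1 := fun x =>
    ⟨le_min (le_max_right _ _) zero_le_one, min_le_right _ _⟩
  have hφX : cfc φ X ≠ 0 := by
    refine C12_ne X hX φ hφc hs1 ?_
    have : 0 < φ s1 := lt_max_of_lt_left (by rw [ha]; linarith)
    exact this.ne'
  have hχX : cfc χ X ≠ 0 := by
    refine C12_ne X hX χ hχc hs2 ?_
    have : 0 < χ s2 := lt_min (lt_max_of_lt_left (by rw [hb]; linarith)) zero_lt_one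
    exact this.ne'
  have hχn : ∀ i, ‖cfc χ (Y i)‖ ≤ 1 := by
    intro i
    refine norm_cfc_le zero_le_one fun x _ => ?_
    rw [Real.norm_eq_abs, abs_of_nonneg (hχ01 x).1]
    exact (hχ01 x).2
  -- the key vanishing
  have key : ∀ (n : ℕ) (v : H), cfc χ X ((T ^ n) (cfc φ X v)) = 0 := by
    intro n v
    have e1 : Tendsto (fun i => cfc φ (Y i) v) atTop (𝓝 (cfc φ X v)) := hcfc φ hφc v
    have e2 : Tendsto (fun i => (T ^ n) (cfc φ (Y i) v)) atTop (𝓝 ((T ^ n) (cfc φ X v))) :=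
      ((T ^ n).continuous.tendsto _).comp e1
    have e3 : Tendsto (fun i => cfc χ (Y i) ((T ^ n) (cfc φ (Y i) v))) atTop
        (𝓝 (cfc χ X ((T ^ n) (cfc φ X v)))) := by
      have e4 : Tendsto (fun i => cfc χ (Y i) ((T ^ n) (cfc φ X v))) atTop
        (𝓝 (cfc χ X ((T ^ n) (cfc φ X v)))) := hcfc χ hχc _
      have e5 : Tendsto (fun i => cfc χ (Y i) ((T ^ n) (cfc φ (Y i) v) - (T ^ n) (cfc φ X v)))
          atTop (𝓝 0) := by
        have e6 : Tendsto (fun i => ‖(T ^ n) (cfc φ (Y i) v) - (T ^ n) (cfc φ X v)‖) atTop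
            (𝓝 0) := by
          have := (e2.sub_const ((T ^ n) (cfc φ X v))).norm
          simpa using this
        refine squeeze_zero_norm (fun i => ?_) e6
        calc ‖cfc χ (Y i) ((T ^ n) (cfc φ (Y i) v) - (T ^ n) (cfc φ X v))‖
            ≤ ‖cfc χ (Y i)‖ * ‖(T ^ n) (cfc φ (Y i) v) - (T ^ n) (cfc φ X v)‖ :=
              ContinuousLinearMap.le_opNorm _ _
          _ ≤ 1 * ‖(T ^ n) (cfc φ (Y i) v) - (T ^ n) (cfc φ X v)‖ := by
              gcongr
              exact hχn i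
          _ = _ := one_mul _
      have e7 := e5.add e4
      rw [zero_add] at e7
      refine e7.congr fun i => ?_
      rw [← map_add, sub_add_cancel]
    have e8 : Tendsto (fun i => cfc χ (Y i) ((T ^ n) (cfc φ (Y i) v))) atTop (𝓝 0) := by
      have e9 : Tendsto (fun i => Real.exp (-((k i : ℝ) * (b - a) / 2)) * ‖T ^ n‖ *
          ‖cfc φ (Y i) v‖) atTop (𝓝 (0 * ‖T ^ n‖ * ‖cfc φ X v‖)) := by
        refine Tendsto.mul (Tendsto.mul ?_ tendsto_const_nhds) e1.norm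
        have e10 : Tendsto (fun i => (k i : ℝ)) atTop atTop :=
          tendsto_natCast_atTop_atTop.comp hk.tendsto_atTop
        have e11 : Tendsto (fun i => (k i : ℝ) * ((b - a) / 2)) atTop atTop :=
          e10.atTop_mul_const (by linarith)
        have e12 := Real.tendsto_exp_neg_atTop_nhds_zero.comp e11
        refine e12.congr fun i => ?_
        simp only [Function.comp_apply]
        congr 2
        ring
      rw [zero_mul, zero_mul] at e9
      refine squeeze_zero_norm (fun i => ?_) e9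
      have hcomm : ex ((k i : ℕ) : ℂ) T * T ^ n = T ^ n * ex ((k i : ℕ) : ℂ) T := by
        unfold ex
        have c1 : Commute (((k i : ℕ) : ℂ) • T) (T ^ n) :=
          ((Commute.refl T).pow_right n).smul_left _
        exact c1.exp_left.eq
      exact h3 H (ex ((k i : ℕ) : ℂ) T) (T ^ n) (Y i) (k i) φ χ a b (hYs i) hcomm
        (C12_exp h1 T (k i) (hk1 i)).2.2 hφc hχc hχ01
        (fun x hx => max_eq_right (by linarith))
        (fun x hx => by
          show min (max (x - b) 0) 1 = 0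
          rw [max_eq_right (by linarith)]
          exact min_eq_left zero_le_one) v
    exact tendsto_nhds_unique e3 e8
  -- the invariant subspace
  refine ⟨⨅ n : ℕ, LinearMap.ker ((cfc χ X * T ^ n : H →L[ℂ] H) : H →ₗ[ℂ] H), ?_, ?_, ?_, ?_⟩
  · rw [Submodule.coe_iInf]
    refine isClosed_iInter fun n => ?_
    exact ContinuousLinearMap.isClosed_ker (cfc χ X * T ^ n : H →L[ℂ] H)
  · intro hbot
    apply hφX
    ext v
    have hmem : cfc φ X v ∈ (⨅ n : ℕ, LinearMap.ker ((cfc χ X * T ^ n : H →L[ℂ] H) : H →ₗ[ℂ] H)) := by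
      rw [Submodule.mem_iInf]
      intro n
      rw [LinearMap.mem_ker]
      exact key n v
    rw [hbot, Submodule.mem_bot] at hmem
    rw [hmem]
    rfl
  · intro htop
    apply hχX
    ext v
    have hmem : v ∈ (⨅ n : ℕ, LinearMap.ker ((cfc χ X * T ^ n : H →L[ℂ] H) : H →ₗ[ℂ] H)) := by
      rw [htop]
      trivial
    rw [Submodule.mem_iInf] at hmem
    have h0 := hmem 0
    rw [LinearMap.mem_ker, pow_zero, mul_one] at h0
    exact h0
  · intro v hv
    rw [Submodule.mem_iInf] at hv ⊢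
    intro n
    have h0 := hv (n + 1)
    rw [LinearMap.mem_ker] at h0 ⊢
    rw [pow_succ] at h0
    exact h0

end Pool.Agent.H712R5.BO
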