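import Pool.Agent.H712R5.BO.Stmts

set_option autoImplicit false

namespace Pool.Agent.H712R5.BO

/-- upper bound for the factorial -/
theorem D8_fact (k : ℕ) (hk : 1 ≤ k) :
    Real.log (k.factorial : ℝ) ≤ ((k : ℝ) + 1) * Real.log k - k + 1 := by
  induction k, hk using Nat.le_induction with
  | base => simp
  | succ k hk ih =>
    have hk0 : (0 : ℝ) < k := by exact_mod_cast hk
    have hf : (0 : ℝ) < (k.factorial : ℝ) := by exact_mod_cast k.factorial_pos
    have h1 : Real.log ((k + 1).factorial : ℝ) =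
        Real.log ((k : ℝ) + 1) + Real.log (k.factorial : ℝ) := by
      rw [Nat.factorial_succ]
      push_cast
      rw [Real.log_mul (by positivity) hf.ne']
    have h2 : 1 - (((k : ℝ) + 1) / k)⁻¹ ≤ Real.log (((k : ℝ) + 1) / k) :=
      Real.one_sub_inv_le_log_of_pos (by positivity)
    have h3 : 1 - (((k : ℝ) + 1) / k)⁻¹ = 1 / ((k : ℝ) + 1) := by
      field_simp
      ring
    rw [h3, Real.log_div (by positivity) hk0.ne', div_le_iff₀ (by positivity)] at h2
    rw [h1]
    push_cast
    nlinarith

theorem t_D8 : P_D8 := by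
  intro a h
  refine ⟨1 / 76, by norm_num, 200, fun k hk => ?_⟩
  have hk1 : 1 ≤ k := by omega
  have hk0 : (0 : ℝ) < k := by exact_mod_cast hk1
  have hk200 : (200 : ℝ) ≤ k := by exact_mod_cast hk
  have h1 := h k 38 hk1 (by norm_num)
  have hf : (0 : ℝ) < (k.factorial : ℝ) := by exact_mod_cast k.factorial_pos
  have h2 : Real.log (ck k) = Real.log (k.factorial : ℝ) - k * Real.log k := by
    rw [ck, Real.log_div hf.ne' (by positivity), Real.log_pow]
  have h3 := D8_fact k hk1
  have h4 : Real.log (ck k) ≤ Real.log k - k + 1 := by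
    rw [h2]
    linarith
  have h5 : Real.log k ≤ k / 8 + 3 * Real.log 2 - 1 := by
    have h6 := Real.log_le_sub_one_of_pos (show (0 : ℝ) < k / 8 by positivity)
    have h7 : Real.log ((k : ℝ) / 8) = Real.log k - 3 * Real.log 2 := by
      rw [Real.log_div hk0.ne' (by norm_num), show (8 : ℝ) = 2 ^ 3 by norm_num, Real.log_pow]
      norm_num
    linarith
  have hl := Real.log_two_lt_d9
  have hp := Real.pi_lt_d4
  have h8 : 4 * Real.pi * k * 3 / (38 : ℕ) ≤ 0.9921 * k := by
    push_cast
    rw [div_le_iff₀ (by norm_num)]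
    nlinarith
  push_cast at h1 h8
  linarith

end Pool.Agent.H712R5.BO
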