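import Pool.Agent.H712R5.BO.Stmts

set_option autoImplicit false
open scoped ComplexConjugate InnerProductSpace Topology
open Filter MeasureTheory NormedSpace

namespace Pool.Agent.H712R5.BO

theorem B4v_norm_exp {A : Type} [CStarAlgebra A] (x : A) : ‖exp x‖ ≤ Real.exp ‖x‖ := by
  rcases subsingleton_or_nontrivial A with h | h
  · rw [Subsingleton.elim (exp x) 0, norm_zero]
    positivity
  · have h1 := NormedSpace.exp_series_hasSum_exp' (𝕂 := ℂ) x
    have h2 : HasSum (fun n : ℕ => ‖x‖ ^ n / (n.factorial : ℝ)) (Real.exp ‖x‖) := by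
      rw [Real.exp_eq_exp_ℝ]
      exact NormedSpace.expSeries_div_hasSum_exp (‖x‖ : ℝ)
    rw [← h1.tsum_eq]
    refine tsum_of_norm_bounded h2 fun n => ?_
    rw [norm_smul, norm_inv, Complex.norm_natCast, div_eq_inv_mul]
    gcongr
    exact norm_pow_le x n

theorem B4v_Lg_sa {A : Type} [CStarAlgebra A] (S : A) : IsSelfAdjoint (Lg S) :=
  IsSelfAdjoint.log

theorem B4v_exp_Lg {A : Type} [CStarAlgebra A] (S : A) (hS : IsUnit S) :
    exp (Lg S) = star S * S := by
  let := CStarAlgebra.spectralOrder A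
  have := CStarAlgebra.spectralOrderedRing A
  refine CFC.exp_log _ ?_
  exact (hS.star.mul hS).isStrictlyPositive (star_mul_self_nonneg S)

theorem B4v_Lg_exp {A : Type} [CStarAlgebra A] (k : A) (hk : IsSelfAdjoint k) :
    Lg (exp k) = (2:ℝ) • k := by
  let : NormedAlgebra ℚ A := NormedAlgebra.restrictScalars ℚ ℂ A
  unfold Lg
  have h1 : star (exp k) * exp k = exp ((2:ℝ) • k) := by
    rw [star_exp, hk.star_eq, ← NormedSpace.exp_add_of_commute (Commute.refl k), two_smul]
  rw [h1]
  exact CFC.log_exp _ ((IsSelfAdjoint.all (2:ℝ)).smul hk)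

theorem B4v_log_conj {A : Type} [CStarAlgebra A] (v : A) (hv : v ∈ unitary A) (a : A)
    (ha : IsSelfAdjoint a) : CFC.log (star v * a * v) = star v * CFC.log a * v := by
  obtain ⟨w, rfl⟩ : ∃ w : unitary A, (w : A) = v := ⟨⟨v, hv⟩, rfl⟩
  have hb : IsSelfAdjoint (star (w : A) * a * w) := ha.conjugate' (w : A)
  by_cases hf : ContinuousOn Real.log (spectrum ℝ a)
  · have h := StarAlgHomClass.map_cfc (S := ℝ) (Unitary.conjStarAlgAut ℝ A (star w)) Real.log a hf
      (by
        show Continuous fun x : A => (star w : A) * x * (star (star w) : A)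
        fun_prop) ha (by
        rw [Unitary.conjStarAlgAut_star_apply]
        exact hb)
    rw [Unitary.conjStarAlgAut_star_apply, Unitary.conjStarAlgAut_star_apply] at h
    exact h.symm
  · unfold CFC.log
    rw [cfc_apply_of_not_continuousOn a hf, cfc_apply_of_not_continuousOn]
    · simp
    · rw [Unitary.spectrum_star_left_conjugate]
      exact hf

theorem B4v_Lg_conj {A : Type} [CStarAlgebra A] (u : A) (hu : u ∈ unitary A) (v : A)
    (hv : v ∈ unitary A) (S : A) : Lg (u * S * v) = star v * Lg S * v := by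
  unfold Lg
  rw [← B4v_log_conj v hv _ (IsSelfAdjoint.star_mul_self S)]
  congr 1
  have h1 : star u * u = 1 := (Unitary.mem_iff.mp hu).1
  calc star (u * S * v) * (u * S * v) = star v * (star S * (star u * u) * S) * v := by
        rw [star_mul, star_mul]
        simp only [mul_assoc]
    _ = star v * (star S * S) * v := by rw [h1, mul_one]

theorem B4v_norm_Lg {A : Type} [CStarAlgebra A] (T : A) : ‖Lg (exp T)‖ ≤ 2 * ‖T‖ := by
  rcases subsingleton_or_nontrivial A with h | h
  · rw [Subsingleton.elim (Lg (exp T)) 0, norm_zero]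
    positivity
  let := CStarAlgebra.spectralOrder A
  have := CStarAlgebra.spectralOrderedRing A
  let : NormedAlgebra ℚ A := NormedAlgebra.restrictScalars ℚ ℂ A
  have e1 : exp T * exp (-T) = 1 := by
    rw [← NormedSpace.exp_add_of_commute (Commute.refl T).neg_right, add_neg_cancel, exp_zero]
  have e2 : exp (-T) * exp T = 1 := by
    rw [← NormedSpace.exp_add_of_commute (Commute.refl T).neg_left, neg_add_cancel, exp_zero]
  have e3 : star (exp (-T)) * star (exp T) = 1 := by rw [← star_mul, e1, star_one]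
  have e4 : star (exp T) * star (exp (-T)) = 1 := by rw [← star_mul, e2, star_one]
  let P : Aˣ := ⟨star (exp T) * exp T, exp (-T) * star (exp (-T)), by
    calc star (exp T) * exp T * (exp (-T) * star (exp (-T)))
        = star (exp T) * (exp T * exp (-T)) * star (exp (-T)) := by simp only [mul_assoc]
      _ = 1 := by rw [e1, mul_one, e4], by
    calc exp (-T) * star (exp (-T)) * (star (exp T) * exp T)
        = exp (-T) * (star (exp (-T)) * star (exp T)) * exp T := by simp only [mul_assoc]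
      _ = 1 := by rw [e3, mul_one, e2]⟩
  have hP : (P : A) = star (exp T) * exp T := rfl
  have hPi : ((P⁻¹ : Aˣ) : A) = exp (-T) * star (exp (-T)) := rfl
  have n1 : ‖(P : A)‖ ≤ Real.exp (2 * ‖T‖) := by
    rw [hP]
    calc ‖star (exp T) * exp T‖ ≤ ‖star (exp T)‖ * ‖exp T‖ := norm_mul_le _ _
      _ = ‖exp T‖ * ‖exp T‖ := by rw [norm_star]
      _ ≤ Real.exp ‖T‖ * Real.exp ‖T‖ := by
          have := B4v_norm_exp T
          gcongr
      _ = Real.exp (2 * ‖T‖) := by rw [← Real.exp_add]; ring_nf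
  have n2 : ‖((P⁻¹ : Aˣ) : A)‖ ≤ Real.exp (2 * ‖T‖) := by
    rw [hPi]
    calc ‖exp (-T) * star (exp (-T))‖ ≤ ‖exp (-T)‖ * ‖star (exp (-T))‖ := norm_mul_le _ _
      _ = ‖exp (-T)‖ * ‖exp (-T)‖ := by rw [norm_star]
      _ ≤ Real.exp ‖T‖ * Real.exp ‖T‖ := by
          have := B4v_norm_exp (-T)
          rw [norm_neg] at this
          gcongr
      _ = Real.exp (2 * ‖T‖) := by rw [← Real.exp_add]; ring_nf
  have hpos : IsStrictlyPositive (P : A) := P.isUnit.isStrictlyPositive (star_mul_self_nonneg _)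
  unfold Lg
  rw [← hP]
  unfold CFC.log
  refine norm_cfc_le (by positivity) fun x hx => ?_
  have hx0 : 0 < x := hpos.spectrum_pos hx
  have u1 : x ≤ Real.exp (2 * ‖T‖) := by
    have h1 := spectrum.norm_le_norm_of_mem hx
    rw [Real.norm_eq_abs, abs_of_pos hx0] at h1
    exact h1.trans n1
  have u2 : x⁻¹ ≤ Real.exp (2 * ‖T‖) := by
    have h0 : ((Units.mk0 x hx0.ne' : ℝˣ) : ℝ) ∈ spectrum ℝ (P : A) := hx
    have h1 := spectrum.inv_mem_iff.1 h0
    have h2 := spectrum.norm_le_norm_of_mem h1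
    rw [Units.val_inv_eq_inv_val, Units.val_mk0, Real.norm_eq_abs,
      abs_of_pos (inv_pos.2 hx0)] at h2
    exact h2.trans n2
  rw [Real.norm_eq_abs, abs_le]
  constructor
  · have h1 := Real.log_le_log (inv_pos.2 hx0) u2
    rw [Real.log_inv, Real.log_exp] at h1
    linarith
  · have h1 := Real.log_le_log hx0 u1
    rwa [Real.log_exp] at h1

theorem t_B4v : P_B4v := by
  intro A _
  refine ⟨B4v_Lg_sa, B4v_exp_Lg, B4v_Lg_exp, ?_, B4v_norm_Lg⟩
  intro u hu S
  have h := B4v_Lg_conj (1 : A) (one_mem _) u hu S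
  rwa [one_mul] at h

end Pool.Agent.H712R5.BO
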