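import Pool.Agent.H712R5.BO.Stmts

set_option autoImplicit false
open scoped ComplexConjugate InnerProductSpace Topology
open Filter MeasureTheory NormedSpace

namespace Pool.Agent.H712R5.BO

theorem Z1_memLp (g : ℝ → ℂ) (R : ℝ) (hg : Measurable g) (hb : ∀ x, ‖g x‖ ≤ R) (f : LI) :
    MemLp (fun x => g x * (f : ℝ → ℂ) x) 2 (volume.restrict (Set.Ico (0:ℝ) 1)) := by
  refine (Lp.memLp f).of_le_mul (c := R)
    (hg.aestronglyMeasurable.mul (Lp.aestronglyMeasurable f)) (Eventually.of_forall fun x => ?_)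
  rw [norm_mul]
  exact mul_le_mul_of_nonneg_right (hb x) (norm_nonneg _)

theorem t_Z1 : P_Z1 := by
  intro g R hg hb
  have hR : 0 ≤ R := (norm_nonneg _).trans (hb 0)
  have hadd : ∀ f f' : LI, (Z1_memLp g R hg hb (f + f')).toLp _
      = (Z1_memLp g R hg hb f).toLp _ + (Z1_memLp g R hg hb f').toLp _ := by
    intro f f'
    rw [← MemLp.toLp_add, MemLp.toLp_eq_toLp_iff]
    filter_upwards [Lp.coeFn_add f f'] with x hx
    simp only [Pi.add_apply] at hx ⊢
    rw [hx, mul_add]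
  have hsmul : ∀ (c : ℂ) (f : LI), (Z1_memLp g R hg hb (c • f)).toLp _
      = c • (Z1_memLp g R hg hb f).toLp _ := by
    intro c f
    rw [← MemLp.toLp_const_smul, MemLp.toLp_eq_toLp_iff]
    filter_upwards [Lp.coeFn_smul c f] with x hx
    simp only [Pi.smul_apply, smul_eq_mul] at hx ⊢
    rw [hx]
    ring
  let L : LI →ₗ[ℂ] LI :=
    { toFun := fun f => (Z1_memLp g R hg hb f).toLp _
      map_add' := hadd
      map_smul' := hsmul }
  have hbd : ∀ f : LI, ‖L f‖ ≤ R * ‖f‖ := by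
    intro f
    refine Lp.norm_le_mul_norm_of_ae_le_mul ?_
    filter_upwards [(Z1_memLp g R hg hb f).coeFn_toLp] with x hx
    show ‖((Z1_memLp g R hg hb f).toLp _ : ℝ → ℂ) x‖ ≤ R * ‖(f : ℝ → ℂ) x‖
    rw [hx, norm_mul]
    exact mul_le_mul_of_nonneg_right (hb x) (norm_nonneg _)
  refine ⟨L.mkContinuous R hbd, L.mkContinuous_norm_le hR hbd, fun f => ?_⟩
  exact (Z1_memLp g R hg hb f).coeFn_toLp

end Pool.Agent.H712R5.BO
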