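import Pool.Agent.H712R5.BO.Stmts

set_option autoImplicit false
open scoped ComplexConjugate InnerProductSpace Topology
open Filter MeasureTheory NormedSpace

namespace Pool.Agent.H712R5.BO

theorem Z5_sym (A : LI →L[ℂ] LI) (g : ℝ → ℝ)
    (hA : ∀ f : LI, (A f : ℝ → ℂ) =ᵐ[volume.restrict (Set.Ico (0:ℝ) 1)]
      (fun x => (g x : ℂ) * (f : ℝ → ℂ) x)) : IsSelfAdjoint A := by
  rw [ContinuousLinearMap.isSelfAdjoint_iff_isSymmetric]
  intro f h
  show ⟪A f, h⟫_ℂ = ⟪f, A h⟫_ℂ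
  rw [L2.inner_def, L2.inner_def]
  refine integral_congr_ae ?_
  filter_upwards [hA f, hA h] with x h1 h2
  rw [h1, h2]
  simp only [RCLike.inner_apply, map_mul, Complex.conj_ofReal]
  ring

theorem Z5_pos (B : LI →L[ℂ] LI) (g : ℝ → ℝ) (h0 : ∀ x, 0 ≤ g x)
    (hB : ∀ f : LI, (B f : ℝ → ℂ) =ᵐ[volume.restrict (Set.Ico (0:ℝ) 1)]
      (fun x => (g x : ℂ) * (f : ℝ → ℂ) x)) : 0 ≤ B := by
  rw [ContinuousLinearMap.nonneg_iff_isPositive, ContinuousLinearMap.isPositive_def']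
  refine ⟨Z5_sym B g hB, fun f => ?_⟩
  rw [ContinuousLinearMap.reApplyInnerSelf_apply, L2.inner_def]
  have h1 : (fun x => ⟪(B f : ℝ → ℂ) x, (f : ℝ → ℂ) x⟫_ℂ) =ᵐ[volume.restrict (Set.Ico (0:ℝ) 1)]
      fun x => ((g x * ‖(f : ℝ → ℂ) x‖ ^ 2 : ℝ) : ℂ) := by
    filter_upwards [hB f] with x hx
    rw [hx]
    simp only [RCLike.inner_apply, map_mul, Complex.conj_ofReal]
    push_cast
    rw [← Complex.conj_mul']
    ring
  rw [integral_congr_ae h1, integral_complex_ofReal]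
  simp only [RCLike.re_to_complex, Complex.ofReal_re]
  exact integral_nonneg fun x => mul_nonneg (h0 x) (by positivity)

theorem Z5_pow (A : LI →L[ℂ] LI) (g : ℝ → ℝ)
    (hA : ∀ f : LI, (A f : ℝ → ℂ) =ᵐ[volume.restrict (Set.Ico (0:ℝ) 1)]
      (fun x => (g x : ℂ) * (f : ℝ → ℂ) x)) (n : ℕ) (f : LI) :
    ((A ^ n) f : ℝ → ℂ) =ᵐ[volume.restrict (Set.Ico (0:ℝ) 1)]
      (fun x => ((g x ^ n : ℝ) : ℂ) * (f : ℝ → ℂ) x) := by
  induction n with
  | zero => simp
  | succ n ih =>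
    have h1 : (A ^ (n + 1)) f = A ((A ^ n) f) := by rw [pow_succ']; rfl
    rw [h1]
    filter_upwards [hA ((A ^ n) f), ih] with x h2 h3
    rw [h2, h3]
    push_cast
    ring

theorem Z5_poly (A : LI →L[ℂ] LI) (g : ℝ → ℝ)
    (hA : ∀ f : LI, (A f : ℝ → ℂ) =ᵐ[volume.restrict (Set.Ico (0:ℝ) 1)]
      (fun x => (g x : ℂ) * (f : ℝ → ℂ) x)) (p : Polynomial ℝ) (f : LI) :
    ((Polynomial.aeval A p) f : ℝ → ℂ) =ᵐ[volume.restrict (Set.Ico (0:ℝ) 1)]
      (fun x => ((p.eval (g x) : ℝ) : ℂ) * (f : ℝ → ℂ) x) := by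
  induction p using Polynomial.induction_on' with
  | add p q hp hq =>
    have h1 : (Polynomial.aeval A (p + q)) f = (Polynomial.aeval A p) f + (Polynomial.aeval A q) f := by
      rw [map_add]; rfl
    rw [h1]
    filter_upwards [Lp.coeFn_add ((Polynomial.aeval A p) f) ((Polynomial.aeval A q) f), hp, hq]
      with x h2 h3 h4
    rw [h2, Pi.add_apply, h3, h4, Polynomial.eval_add]
    push_cast
    ring
  | monomial n a =>
    have h1 : (Polynomial.aeval A (Polynomial.monomial n a)) f = a • (A ^ n) f := by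
      rw [Polynomial.aeval_monomial, ← Algebra.smul_def]; rfl
    rw [h1]
    filter_upwards [Lp.coeFn_smul a ((A ^ n) f), Z5_pow A g hA n f] with x h2 h3
    rw [h2, Pi.smul_apply, h3, Polynomial.eval_monomial]
    rw [Complex.real_smul]
    push_cast
    ring

theorem Z5_gen {𝔄 : Type} [CStarAlgebra 𝔄] [PartialOrder 𝔄] [StarOrderedRing 𝔄] (A : 𝔄)
    (hsa : IsSelfAdjoint A) (δ R : ℝ) (hδ : 0 < δ) (hlow : algebraMap ℝ 𝔄 δ ≤ A)
    (hup : A ≤ algebraMap ℝ 𝔄 R) (p : Polynomial ℝ) (ε : ℝ) (hε : 0 < ε)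
    (hp : ∀ x ∈ Set.Icc δ R, |p.eval x - Real.log x| < ε) :
    ‖CFC.log A - Polynomial.aeval A p‖ ≤ ε := by
  have hspec : ∀ x ∈ spectrum ℝ A, x ∈ Set.Icc δ R := fun x hx =>
    ⟨(algebraMap_le_iff_le_spectrum hsa).1 hlow x hx, (le_algebraMap_iff_spectrum_le hsa).1 hup x hx⟩
  have hlogc : ContinuousOn Real.log (Set.Icc δ R) :=
    Real.continuousOn_log.mono (fun x hx => ne_of_gt (lt_of_lt_of_le hδ hx.1))
  have hlogs : ContinuousOn Real.log (spectrum ℝ A) := hlogc.mono hspec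
  have e1 : CFC.log A - Polynomial.aeval A p = cfc (fun x => Real.log x - p.eval x) A := by
    rw [cfc_sub Real.log p.eval A hlogs p.continuous.continuousOn, cfc_polynomial p A hsa]
    rfl
  rw [e1]
  apply norm_cfc_le hε.le
  intro x hx
  have := hp x (hspec x hx)
  rw [Real.norm_eq_abs, abs_sub_comm]
  exact this.le

theorem t_Z5 : P_Z5 := by
  intro A g δ R v hδ hgm hg hA hv
  have hsa : IsSelfAdjoint A := Z5_sym A g hA
  have hδR : δ ≤ R := (hg 0).1.trans (hg 0).2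
  -- bounds of the spectrum
  have hlow : algebraMap ℝ (LI →L[ℂ] LI) δ ≤ A := by
    rw [← sub_nonneg]
    refine Z5_pos _ (fun x => g x - δ) (fun x => sub_nonneg.2 (hg x).1) (fun f => ?_)
    have h1 : (A - algebraMap ℝ (LI →L[ℂ] LI) δ) f = A f - δ • f := by
      rw [Algebra.algebraMap_eq_smul_one]; rfl
    rw [h1]
    filter_upwards [Lp.coeFn_sub (A f) (δ • f), Lp.coeFn_smul δ f, hA f] with x h2 h3 h4
    rw [h2, Pi.sub_apply, h3, h4, Pi.smul_apply, Complex.real_smul]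
    push_cast
    ring
  have hup : A ≤ algebraMap ℝ (LI →L[ℂ] LI) R := by
    rw [← sub_nonneg]
    refine Z5_pos _ (fun x => R - g x) (fun x => sub_nonneg.2 (hg x).2) (fun f => ?_)
    have h1 : (algebraMap ℝ (LI →L[ℂ] LI) R - A) f = R • f - A f := by
      rw [Algebra.algebraMap_eq_smul_one]; rfl
    rw [h1]
    filter_upwards [Lp.coeFn_sub (R • f) (A f), Lp.coeFn_smul R f, hA f] with x h2 h3 h4
    rw [h2, Pi.sub_apply, h3, h4, Pi.smul_apply, Complex.real_smul]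
    push_cast
    ring
  have hlogc : ContinuousOn Real.log (Set.Icc δ R) :=
    Real.continuousOn_log.mono (fun x hx => ne_of_gt (lt_of_lt_of_le hδ hx.1))
  -- the integral for polynomials
  have hpoly : ∀ p : Polynomial ℝ, (⟪v, (Polynomial.aeval A p) v⟫_ℂ).re =
      ∫ x in Set.Ico (0:ℝ) 1, p.eval (g x) := by
    intro p
    rw [L2.inner_def]
    have h1 : (fun x => ⟪(v : ℝ → ℂ) x, ((Polynomial.aeval A p) v : ℝ → ℂ) x⟫_ℂ)
        =ᵐ[volume.restrict (Set.Ico (0:ℝ) 1)] fun x => ((p.eval (g x) : ℝ) : ℂ) := by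
      filter_upwards [Z5_poly A g hA p v, hv] with x h2 h3
      rw [h2, h3]
      simp
    rw [integral_congr_ae h1, integral_complex_ofReal]
    simp
  -- boundedness
  set Mx : ℝ := |Real.log δ| + |Real.log R| with hMx
  have hlogb : ∀ y ∈ Set.Icc δ R, |Real.log y| ≤ Mx := by
    intro y hy
    have h1 : Real.log δ ≤ Real.log y := Real.log_le_log hδ hy.1
    have h2 : Real.log y ≤ Real.log R := Real.log_le_log (lt_of_lt_of_le hδ hy.1) hy.2
    rw [abs_le]
    have h3 := neg_abs_le (Real.log δ)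
    have h4 := le_abs_self (Real.log R)
    have h5 := abs_nonneg (Real.log δ)
    have h6 := abs_nonneg (Real.log R)
    constructor <;> linarith
  have hlint : Integrable (fun x => Real.log (g x)) (volume.restrict (Set.Ico (0:ℝ) 1)) := by
    refine Integrable.of_bound (Real.measurable_log.comp hgm).aestronglyMeasurable Mx ?_
    exact Eventually.of_forall fun x => hlogb _ (hg x)
  have key : ∀ ε : ℝ, 0 < ε → |(⟪v, CFC.log A v⟫_ℂ).re - ∫ x in Set.Ico (0:ℝ) 1, Real.log (g x)| ≤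
      ε * (‖v‖ * ‖v‖ + 1) := by
    intro ε hε
    obtain ⟨p, hp⟩ := exists_polynomial_near_of_continuousOn δ R Real.log hlogc ε hε
    have hpint : Integrable (fun x => p.eval (g x)) (volume.restrict (Set.Ico (0:ℝ) 1)) := by
      refine Integrable.of_bound ((p.continuous.measurable).comp hgm).aestronglyMeasurable (Mx + ε) ?_
      refine Eventually.of_forall fun x => ?_
      have h1 := hp _ (hg x)
      have h2 := hlogb _ (hg x)
      rw [Real.norm_eq_abs]
      calc |p.eval (g x)| = |(p.eval (g x) - Real.log (g x)) + Real.log (g x)| := by ring_nf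
        _ ≤ |p.eval (g x) - Real.log (g x)| + |Real.log (g x)| := abs_add_le _ _
        _ ≤ Mx + ε := by linarith
    have h1 : ‖CFC.log A - Polynomial.aeval A p‖ ≤ ε := Z5_gen A hsa δ R hδ hlow hup p ε hε hp
    have h2 : |(⟪v, CFC.log A v⟫_ℂ).re - (⟪v, (Polynomial.aeval A p) v⟫_ℂ).re| ≤ ε * (‖v‖ * ‖v‖) := by
      rw [← Complex.sub_re, ← inner_sub_right]
      have e2 : CFC.log A v - (Polynomial.aeval A p) v = (CFC.log A - Polynomial.aeval A p) v := rfl
      rw [e2]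
      calc |(⟪v, (CFC.log A - Polynomial.aeval A p) v⟫_ℂ).re|
          ≤ ‖⟪v, (CFC.log A - Polynomial.aeval A p) v⟫_ℂ‖ := Complex.abs_re_le_norm _
        _ ≤ ‖v‖ * ‖(CFC.log A - Polynomial.aeval A p) v‖ := norm_inner_le_norm _ _
        _ ≤ ‖v‖ * (‖CFC.log A - Polynomial.aeval A p‖ * ‖v‖) :=
            mul_le_mul_of_nonneg_left (ContinuousLinearMap.le_opNorm _ _) (norm_nonneg _)
        _ ≤ ‖v‖ * (ε * ‖v‖) :=
            mul_le_mul_of_nonneg_left (mul_le_mul_of_nonneg_right h1 (norm_nonneg _)) (norm_nonneg _)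
        _ = ε * (‖v‖ * ‖v‖) := by ring
    have h3 : |(∫ x in Set.Ico (0:ℝ) 1, p.eval (g x)) - ∫ x in Set.Ico (0:ℝ) 1, Real.log (g x)| ≤ ε := by
      rw [← integral_sub hpint hlint]
      have h4 : ∀ᵐ x ∂(volume.restrict (Set.Ico (0:ℝ) 1)), ‖p.eval (g x) - Real.log (g x)‖ ≤ ε :=
        Eventually.of_forall fun x => (hp _ (hg x)).le
      have h5 := norm_integral_le_of_norm_le_const h4
      have h6 : (volume.restrict (Set.Ico (0:ℝ) 1)).real Set.univ = 1 := by
        rw [Measure.real, Measure.restrict_apply_univ, Real.volume_Ico]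
        norm_num
      rw [h6, mul_one, Real.norm_eq_abs] at h5
      exact h5
    rw [hpoly p] at h2
    calc |(⟪v, CFC.log A v⟫_ℂ).re - ∫ x in Set.Ico (0:ℝ) 1, Real.log (g x)|
        = |((⟪v, CFC.log A v⟫_ℂ).re - ∫ x in Set.Ico (0:ℝ) 1, p.eval (g x)) +
          ((∫ x in Set.Ico (0:ℝ) 1, p.eval (g x)) - ∫ x in Set.Ico (0:ℝ) 1, Real.log (g x))| := by
          ring_nf
      _ ≤ _ + _ := abs_add_le _ _
      _ ≤ ε * (‖v‖ * ‖v‖ + 1) := by linarith
  have hc : 0 < ‖v‖ * ‖v‖ + 1 := by positivity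
  have hz : |(⟪v, CFC.log A v⟫_ℂ).re - ∫ x in Set.Ico (0:ℝ) 1, Real.log (g x)| ≤ 0 := by
    apply le_of_forall_pos_le_add
    intro ε hε
    have := key (ε / (‖v‖ * ‖v‖ + 1)) (by positivity)
    rw [div_mul_cancel₀ _ hc.ne'] at this
    linarith
  have := abs_nonpos_iff.1 hz
  linarith

end Pool.Agent.H712R5.BO
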