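import Pool.Agent.H712R5.BO.Stmts

set_option autoImplicit false
open scoped ComplexConjugate InnerProductSpace Topology
open Filter MeasureTheory NormedSpace

namespace Pool.Agent.H712R5.BO

variable {A : Type} [CStarAlgebra A] {τ : A →L[ℂ] ℂ}

theorem B1_expand (hτ : TrSt τ) (a b : A) (c : ℂ) :
    (τ (star (a + c • b) * (a + c • b))).re =
      (τ (star a * a)).re + 2 * (c * τ (star a * b)).re + ‖c‖ ^ 2 * (τ (star b * b)).re := by
  have h1 : star (a + c • b) * (a + c • b) = star a * a + c • (star a * b) +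
      conj c • (star b * a) + (conj c * c) • (star b * b) := by
    rw [star_add, star_smul, add_mul, mul_add, mul_add, mul_smul_comm, smul_mul_assoc,
      smul_mul_assoc, mul_smul_comm, smul_smul]
    simp only [RCLike.star_def]
    abel
  have h2 : τ (star b * a) = conj (τ (star a * b)) := by
    rw [← hτ.herm, star_mul, star_star]
  rw [h1, map_add, map_add, map_add, map_smul, map_smul, map_smul, h2]
  simp only [smul_eq_mul, Complex.add_re, Complex.mul_re, Complex.conj_re, Complex.conj_im,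
    Complex.mul_im]
  have h3 : ‖c‖ ^ 2 = c.re * c.re + c.im * c.im := by
    rw [← Complex.normSq_eq_norm_sq, Complex.normSq_apply]
  rw [h3]
  ring

theorem B1_cs (hτ : TrSt τ) (a b : A) :
    ‖τ (star a * b)‖ ^ 2 ≤ (τ (star a * a)).re * (τ (star b * b)).re := by
  set g := τ (star a * b) with hg
  set α := (τ (star a * a)).re with hα
  set β := (τ (star b * b)).re with hβ
  have hα0 : 0 ≤ α := hτ.pos a
  have hβ0 : 0 ≤ β := hτ.pos b
  have key : ∀ t : ℝ, 0 ≤ (‖g‖ ^ 2 * β) * (t * t) + (-(2 * ‖g‖ ^ 2)) * t + α := by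
    intro t
    have h1 := hτ.pos (a + (-(t : ℂ) * conj g) • b)
    rw [B1_expand hτ, ← hg, ← hα, ← hβ] at h1
    have h2 : (-(t : ℂ) * conj g * g).re = -t * ‖g‖ ^ 2 := by
      rw [mul_assoc, mul_comm (conj g) g, Complex.mul_conj, Complex.normSq_eq_norm_sq]
      rw [show -(t : ℂ) * ((‖g‖ ^ 2 : ℝ) : ℂ) = ((-t * ‖g‖ ^ 2 : ℝ) : ℂ) by push_cast; ring]
      exact Complex.ofReal_re _
    have h3 : ‖-(t : ℂ) * conj g‖ ^ 2 = t ^ 2 * ‖g‖ ^ 2 := by
      rw [norm_mul, norm_neg, Complex.norm_real, RCLike.norm_conj, mul_pow, Real.norm_eq_abs,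
        sq_abs]
    rw [h2, h3] at h1
    nlinarith
  have hd := discrim_le_zero key
  unfold discrim at hd
  by_cases h0 : ‖g‖ ^ 2 = 0
  · rw [h0]
    positivity
  · have hpos : 0 < ‖g‖ ^ 2 := lt_of_le_of_ne (by positivity) (Ne.symm h0)
    have h1 : ‖g‖ ^ 2 * ‖g‖ ^ 2 ≤ ‖g‖ ^ 2 * (α * β) := by nlinarith
    exact le_of_mul_le_mul_left h1 hpos

theorem B1_sq (hτ : TrSt τ) (a : A) : (n2 τ a) ^ 2 = (τ (star a * a)).re :=
  Real.sq_sqrt (hτ.pos a)

theorem B1_nonneg (a : A) : 0 ≤ n2 τ a := Real.sqrt_nonneg _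

theorem B1_cs' (hτ : TrSt τ) (a b : A) : ‖τ (star a * b)‖ ≤ n2 τ a * n2 τ b := by
  have h1 : ‖τ (star a * b)‖ ^ 2 ≤ (n2 τ a * n2 τ b) ^ 2 := by
    rw [mul_pow, B1_sq hτ, B1_sq hτ]
    exact B1_cs hτ a b
  have h2 := abs_le_of_sq_le_sq h1 (mul_nonneg (B1_nonneg a) (B1_nonneg b))
  rwa [abs_of_nonneg (norm_nonneg _)] at h2

theorem B1_add (hτ : TrSt τ) (a b : A) : n2 τ (a + b) ≤ n2 τ a + n2 τ b := by
  have h1 := B1_expand hτ a b 1
  rw [one_smul, one_mul, norm_one, one_pow, one_mul, ← B1_sq hτ, ← B1_sq hτ, ← B1_sq hτ] at h1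
  have h2 : (τ (star a * b)).re ≤ n2 τ a * n2 τ b :=
    (Complex.re_le_norm _).trans (B1_cs' hτ a b)
  have h3 : (n2 τ (a + b)) ^ 2 ≤ (n2 τ a + n2 τ b) ^ 2 := by nlinarith
  have h4 := abs_le_of_sq_le_sq h3 (add_nonneg (B1_nonneg a) (B1_nonneg b))
  exact (le_abs_self _).trans h4

theorem B1_smul (a : A) (c : ℂ) : n2 τ (c • a) = ‖c‖ * n2 τ a := by
  unfold n2
  have h1 : star (c • a) * (c • a) = (conj c * c) • (star a * a) := by
    rw [star_smul, smul_mul_assoc, mul_smul_comm, smul_smul]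
    rfl
  have h2 : (τ (star (c • a) * (c • a))).re = ‖c‖ ^ 2 * (τ (star a * a)).re := by
    rw [h1, map_smul, smul_eq_mul, mul_comm (conj c) c, Complex.mul_conj,
      Complex.normSq_eq_norm_sq]
    rw [Complex.re_ofReal_mul]
  rw [h2, Real.sqrt_mul (by positivity), Real.sqrt_sq (norm_nonneg c)]

theorem B1_rsmul (a : A) (c : ℝ) : n2 τ (c • a) = |c| * n2 τ a := by
  rw [← Complex.coe_smul, B1_smul, Complex.norm_real, Real.norm_eq_abs]

theorem B1_star (hτ : TrSt τ) (a : A) : n2 τ (star a) = n2 τ a := by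
  unfold n2
  rw [star_star, hτ.tr]

theorem B1_le_norm (hτ : TrSt τ) (a : A) : n2 τ a ≤ ‖a‖ := by
  letI := CStarAlgebra.spectralOrder A
  haveI := CStarAlgebra.spectralOrderedRing A
  have h1 : star a * a ≤ algebraMap ℝ A (‖a‖ ^ 2) := CStarAlgebra.star_mul_le_algebraMap_norm_sq
  rw [← sub_nonneg, CStarAlgebra.nonneg_iff_eq_star_mul_self] at h1
  obtain ⟨c, hc⟩ := h1
  have h2 := hτ.pos c
  rw [← hc, map_sub, Complex.sub_re] at h2
  have h3 : (τ (algebraMap ℝ A (‖a‖ ^ 2))).re = ‖a‖ ^ 2 := by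
    rw [Algebra.algebraMap_eq_smul_one, ← Complex.coe_smul, map_smul, hτ.one, smul_eq_mul, mul_one]
    exact Complex.ofReal_re _
  rw [h3] at h2
  unfold n2
  rw [← Real.sqrt_sq (norm_nonneg a)]
  exact Real.sqrt_le_sqrt (by linarith)

theorem t_B1 : P_B1 := by
  intro A _ τ hτ
  refine ⟨B1_add hτ, ?_, fun c a => B1_smul a c, fun c a => B1_rsmul a c, B1_star hτ,
    B1_le_norm hτ, ?_, ?_, fun a => B1_nonneg a, ?_, fun a => B1_sq hτ a⟩
  · intro a b
    have h1 := B1_add hτ a (-b)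
    have h2 : n2 τ (-b) = n2 τ b := by
      have := B1_smul (τ := τ) b (-1)
      simpa using this
    rw [h2, ← sub_eq_add_neg] at h1
    exact h1
  · intro a b
    have h1 := B1_cs' hτ (star a) b
    rw [star_star, B1_star hτ] at h1
    exact h1
  · intro u hu v hv a
    unfold n2
    have h1 : star (u * a * v) * (u * a * v) = star v * (star a * a) * v := by
      rw [star_mul, star_mul]
      calc star v * (star a * star u) * (u * a * v) =
          star v * star a * (star u * u) * a * v := by noncomm_ring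
        _ = star v * (star a * a) * v := by
          rw [(Unitary.mem_iff.mp hu).1]
          noncomm_ring
    rw [h1, hτ.tr, ← mul_assoc, (Unitary.mem_iff.mp hv).2, one_mul]
  · unfold n2
    exact Real.continuous_sqrt.comp (Complex.continuous_re.comp
      (τ.continuous.comp (continuous_star.mul continuous_id)))

end Pool.Agent.H712R5.BO
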