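import Pool.Agent.H712R5.BO.Stmts

/-!
B10 (Karlsson-Margulis lemma), by helper209.
-/

set_option autoImplicit false
open Filter Topology

namespace Pool.Agent.H712R5.BO

theorem t_B10 : P_B10 := by
  intro V _ _ B hsym hpos L hsub hlip ε hε
  set a : ℕ → ℝ := fun k => Real.sqrt (B (L k) (L k)) with ha
  have ha0 : ∀ k, 0 ≤ a k := fun k => Real.sqrt_nonneg _
  have hasq : ∀ k, a k ^ 2 = B (L k) (L k) := fun k => Real.sq_sqrt (hpos _)
  have hS : Subadditive a := fun k m => hsub k m
  have hbdd : BddBelow (Set.range fun n : ℕ => a n / n) := by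
    refine ⟨0, ?_⟩
    rintro _ ⟨n, rfl⟩
    exact div_nonneg (ha0 n) (Nat.cast_nonneg n)
  have hlim := hS.tendsto_lim hbdd
  have hle : ∀ n : ℕ, n ≠ 0 → hS.lim ≤ a n / n := fun n hn => hS.lim_le_div hbdd hn
  set l : ℝ := hS.lim with hl
  have hl0 : 0 ≤ l := ge_of_tendsto' hlim (fun n => div_nonneg (ha0 n) (Nat.cast_nonneg n))
  have hak : ∀ k : ℕ, l * k ≤ a k := by
    intro k
    rcases Nat.eq_zero_or_pos k with rfl | hk
    · simpa using ha0 0
    · have hk' : (0:ℝ) < k := by exact_mod_cast hk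
      have := hle k hk.ne'
      rwa [le_div_iff₀ hk'] at this
  -- choice of the small parameter
  obtain ⟨δ, hδ0, hδl, hδε⟩ : ∃ δ : ℝ, 0 < δ ∧ (0 < l → δ < l) ∧
      4 * (4 * l * δ + δ ^ 2) < ε ^ 2 := by
    have hc : Tendsto (fun δ : ℝ => 4 * (4 * l * δ + δ ^ 2)) (𝓝[>] 0) (𝓝 0) := by
      have : Continuous (fun δ : ℝ => 4 * (4 * l * δ + δ ^ 2)) := by fun_prop
      have h := this.tendsto 0
      simp only [mul_zero, ne_eq, OfNat.ofNat_ne_zero, not_false_eq_true, zero_pow, add_zero] at h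
      exact h.mono_left nhdsWithin_le_nhds
    have h1 : ∀ᶠ δ in 𝓝[>] (0:ℝ), 4 * (4 * l * δ + δ ^ 2) < ε ^ 2 :=
      hc.eventually (gt_mem_nhds (by positivity))
    have h2 : ∀ᶠ δ in 𝓝[>] (0:ℝ), 0 < δ := eventually_mem_nhdsWithin
    have h3 : ∀ᶠ δ in 𝓝[>] (0:ℝ), (0 < l → δ < l) := by
      by_cases h : 0 < l
      · have : ∀ᶠ δ in 𝓝 (0:ℝ), δ < l := gt_mem_nhds h
        exact (this.filter_mono nhdsWithin_le_nhds).mono (fun _ hx _ => hx)
      · exact Eventually.of_forall (fun _ h' => absurd h' h)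
    obtain ⟨δ, h1, h2, h3⟩ := (h1.and (h2.and h3)).exists
    exact ⟨δ, h2, h3, h1⟩
  -- the index K
  obtain ⟨K, hK1, hK⟩ : ∃ K : ℕ, 1 ≤ K ∧ ∀ k ≥ K, a k ≤ (l + δ) * k := by
    have h1 : ∀ᶠ n : ℕ in atTop, a n / n < l + δ :=
      hlim.eventually (gt_mem_nhds (by linarith))
    obtain ⟨K, hK⟩ := eventually_atTop.mp h1
    refine ⟨max K 1, le_max_right _ _, fun k hk => ?_⟩
    have hk1 : 1 ≤ k := le_trans (le_max_right _ _) hk
    have hk' : (0:ℝ) < k := by exact_mod_cast hk1
    have := (hK k (le_trans (le_max_left _ _) hk)).le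
    rwa [div_le_iff₀ hk'] at this
  -- the common approximate center
  have key : ∀ N : ℕ, ∃ z : V, ∀ k : ℕ, K ≤ k → k ≤ N →
      B ((1/(k:ℝ)) • L k - z) ((1/(k:ℝ)) • L k - z) ≤ 4 * l * δ + δ ^ 2 := by
    intro N
    rcases hl0.eq_or_lt with hl1 | hl1
    · refine ⟨0, fun k hk _ => ?_⟩
      have hk' : (0:ℝ) < k := by exact_mod_cast (le_trans hK1 hk)
      have h1 := hK k hk
      rw [← hl1, zero_add] at h1
      have e : B ((1/(k:ℝ)) • L k - 0) ((1/(k:ℝ)) • L k - 0) = (a k / k) ^ 2 := by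
        simp only [sub_zero, map_smul, LinearMap.smul_apply, smul_eq_mul]
        rw [← hasq]
        ring
      rw [e, ← hl1]
      have h2 : a k / k ≤ δ := by
        rw [div_le_iff₀ hk']; exact h1
      have h3 : 0 ≤ a k / k := div_nonneg (ha0 k) hk'.le
      nlinarith
    · have hδ := hδl hl1
      have hb : Tendsto (fun m : ℕ => a m - (l - δ) * m) atTop atTop := by
        have h1 : Tendsto (fun m : ℕ => δ * (m:ℝ)) atTop atTop :=
          (tendsto_natCast_atTop_atTop (R := ℝ)).const_mul_atTop hδ0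
        refine tendsto_atTop_mono (fun m => ?_) h1
        have := hak m
        nlinarith
      obtain ⟨m, hmN, hm⟩ := Filter.high_scores hb (max N 1)
      have hm1 : 1 ≤ m := le_trans (le_max_right _ _) hmN
      have hmN' : N ≤ m := le_trans (le_max_left _ _) hmN
      have hm' : (0:ℝ) < m := by exact_mod_cast hm1
      have ham : 0 < a m := lt_of_lt_of_le (by positivity) (hak m)
      refine ⟨(l / a m) • L m, fun k hk hkN => ?_⟩
      have hk1 : 1 ≤ k := le_trans hK1 hk
      have hk' : (0:ℝ) < k := by exact_mod_cast hk1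
      have hkm : k ≤ m := le_trans hkN hmN'
      have e1 : k + (m - k) = m := Nat.add_sub_cancel' hkm
      have h1 := hm (m - k) (by omega)
      have h2 := hlip k (m - k)
      rw [e1] at h2
      have h3 : Real.sqrt (B (L m - L k) (L m - L k)) ≤ a (m - k) := h2
      have hcast : ((m - k : ℕ) : ℝ) = (m:ℝ) - k := by
        rw [Nat.cast_sub hkm]
      have h4 : a (m - k) < a m - (l - δ) * k := by
        have h1' : a (m - k) - (l - δ) * ((m - k : ℕ) : ℝ) < a m - (l - δ) * (m:ℝ) := h1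
        rw [hcast] at h1'
        nlinarith
      have h5 : B (L m - L k) (L m - L k) ≤ (a m - (l - δ) * k) ^ 2 := by
        have h6 : Real.sqrt (B (L m - L k) (L m - L k)) ^ 2 = B (L m - L k) (L m - L k) :=
          Real.sq_sqrt (hpos _)
        rw [← h6]
        exact pow_le_pow_left₀ (Real.sqrt_nonneg _) (le_trans h3 h4.le) 2
      have h7 : B (L m - L k) (L m - L k) = a m ^ 2 + a k ^ 2 - 2 * B (L m) (L k) := by
        rw [hasq, hasq]
        simp only [map_sub, LinearMap.sub_apply]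
        rw [hsym (L k) (L m)]
        ring
      have h8 : (l - δ) * k ≤ a k := by
        have := hak k
        nlinarith
      have h9 : ((l - δ) * k) ^ 2 ≤ a k ^ 2 :=
        pow_le_pow_left₀ (mul_nonneg (by linarith) hk'.le) h8 2
      have h10 : a m * ((l - δ) * k) ≤ B (L m) (L k) := by
        rw [h7] at h5
        nlinarith
      have e2 : B ((1/(k:ℝ)) • L k - (l / a m) • L m) ((1/(k:ℝ)) • L k - (l / a m) • L m)
          = (a k / k) ^ 2 + l ^ 2 - 2 * l * (B (L m) (L k) / (a m * k)) := by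
        simp only [map_sub, map_smul, LinearMap.sub_apply, LinearMap.smul_apply, smul_eq_mul]
        rw [hsym (L k) (L m), ← hasq k, ← hasq m]
        field_simp
        ring
      rw [e2]
      have h11 : a k / k ≤ l + δ := by
        rw [div_le_iff₀ hk']; exact hK k hk
      have h12 : 0 ≤ a k / k := div_nonneg (ha0 k) hk'.le
      have h13 : (a k / k) ^ 2 ≤ (l + δ) ^ 2 := pow_le_pow_left₀ h12 h11 2
      have h14 : l - δ ≤ B (L m) (L k) / (a m * k) := by
        rw [le_div_iff₀ (mul_pos ham hk')]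
        calc (l - δ) * (a m * k) = a m * ((l - δ) * k) := by ring
          _ ≤ _ := h10
      nlinarith
  refine ⟨K, hK1, fun k hk m hm => ?_⟩
  obtain ⟨z, hz⟩ := key (max k m)
  have hk2 := hz k hk (le_max_left _ _)
  have hm2 := hz m hm (le_max_right _ _)
  set x := (1/(k:ℝ)) • L k with hx
  set y := (1/(m:ℝ)) • L m with hy
  have hpar : B (x - y) (x - y) ≤ 2 * B (x - z) (x - z) + 2 * B (y - z) (y - z) := by
    have h := hpos ((x - z) + (y - z))
    have e1 : B ((x - z) + (y - z)) ((x - z) + (y - z))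
        = B (x - z) (x - z) + B (y - z) (y - z) + 2 * B (x - z) (y - z) := by
      simp only [map_add, LinearMap.add_apply]
      rw [hsym (y - z) (x - z)]
      ring
    have e2 : B (x - y) (x - y)
        = B (x - z) (x - z) + B (y - z) (y - z) - 2 * B (x - z) (y - z) := by
      have : x - y = (x - z) - (y - z) := by abel
      rw [this]
      simp only [map_sub (B)]
      simp only [map_sub, LinearMap.sub_apply]
      rw [hsym z x, hsym z y, hsym y x]
      ring
    rw [e1] at h
    rw [e2]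
    linarith
  have hfin : B (x - y) (x - y) < ε ^ 2 := by
    calc B (x - y) (x - y) ≤ 2 * B (x - z) (x - z) + 2 * B (y - z) (y - z) := hpar
      _ ≤ 4 * (4 * l * δ + δ ^ 2) := by linarith
      _ < ε ^ 2 := hδε
  rw [Real.sqrt_lt' hε]
  exact hfin

end Pool.Agent.H712R5.BO
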