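import Pool.Agent.H712R5.BO.Stmts

set_option autoImplicit false
open scoped ComplexConjugate InnerProductSpace Topology
open Filter MeasureTheory NormedSpace

namespace Pool.Agent.H712R5.BO

theorem B11_add {A : Type} [CStarAlgebra A] (T : A) (z w : ℂ) :
    ex (z + w) T = ex z T * ex w T := by
  unfold ex
  rw [add_smul]
  letI : NormedAlgebra ℚ A := NormedAlgebra.restrictScalars ℚ ℂ A
  refine exp_add_of_commute ?_
  exact (((Commute.refl T).smul_left z).smul_right w)

theorem B11_zero {A : Type} [CStarAlgebra A] (T : A) : ex 0 T = 1 := by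
  unfold ex
  rw [zero_smul, exp_zero]

/-- the unit `exp (z T)` -/
noncomputable def B11_u {A : Type} [CStarAlgebra A] (T : A) (z : ℂ) : Aˣ where
  val := ex z T
  inv := ex (-z) T
  val_inv := by rw [← B11_add, add_neg_cancel, B11_zero]
  inv_val := by rw [← B11_add, neg_add_cancel, B11_zero]

theorem t_B11 (h1 : P_B4) (h2 : P_B9) : P_B11 := by
  intro A _ τ hτ T
  refine ⟨fun k m => ?_, fun k m => ?_⟩
  · rw [Nat.cast_add, B11_add]
    exact h1 A τ hτ _ _ (B11_u T k).isUnit (B11_u T m).isUnit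
  · have h3 := h2 A τ hτ (B11_u T k) (B11_u T ((k + m : ℕ) : ℂ))
    have e : ((B11_u T ((k + m : ℕ) : ℂ) : Aˣ) : A) * ((B11_u T (k : ℂ))⁻¹ : Aˣ) = ex (m : ℂ) T := by
      show ex ((k + m : ℕ) : ℂ) T * ex (-(k : ℂ)) T = ex (m : ℂ) T
      rw [← B11_add]
      congr 1
      push_cast
      ring
    rw [e] at h3
    exact h3

end Pool.Agent.H712R5.BO
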