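import Pool.Agent.H712R5.BO.Stmts

set_option autoImplicit false
open scoped ComplexConjugate InnerProductSpace Topology
open Filter MeasureTheory NormedSpace

namespace Pool.Agent.H712R5.BO

theorem t_B12 (h1 : P_B1) (h2 : P_B10) (h3 : P_B11) : P_B12 := by
  intro A _ τ hτ T
  obtain ⟨hsub, hcau⟩ := h3 A τ hτ T
  let B : A →ₗ[ℝ] A →ₗ[ℝ] ℝ := LinearMap.mk₂ ℝ (fun x y => (τ (star x * y)).re)
    (by intro x y z; simp [add_mul])
    (by intro c x y; simp [smul_mul_assoc])
    (by intro x y z; simp [mul_add])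
    (by intro c x y; simp [mul_smul_comm])
  have hB : ∀ x y, B x y = (τ (star x * y)).re := fun x y => rfl
  have hn : ∀ x, Real.sqrt (B x x) = n2 τ x := fun x => rfl
  have hsymm : ∀ x y, B x y = B y x := by
    intro x y
    rw [hB, hB]
    have h5 := hτ.herm (star x * y)
    rw [star_mul, star_star] at h5
    rw [h5, Complex.conj_re]
  have hpos : ∀ x, 0 ≤ B x x := fun x => hτ.pos x
  have h6 := h2 A B hsymm hpos (fun k => Lg (ex (k : ℂ) T)) (fun k m => hsub k m)
    (fun k m => hcau k m)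
  intro ε hε
  obtain ⟨K, hK1, hK⟩ := h6 ε hε
  exact ⟨K, hK1, fun k hk m hm => hK k hk m hm⟩

end Pool.Agent.H712R5.BO
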