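import Pool.Agent.H712R5.BO.Stmts

set_option autoImplicit false
open scoped ComplexConjugate InnerProductSpace Topology
open Filter MeasureTheory NormedSpace

namespace Pool.Agent.H712R5.BO

/-- the unit `exp (t T)` -/
noncomputable def B13u {A : Type} [CStarAlgebra A] (T : A) (t : ℝ) : Aˣ where
  val := exp (t • T)
  inv := exp ((-t) • T)
  val_inv := by
    letI : NormedAlgebra ℚ A := .restrictScalars ℚ ℂ A
    have h : Commute (t • T) ((-t) • T) := ((Commute.refl T).smul_left t).smul_right (-t)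
    rw [← exp_add_of_commute h, ← add_smul]
    simp
  inv_val := by
    letI : NormedAlgebra ℚ A := .restrictScalars ℚ ℂ A
    have h : Commute ((-t) • T) (t • T) := ((Commute.refl T).smul_left (-t)).smul_right t
    rw [← exp_add_of_commute h, ← add_smul]
    simp

theorem B13_main {A : Type} [CStarAlgebra A] (τ : A →L[ℂ] ℂ) (hτ : TrSt τ) (h : P_B2) (T : A) :
    (τ (Lg (exp T))).re = 2 * (τ T).re := by
  have : Nontrivial A := by
    refine ⟨⟨1, 0, fun h0 => ?_⟩⟩
    have := hτ.one
    rw [h0, map_zero] at this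
    exact zero_ne_one this
  set γ : ℝ → A := fun t => star (exp (t • T)) * exp (t • T) with hγ
  set γ' : ℝ → A := fun t => star T * γ t + γ t * T with hγ'
  have hder : ∀ t : ℝ, HasDerivAt γ (γ' t) t := by
    intro t
    have h1 : HasDerivAt (fun u : ℝ => exp (u • T)) (exp (t • T) * T) t :=
      hasDerivAt_exp_smul_const T t
    have h2 := h1.star.mul h1
    have e : γ' t = star (exp (t • T) * T) * exp (t • T) + star (exp (t • T)) * (exp (t • T) * T) := by
      simp only [hγ', hγ, star_mul, mul_assoc]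
    rw [e]
    exact h2
  have hcont : Continuous γ := continuous_iff_continuousAt.mpr (fun t => (hder t).continuousAt)
  have hcont' : Continuous γ' := by
    exact (continuous_const.mul hcont).add (hcont.mul continuous_const)
  set ι : ℝ → A := fun t => exp ((-t) • T) * star (exp ((-t) • T)) with hι
  have hexp : Continuous (fun t : ℝ => exp (t • T)) :=
    continuous_iff_continuousAt.mpr (fun t => (hasDerivAt_exp_smul_const T t).continuousAt)
  have hιc : Continuous ι := by
    have h1 : Continuous (fun t : ℝ => exp ((-t) • T)) := hexp.comp continuous_neg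
    exact h1.mul h1.star
  obtain ⟨C1, hC1⟩ := (isCompact_Icc (a := (-2:ℝ)) (b := 2)).exists_bound_of_continuousOn
    hcont.continuousOn
  obtain ⟨C2, hC2⟩ := (isCompact_Icc (a := (-2:ℝ)) (b := 2)).exists_bound_of_continuousOn
    hιc.continuousOn
  obtain ⟨C3, hC3⟩ := (isCompact_Icc (a := (-2:ℝ)) (b := 2)).exists_bound_of_continuousOn
    hcont'.continuousOn
  set C : ℝ := max C1 (max C2 1) with hC
  have hCpos : 0 < C := lt_of_lt_of_le one_pos ((le_max_right _ _).trans (le_max_right _ _))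
  -- the unit
  set u : ℝ → Aˣ := fun t => star (B13u T t) * B13u T t with hu
  have hu1 : ∀ t, ((u t : Aˣ) : A) = γ t := by
    intro t
    simp [hu, hγ, B13u]
  have hu2 : ∀ t, (((u t)⁻¹ : Aˣ) : A) = ι t := by
    intro t
    have : (((B13u T t)⁻¹ : Aˣ) : A) = exp ((-t) • T) := rfl
    rw [hu]
    simp only [mul_inv_rev, Units.val_mul]
    rw [this, ← star_inv, Units.coe_star, this]
  have hsa : ∀ t, IsSelfAdjoint (γ t) := fun t => IsSelfAdjoint.star_mul_self _
  have hspec : ∀ t ∈ Set.Ioo (-2:ℝ) 2, spectrum ℝ (γ t) ⊆ Set.Icc (C⁻¹) C := by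
    intro t ht x hx
    have ht' : t ∈ Set.Icc (-2:ℝ) 2 := ⟨ht.1.le, ht.2.le⟩
    have h0 : 0 ≤ x := spectrum_star_mul_self_nonneg x hx
    have h1 : ‖x‖ ≤ ‖γ t‖ := spectrum.norm_le_norm_of_mem hx
    have h2 : x ≤ C := by
      calc x ≤ ‖x‖ := le_abs_self x
        _ ≤ C := h1.trans ((hC1 t ht').trans (le_max_left _ _))
    have hx' : x ∈ spectrum ℝ ((u t : Aˣ) : A) := by rw [hu1]; exact hx
    have hx0 : x ≠ 0 := fun h00 => by
      rw [h00] at hx'
      exact (spectrum.zero_notMem_iff ℝ |>.mpr (u t).isUnit) hx'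
    have h3 : x⁻¹ ∈ spectrum ℝ (((u t)⁻¹ : Aˣ) : A) := by
      have := (spectrum.inv_mem_iff (r := Units.mk0 x hx0) (a := u t)).mp hx'
      simpa using this
    have h4 : ‖x⁻¹‖ ≤ ‖ι t‖ := by
      rw [← hu2]
      exact spectrum.norm_le_norm_of_mem h3
    have h5 : x⁻¹ ≤ C := by
      calc x⁻¹ ≤ ‖x⁻¹‖ := le_abs_self _
        _ ≤ C := h4.trans ((hC2 t ht').trans ((le_max_left _ _).trans (le_max_right _ _)))
    have hxp : 0 < x := lt_of_le_of_ne h0 (Ne.symm hx0)
    refine ⟨?_, h2⟩
    rw [inv_le_comm₀ hCpos hxp]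
    exact h5
  set c : ℂ := 2 * ((τ T).re : ℂ) with hc
  have key : ∀ t ∈ Set.Ioo (-2:ℝ) 2, HasDerivAt (fun s => τ (cfc Real.log (γ s))) c t := by
    intro t ht
    have := h A τ hτ γ γ' (-2) 2 (C⁻¹) C (inv_pos.mpr hCpos) (fun t _ => hder t)
      hcont'.continuousOn (fun t ht => ⟨hsa t, hspec t ht⟩)
      ⟨C3, fun t ht => hC3 t ⟨ht.1.le, ht.2.le⟩⟩ Real.log (fun x => x⁻¹)
      (fun x hx => Real.hasDerivAt_log hx.ne') (continuousOn_inv₀.mono (fun x hx => ne_of_gt hx)) t ht
    convert this using 1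
    have e1 : cfc (fun x : ℝ => x⁻¹) (γ t) = (((u t)⁻¹ : Aˣ) : A) := by
      rw [← hu1]
      exact cfc_inv_id (u t) (by rw [hu1]; exact hsa t)
    have e2 : γ' t = star T * (u t : A) + (u t : A) * T := by rw [hu1]
    have e3 : τ ((((u t)⁻¹ : Aˣ) : A) * (star T * (u t : A))) = conj (τ T) := by
      rw [hτ.tr, mul_assoc, Units.mul_inv, mul_one, hτ.herm]
    have e4 : τ ((((u t)⁻¹ : Aˣ) : A) * ((u t : A) * T)) = τ T := by
      rw [← mul_assoc, Units.inv_mul, one_mul]
    rw [e1, e2, mul_add, map_add, e3, e4, hc]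
    apply Complex.ext <;> simp <;> ring
  have hconst : ∀ x ∈ Set.Icc (0:ℝ) 1,
      (fun s : ℝ => τ (cfc Real.log (γ s)) - (s:ℂ) * c) x
        = (fun s : ℝ => τ (cfc Real.log (γ s)) - (s:ℂ) * c) 0 := by
    have hd : ∀ x ∈ Set.Icc (0:ℝ) 1,
        HasDerivAt (fun s : ℝ => τ (cfc Real.log (γ s)) - (s:ℂ) * c) 0 x := by
      intro x hx
      have h1 := key x ⟨by linarith [hx.1], by linarith [hx.2]⟩
      have h2 : HasDerivAt (fun s : ℝ => (s:ℂ) * c) c x := by
        have := (Complex.ofRealCLM.hasDerivAt (x := x)).mul_const c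
        simpa using this
      have := h1.sub h2
      rwa [sub_self] at this
    apply constant_of_has_deriv_right_zero
    · exact fun x hx => (hd x hx).continuousAt.continuousWithinAt
    · exact fun x hx => (hd x ⟨hx.1, hx.2.le⟩).hasDerivWithinAt
  have h1 := hconst 1 ⟨zero_le_one, le_refl 1⟩
  have hγ0 : γ 0 = 1 := by simp [hγ]
  have hγ1 : γ 1 = star (exp T) * exp T := by simp [hγ]
  simp only [hγ0, hγ1] at h1
  have e0 : cfc Real.log (1 : A) = 0 := by
    have := CFC.log_one (A := A)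
    simpa [CFC.log] using this
  rw [e0] at h1
  have h2 : τ (Lg (exp T)) = c := by
    have : τ (Lg (exp T)) = τ (cfc Real.log (star (exp T) * exp T)) := rfl
    rw [this]
    simp only [map_zero, Complex.ofReal_one, one_mul, Complex.ofReal_zero, zero_mul, sub_zero] at h1
    exact sub_eq_zero.mp h1
  rw [h2, hc]
  simp

theorem t_B13 (h : P_B2) : P_B13 := by
  intro A _ τ hτ T
  exact B13_main τ hτ h T

end Pool.Agent.H712R5.BO
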