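import Pool.Agent.H712R5.BO.Stmts

set_option autoImplicit false
open scoped ComplexConjugate InnerProductSpace Topology
open Filter MeasureTheory NormedSpace

namespace Pool.Agent.H712R5.BO

theorem B2_anti (q : Polynomial ℝ) : ∃ p : Polynomial ℝ, Polynomial.derivative p = q := by
  induction q using Polynomial.induction_on' with
  | add p q hp hq =>
    obtain ⟨P, hP⟩ := hp
    obtain ⟨Q, hQ⟩ := hq
    exact ⟨P + Q, by rw [Polynomial.derivative_add, hP, hQ]⟩
  | monomial n a =>
    refine ⟨Polynomial.monomial (n + 1) (a / ((n : ℝ) + 1)), ?_⟩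
    rw [Polynomial.derivative_monomial]
    have h : (n : ℝ) + 1 ≠ 0 := by positivity
    congr 1
    push_cast
    field_simp

theorem B2_poly (a b : ℝ) (ha : 0 < a) (f f' : ℝ → ℝ) (hf : ∀ x : ℝ, 0 < x → HasDerivAt f (f' x) x)
    (hf' : ContinuousOn f' (Set.Ioi 0)) (n : ℕ) :
    ∃ p : Polynomial ℝ, (∀ x ∈ Set.Icc a b,
      |(Polynomial.derivative p).eval x - f' x| ≤ 1 / ((n : ℝ) + 1)) ∧
      (∀ x ∈ Set.Icc a b, |p.eval x - f x| ≤ 1 / ((n : ℝ) + 1) * (b - a)) := by
  have hn : (0 : ℝ) < 1 / ((n : ℝ) + 1) := by positivity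
  have hsub : Set.Icc a b ⊆ Set.Ioi 0 := fun x hx => lt_of_lt_of_le ha hx.1
  obtain ⟨q, hq⟩ := exists_polynomial_near_of_continuousOn a b f' (hf'.mono hsub) _ hn
  obtain ⟨p, hp⟩ := B2_anti q
  refine ⟨p + Polynomial.C (f a - p.eval a), ?_, ?_⟩
  · intro x hx
    rw [Polynomial.derivative_add, Polynomial.derivative_C, add_zero, hp]
    exact (hq x hx).le
  · intro x hx
    have haI : a ∈ Set.Icc a b := ⟨le_rfl, hx.1.trans hx.2⟩
    have hmv := (convex_Icc a b).norm_image_sub_le_of_norm_hasDerivWithin_le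
      (f := fun y => p.eval y - f y) (f' := fun y => q.eval y - f' y) (C := 1 / ((n : ℝ) + 1))
      (fun y hy => by
        have h1 := p.hasDerivAt y
        rw [hp] at h1
        exact (h1.sub (hf y (hsub hy))).hasDerivWithinAt)
      (fun y hy => by
        rw [Real.norm_eq_abs]
        exact (hq y hy).le) haI hx
    simp only [Real.norm_eq_abs] at hmv
    have e : (p + Polynomial.C (f a - p.eval a)).eval x - f x
        = (p.eval x - f x) - (p.eval a - f a) := by
      rw [Polynomial.eval_add, Polynomial.eval_C]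
      ring
    rw [e]
    refine hmv.trans ?_
    have hxa : |x - a| ≤ b - a := by
      rw [abs_of_nonneg (by linarith [hx.1])]
      linarith [hx.2]
    exact mul_le_mul_of_nonneg_left hxa hn.le

/-- B2 -/
theorem t_B2 (h1 : P_B2a) (_h2 : P_B1) : P_B2 := by
  intro A _ τ hτ γ γ' c d a b ha hγ hγ' hsp hR f f' hf hf' t ht
  obtain ⟨R, hR⟩ := hR
  choose p hp1 hp2 using B2_poly a b ha f f' hf hf'
  have hsub : Set.Icc a b ⊆ Set.Ioi 0 := fun x hx => lt_of_lt_of_le ha hx.1
  have hfc : ContinuousOn f (Set.Ioi 0) := fun x hx => (hf x hx).continuousAt.continuousWithinAt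
  have hR0 : 0 ≤ R := (norm_nonneg _).trans (hR t ht)
  -- norm estimates
  have key1 : ∀ (n : ℕ) (s : ℝ), s ∈ Set.Ioo c d →
      ‖cfc f' (γ s) - Polynomial.aeval (γ s) (Polynomial.derivative (p n))‖
        ≤ 1 / ((n : ℝ) + 1) := by
    intro n s hs
    have hsa := (hsp s hs).1
    have hss := (hsp s hs).2
    rw [← cfc_polynomial (Polynomial.derivative (p n)) (γ s) hsa]
    rw [← cfc_sub f' _ (γ s) (hf'.mono (hss.trans hsub))
      (Polynomial.continuous _).continuousOn]
    refine norm_cfc_le (by positivity) ?_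
    intro x hx
    rw [Real.norm_eq_abs, abs_sub_comm]
    exact hp1 n x (hss hx)
  have key2 : ∀ (n : ℕ) (s : ℝ), s ∈ Set.Ioo c d →
      ‖cfc f (γ s) - Polynomial.aeval (γ s) (p n)‖ ≤ 1 / ((n : ℝ) + 1) * |b - a| := by
    intro n s hs
    have hsa := (hsp s hs).1
    have hss := (hsp s hs).2
    rw [← cfc_polynomial (p n) (γ s) hsa]
    rw [← cfc_sub f _ (γ s) (hfc.mono (hss.trans hsub))
      (Polynomial.continuous _).continuousOn]
    refine norm_cfc_le (by positivity) ?_
    intro x hx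
    rw [Real.norm_eq_abs, abs_sub_comm]
    refine (hp2 n x (hss hx)).trans ?_
    exact mul_le_mul_of_nonneg_left (le_abs_self _) (by positivity)
  have hlim : Tendsto (fun n : ℕ => 1 / ((n : ℝ) + 1)) atTop (𝓝 0) :=
    tendsto_one_div_add_atTop_nhds_zero_nat
  refine hasDerivAt_of_tendstoUniformlyOn (l := atTop) (s := Set.Ioo c d)
    (f := fun (n : ℕ) s => τ (Polynomial.aeval (γ s) (p n)))
    (f' := fun (n : ℕ) s => τ (Polynomial.aeval (γ s) (Polynomial.derivative (p n)) * γ' s))
    (g := fun s => τ (cfc f (γ s))) (g' := fun s => τ (cfc f' (γ s) * γ' s))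
    isOpen_Ioo ?_ ?_ ?_ ht
  · rw [Metric.tendstoUniformlyOn_iff]
    intro ε hε
    have hl2 : Tendsto (fun n : ℕ => ‖τ‖ * (1 / ((n : ℝ) + 1) * R)) atTop (𝓝 0) := by
      have := (hlim.mul_const R).const_mul ‖τ‖
      simpa using this
    filter_upwards [hl2.eventually (gt_mem_nhds hε)] with n hn s hs
    rw [dist_eq_norm, ← map_sub, ← sub_mul]
    refine lt_of_le_of_lt ?_ hn
    refine (τ.le_opNorm _).trans ?_
    refine mul_le_mul_of_nonneg_left ?_ (norm_nonneg _)
    refine (norm_mul_le _ _).trans ?_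
    exact mul_le_mul (key1 n s hs) (hR s hs) (norm_nonneg _) (by positivity)
  · exact Eventually.of_forall (fun n s hs => h1 A τ hτ γ (γ' s) s (hγ s hs) (p n))
  · intro s hs
    rw [tendsto_iff_norm_sub_tendsto_zero]
    have hl2 : Tendsto (fun n : ℕ => ‖τ‖ * (1 / ((n : ℝ) + 1) * |b - a|)) atTop (𝓝 0) := by
      have := (hlim.mul_const |b - a|).const_mul ‖τ‖
      simpa using this
    refine squeeze_zero (fun n => norm_nonneg _) (fun n => ?_) hl2
    rw [norm_sub_rev, ← map_sub]
    refine (τ.le_opNorm _).trans ?_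
    exact mul_le_mul_of_nonneg_left (key2 n s hs) (norm_nonneg _)

end Pool.Agent.H712R5.BO
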