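import Pool.Agent.H712R5.BO.Stmts

set_option autoImplicit false
open scoped ComplexConjugate InnerProductSpace Topology
open Filter MeasureTheory NormedSpace

namespace Pool.Agent.H712R5.BO

theorem B2a_pow (A : Type) [CStarAlgebra A] (τ : A →L[ℂ] ℂ) (hτ : TrSt τ)
    (γ : ℝ → A) (g : A) (t : ℝ) (h : HasDerivAt γ g t) (n : ℕ) :
    ∃ D : A, HasDerivAt (fun s => γ s ^ n) D t ∧
      ∀ x : A, Commute x (γ t) → τ (x * D) = (n : ℂ) * τ (x * γ t ^ (n - 1) * g) := by
  induction n with
  | zero =>
    refine ⟨0, ?_, ?_⟩
    · simpa using hasDerivAt_const t (1 : A)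
    · intro x _
      simp
  | succ n ih =>
    obtain ⟨D, hD, hx⟩ := ih
    refine ⟨D * γ t + γ t ^ n * g, ?_, ?_⟩
    · have h1 := hD.mul h
      have e : (fun s => γ s ^ (n + 1)) = (fun s => γ s ^ n) * γ := by
        funext s
        simp [pow_succ]
      rw [e]
      exact h1
    · intro x hc
      have h2 : τ (x * (D * γ t)) = (n : ℂ) * τ (x * γ t ^ n * g) := by
        have e1 : x * (D * γ t) = (x * D) * γ t := by rw [mul_assoc]
        rw [e1, hτ.tr, ← mul_assoc]
        have hc' : Commute (γ t * x) (γ t) := by
          have : Commute (γ t) (γ t) := Commute.refl _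
          exact this.mul_left hc
        rw [hx (γ t * x) hc']
        rcases Nat.eq_zero_or_pos n with hn | hn
        · subst hn; simp
        · congr 2
          have e2 : γ t * x * γ t ^ (n - 1) = x * γ t ^ n := by
            rw [← hc.eq, mul_assoc, ← pow_succ']
            congr 2
            omega
          rw [e2]
      rw [mul_add, map_add, h2, ← mul_assoc]
      push_cast
      ring

theorem t_B2a : P_B2a := by
  intro A _ τ hτ γ g t h p
  have hτ' : ∀ (f : ℝ → A) (D : A), HasDerivAt f D t → HasDerivAt (fun s => τ (f s)) (τ D) t := by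
    intro f D hf
    exact ((τ.restrictScalars ℝ).hasFDerivAt.comp_hasDerivAt t hf)
  induction p using Polynomial.induction_on' with
  | add p q hp hq =>
    have := hp.add hq
    simp only [map_add, add_mul]
    exact this
  | monomial n a =>
    obtain ⟨D, hD, hx⟩ := B2a_pow A τ hτ γ g t h n
    have h1 : HasDerivAt (fun s => a • (γ s ^ n)) (a • D) t := hD.const_smul a
    have h2 := hτ' _ _ h1
    have h3 := hx 1 (Commute.one_left _)
    have hr : ∀ (r : ℝ) (y : A), τ (r • y) = (r : ℂ) * τ y := by
      intro r y
      have : r • y = (r : ℂ) • y := (Complex.coe_smul r y).symm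
      rw [this, map_smul, smul_eq_mul]
    rw [Polynomial.derivative_monomial]
    simp only [Polynomial.aeval_monomial, ← Algebra.smul_def, smul_mul_assoc]
    rw [hr]
    have h4 : τ (a • D) = ((a * (n : ℝ) : ℝ) : ℂ) * τ (γ t ^ (n - 1) * g) := by
      rw [hr]
      rw [one_mul, one_mul] at h3
      rw [h3]
      push_cast
      ring
    rw [← h4]
    exact h2

end Pool.Agent.H712R5.BO
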