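import Pool.Agent.H712R5.BO.Stmts

set_option autoImplicit false
open scoped ComplexConjugate InnerProductSpace Topology
open Filter MeasureTheory NormedSpace

namespace Pool.Agent.H712R5.BO

theorem B2c_exp_mul_neg {A : Type} [CStarAlgebra A] (x : A) : exp x * exp (-x) = 1 := by
  let _ : NormedAlgebra ℚ A := NormedAlgebra.restrictScalars ℚ ℂ A
  rw [← NormedSpace.exp_add_of_commute ((Commute.refl x).neg_right), add_neg_cancel, NormedSpace.exp_zero]

theorem B2c_sa {A : Type} [CStarAlgebra A] (x : A) (hx : IsSelfAdjoint x) : IsSelfAdjoint (exp x) := by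
  rw [IsSelfAdjoint, NormedSpace.star_exp, hx.star_eq]

theorem t_B2c : P_B2c := by
  intro A _ h K hh hK
  let _ : NormedAlgebra ℚ A := NormedAlgebra.restrictScalars ℚ ℂ A
  have hsmul : ∀ t : ℝ, IsSelfAdjoint ((t/2:ℝ) • K) := fun t => (IsSelfAdjoint.all (t/2:ℝ)).smul hK
  set G : ℝ → A := fun t => exp ((t/2:ℝ) • K) * exp h * exp ((t/2:ℝ) • K) with hG
  set Gi : ℝ → A := fun t => exp (-((t/2:ℝ) • K)) * exp (-h) * exp (-((t/2:ℝ) • K)) with hGi
  have hc1 : Continuous fun t : ℝ => exp ((t/2:ℝ) • K) :=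
    NormedSpace.exp_continuous.comp (by fun_prop)
  have hc2 : Continuous fun t : ℝ => exp (-((t/2:ℝ) • K)) :=
    NormedSpace.exp_continuous.comp (by fun_prop)
  have hcG : Continuous G := (hc1.mul continuous_const).mul hc1
  have hcGi : Continuous Gi := (hc2.mul continuous_const).mul hc2
  obtain ⟨b1, hb1⟩ := (isCompact_Icc (a := (-2:ℝ)) (b := 2)).exists_bound_of_continuousOn hcG.continuousOn
  obtain ⟨b2, hb2⟩ := (isCompact_Icc (a := (-2:ℝ)) (b := 2)).exists_bound_of_continuousOn hcGi.continuousOn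
  set b : ℝ := max b1 (max b2 1) with hb
  have hb0 : 0 < b := lt_of_lt_of_le one_pos ((le_max_right _ _).trans (le_max_right _ _))
  refine ⟨1 / b, b, by positivity, ?_⟩
  intro t ht
  have htI : t ∈ Set.Icc (-2:ℝ) 2 := ⟨ht.1.le, ht.2.le⟩
  have hsa : IsSelfAdjoint (G t) := by
    rw [IsSelfAdjoint]
    simp only [hG, star_mul]
    rw [(B2c_sa _ (hsmul t)).star_eq, (B2c_sa _ hh).star_eq, mul_assoc]
  refine ⟨hsa, ?_⟩
  -- inverse
  have e1 : exp ((t/2:ℝ) • K) * exp (-((t/2:ℝ) • K)) = 1 := B2c_exp_mul_neg _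
  have e2 : exp (-((t/2:ℝ) • K)) * exp ((t/2:ℝ) • K) = 1 := by
    have := B2c_exp_mul_neg (-((t/2:ℝ) • K))
    rwa [neg_neg] at this
  have e3 : exp h * exp (-h) = 1 := B2c_exp_mul_neg _
  have e4 : exp (-h) * exp h = 1 := by
    have := B2c_exp_mul_neg (-h)
    rwa [neg_neg] at this
  have hinv1 : G t * Gi t = 1 := by
    simp only [hG, hGi]
    calc exp ((t/2:ℝ) • K) * exp h * exp ((t/2:ℝ) • K) *
          (exp (-((t/2:ℝ) • K)) * exp (-h) * exp (-((t/2:ℝ) • K)))
        = exp ((t/2:ℝ) • K) * exp h * (exp ((t/2:ℝ) • K) * exp (-((t/2:ℝ) • K))) *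
          exp (-h) * exp (-((t/2:ℝ) • K)) := by simp only [mul_assoc]
      _ = exp ((t/2:ℝ) • K) * (exp h * exp (-h)) * exp (-((t/2:ℝ) • K)) := by
          rw [e1, mul_one]; simp only [mul_assoc]
      _ = 1 := by rw [e3, mul_one, e1]
  have hinv2 : Gi t * G t = 1 := by
    simp only [hG, hGi]
    calc exp (-((t/2:ℝ) • K)) * exp (-h) * exp (-((t/2:ℝ) • K)) *
          (exp ((t/2:ℝ) • K) * exp h * exp ((t/2:ℝ) • K))
        = exp (-((t/2:ℝ) • K)) * exp (-h) * (exp (-((t/2:ℝ) • K)) * exp ((t/2:ℝ) • K)) *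
          exp h * exp ((t/2:ℝ) • K) := by simp only [mul_assoc]
      _ = exp (-((t/2:ℝ) • K)) * (exp (-h) * exp h) * exp ((t/2:ℝ) • K) := by
          rw [e2, mul_one]; simp only [mul_assoc]
      _ = 1 := by rw [e4, mul_one, e2]
  set U : Aˣ := ⟨G t, Gi t, hinv1, hinv2⟩ with hU
  intro x hx
  rcases subsingleton_or_nontrivial A with hA | hA
  · exfalso
    exact hx (isUnit_of_subsingleton _)
  have hx0 : 0 ≤ x := by
    have hpos : G t = star (exp ((1/2:ℝ) • h) * exp ((t/2:ℝ) • K)) *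
        (exp ((1/2:ℝ) • h) * exp ((t/2:ℝ) • K)) := by
      have hh2 : IsSelfAdjoint ((1/2:ℝ) • h) := (IsSelfAdjoint.all (1/2:ℝ)).smul hh
      rw [star_mul, (B2c_sa _ (hsmul t)).star_eq, (B2c_sa _ hh2).star_eq]
      have : exp h = exp ((1/2:ℝ) • h) * exp ((1/2:ℝ) • h) := by
        let _ : NormedAlgebra ℚ A := NormedAlgebra.restrictScalars ℚ ℂ A
        rw [← NormedSpace.exp_add_of_commute (Commute.refl _), ← add_smul]
        norm_num
      simp only [hG]
      rw [this]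
      simp only [mul_assoc]
    have hx' : x ∈ spectrum ℝ (G t) := hx
    rw [hpos] at hx'
    exact spectrum_star_mul_self_nonneg x hx'
  have hxne : x ≠ 0 := by
    rintro rfl
    exact spectrum.zero_mem_iff ℝ |>.1 hx U.isUnit
  have hxb : x ≤ b := by
    have h1 := spectrum.norm_le_norm_of_mem hx
    have h2 := hb1 t htI
    rw [Real.norm_of_nonneg hx0] at h1
    exact (h1.trans h2).trans (le_max_left _ _)
  have hxi : x⁻¹ ∈ spectrum ℝ (Gi t) := by
    exact (spectrum.inv_mem_iff (r := Units.mk0 x hxne) (a := U)).1 hx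
  have hxib : x⁻¹ ≤ b := by
    have h1 := spectrum.norm_le_norm_of_mem hxi
    have h2 := hb2 t htI
    rw [Real.norm_of_nonneg (inv_nonneg.2 hx0)] at h1
    exact (h1.trans h2).trans ((le_max_left _ _).trans (le_max_right _ _))
  refine ⟨?_, hxb⟩
  have hxpos : 0 < x := lt_of_le_of_ne hx0 (Ne.symm hxne)
  rw [div_le_iff₀ hb0]
  have : x⁻¹ * x ≤ b * x := mul_le_mul_of_nonneg_right hxib hx0
  rw [inv_mul_cancel₀ hxne] at this
  linarith

end Pool.Agent.H712R5.BO
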