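import Pool.Agent.H712R5.BO.Stmts

/-! Task B3 (helper133): the upper bound `ff K h ≤ n2 h + n2 K`. -/

set_option autoImplicit false
open scoped ComplexConjugate InnerProductSpace Topology
open Filter MeasureTheory NormedSpace

namespace Pool.Agent.H712R5.BO

/-- the path -/
noncomputable def B3_g {A : Type} [CStarAlgebra A] (h K : A) (t : ℝ) : A :=
  exp ((t/2:ℝ) • K) * exp h * exp ((t/2:ℝ) • K)

theorem B3_deriv {A : Type} [CStarAlgebra A] (h K : A) (t : ℝ) :
    HasDerivAt (B3_g h K) ((1/2:ℝ) • (K * B3_g h K t + B3_g h K t * K)) t := by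
  have h2 : HasDerivAt (fun s : ℝ => s / 2) (1/2) t := (hasDerivAt_id t).div_const 2
  have h1 : HasDerivAt (fun s : ℝ => exp ((s/2:ℝ) • K)) ((1/2:ℝ) • (K * exp ((t/2:ℝ) • K))) t := by
    have h0 := HasDerivAt.scomp (g₁ := fun u : ℝ => exp (u • K)) t
      (hasDerivAt_exp_smul_const' (𝕂 := ℝ) K (t/2)) h2
    exact h0
  have h1' : HasDerivAt (fun s : ℝ => exp ((s/2:ℝ) • K)) ((1/2:ℝ) • (exp ((t/2:ℝ) • K) * K)) t := by
    have h0 := HasDerivAt.scomp (g₁ := fun u : ℝ => exp (u • K)) t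
      (hasDerivAt_exp_smul_const (𝕂 := ℝ) K (t/2)) h2
    exact h0
  have h3 := (h1.mul_const (exp h)).mul h1'
  have e : (1/2:ℝ) • (K * exp ((t/2:ℝ) • K)) * exp h * exp ((t/2:ℝ) • K) +
      exp ((t/2:ℝ) • K) * exp h * ((1/2:ℝ) • (exp ((t/2:ℝ) • K) * K)) =
      (1/2:ℝ) • (K * B3_g h K t + B3_g h K t * K) := by
    unfold B3_g
    simp only [smul_mul_assoc, mul_smul_comm, smul_add, mul_assoc]
  rw [← e]
  exact h3

theorem B3_cont {A : Type} [CStarAlgebra A] (h K : A) : Continuous (B3_g h K) :=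
  continuous_iff_continuousAt.mpr fun t => (B3_deriv h K t).continuousAt

theorem B3_contlog {a b : ℝ} (ha : 0 < a) {s : Set ℝ} (hs : s ⊆ Set.Icc a b) :
    ContinuousOn Real.log s := by
  refine Real.continuousOn_log.mono fun x hx => ?_
  have := (hs hx).1
  exact (ha.trans_le this).ne'

theorem B3_continv {a b : ℝ} (ha : 0 < a) {s : Set ℝ} (hs : s ⊆ Set.Icc a b) :
    ContinuousOn (fun x : ℝ => 2 * Real.log x / x) s := by
  refine ContinuousOn.div ((continuousOn_const).mul (B3_contlog ha hs)) continuousOn_id fun x hx => ?_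
  have := (hs hx).1
  exact (ha.trans_le this).ne'

/-- `cfc (log²) = log * log` -/
theorem B3_sq {A : Type} [CStarAlgebra A] (g : A) {a b : ℝ} (ha : 0 < a)
    (hs : spectrum ℝ g ⊆ Set.Icc a b) :
    cfc (fun x : ℝ => Real.log x ^ 2) g = star (CFC.log g) * CFC.log g := by
  have hsa : IsSelfAdjoint (CFC.log g) := cfc_predicate _ _
  rw [hsa.star_eq]
  unfold CFC.log
  rw [← cfc_mul Real.log Real.log g (B3_contlog ha hs) (B3_contlog ha hs)]
  congr 1
  funext x
  ring

/-- the trace computation -/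
theorem B3_tr {A : Type} [CStarAlgebra A] (τ : A →L[ℂ] ℂ) (hτ : TrSt τ) (g K : A)
    (hg : IsSelfAdjoint g) {a b : ℝ} (ha : 0 < a) (hs : spectrum ℝ g ⊆ Set.Icc a b) :
    τ (cfc (fun x : ℝ => 2 * Real.log x / x) g * ((1/2:ℝ) • (K * g + g * K))) =
      2 * τ (CFC.log g * K) := by
  have e1 : cfc (fun x : ℝ => 2 * Real.log x / x) g * g = (2:ℝ) • CFC.log g := by
    calc cfc (fun x : ℝ => 2 * Real.log x / x) g * g
        = cfc (fun x : ℝ => 2 * Real.log x / x) g * cfc (fun x : ℝ => x) g := by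
          rw [cfc_id' ℝ g]
      _ = cfc (fun x : ℝ => 2 * Real.log x / x * x) g :=
          (cfc_mul (fun x : ℝ => 2 * Real.log x / x) (fun x : ℝ => x) g (B3_continv ha hs)
            continuousOn_id).symm
      _ = cfc (fun x : ℝ => 2 * Real.log x) g := by
          refine cfc_congr fun x hx => ?_
          have := (hs hx).1
          have hx0 : x ≠ 0 := (ha.trans_le this).ne'
          field_simp
      _ = (2:ℝ) • CFC.log g := cfc_const_mul (2:ℝ) Real.log g (B3_contlog ha hs)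
  have e2 : g * cfc (fun x : ℝ => 2 * Real.log x / x) g = (2:ℝ) • CFC.log g := by
    rw [← e1]
    have := (cfc_commute_cfc (fun x : ℝ => 2 * Real.log x / x) (fun x : ℝ => x) g).eq
    rw [cfc_id' ℝ g] at this
    exact this.symm
  have e3 : ((1/2:ℝ) • (K * g + g * K) : A) = (1/2:ℂ) • (K * g + g * K) := by
    rw [← Complex.coe_smul]
    norm_num
  rw [e3, mul_smul_comm, map_smul, mul_add, map_add, ← mul_assoc, ← mul_assoc, e1,
    hτ.tr (cfc (fun x : ℝ => 2 * Real.log x / x) g * K) g, ← mul_assoc, e2]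
  have e4 : ((2:ℝ) • CFC.log g * K : A) = (2:ℂ) • (CFC.log g * K) := by
    rw [smul_mul_assoc, ← Complex.coe_smul]
    norm_num
  rw [e4, map_smul, smul_eq_mul, smul_eq_mul]
  ring

theorem t_B3 (h1 : P_B1) (h2 : P_B2) (h3 : P_B2c) : P_B3 := by
  intro A _ τ hτ h K hh hK
  obtain ⟨-, -, -, -, -, -, hCS, -, hnn, -, hsq⟩ := h1 A τ hτ
  obtain ⟨a, b, ha, hab⟩ := h3 A h K hh hK
  have hab' : ∀ t ∈ Set.Ioo (-2:ℝ) 2, IsSelfAdjoint (B3_g h K t) ∧
      spectrum ℝ (B3_g h K t) ⊆ Set.Icc a b := hab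
  have hgc : Continuous fun t => (1/2:ℝ) • (K * B3_g h K t + B3_g h K t * K) :=
    (((continuous_const.mul (B3_cont h K)).add ((B3_cont h K).mul continuous_const)).const_smul _)
  obtain ⟨R, hR⟩ := (isCompact_Icc (a := (-2:ℝ)) (b := 2)).exists_bound_of_continuousOn
    hgc.continuousOn
  have hf : ∀ x : ℝ, 0 < x → HasDerivAt (fun x : ℝ => Real.log x ^ 2) (2 * Real.log x / x) x := by
    intro x hx
    have h7 := (Real.hasDerivAt_log hx.ne').pow 2
    have e7 : ((2:ℕ):ℝ) * Real.log x ^ (2 - 1) * x⁻¹ = 2 * Real.log x / x := by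
      rw [div_eq_mul_inv]
      norm_num
    rw [e7] at h7
    exact h7
  have hf' : ContinuousOn (fun x : ℝ => 2 * Real.log x / x) (Set.Ioi 0) := by
    refine ContinuousOn.div (continuousOn_const.mul (Real.continuousOn_log.mono fun x hx => ?_))
      continuousOn_id fun x hx => ?_
    · exact (ne_of_gt hx)
    · exact (ne_of_gt hx)
  have hder := h2 A τ hτ (B3_g h K) (fun t => (1/2:ℝ) • (K * B3_g h K t + B3_g h K t * K))
    (-2) 2 a b ha (fun t _ => B3_deriv h K t) hgc.continuousOn hab'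
    ⟨R, fun t ht => hR t (Set.Ioo_subset_Icc_self ht)⟩ (fun x : ℝ => Real.log x ^ 2)
    (fun x : ℝ => 2 * Real.log x / x) hf hf'
  -- the real function
  have hder2 : ∀ t ∈ Set.Ioo (-2:ℝ) 2, HasDerivAt
      (fun s => (τ (cfc (fun x : ℝ => Real.log x ^ 2) (B3_g h K s))).re)
      (2 * (τ (CFC.log (B3_g h K t) * K)).re) t := by
    intro t ht
    have e := hder t ht
    rw [B3_tr τ hτ (B3_g h K t) K (hab' t ht).1 ha (hab' t ht).2] at e
    have e5 := Complex.reCLM.hasFDerivAt.comp_hasDerivAt t e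
    have e6 : Complex.reCLM (2 * τ (CFC.log (B3_g h K t) * K)) =
        2 * (τ (CFC.log (B3_g h K t) * K)).re := by
      simp
    rw [e6] at e5
    exact e5
  have hval : ∀ t ∈ Set.Ioo (-2:ℝ) 2,
      (τ (cfc (fun x : ℝ => Real.log x ^ 2) (B3_g h K t))).re =
        (n2 τ (CFC.log (B3_g h K t))) ^ 2 := by
    intro t ht
    rw [B3_sq _ ha (hab' t ht).2, hsq]
  have key : ∀ ε > (0:ℝ), ff τ K h ≤ n2 τ h + n2 τ K + Real.sqrt ε := by
    intro ε hε
    have hmem : ∀ t ∈ Set.Icc (0:ℝ) 1, t ∈ Set.Ioo (-2:ℝ) 2 := fun t ht =>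
      ⟨by linarith [ht.1], by linarith [ht.2]⟩
    have hpos : ∀ t ∈ Set.Icc (0:ℝ) 1,
        0 < (τ (cfc (fun x : ℝ => Real.log x ^ 2) (B3_g h K t))).re + ε := by
      intro t ht
      rw [hval t (hmem t ht)]
      positivity
    have hmv := norm_image_sub_le_of_norm_deriv_le_segment_01'
      (f := fun t => Real.sqrt ((τ (cfc (fun x : ℝ => Real.log x ^ 2) (B3_g h K t))).re + ε))
      (f' := fun t => (2 * (τ (CFC.log (B3_g h K t) * K)).re) /
        (2 * Real.sqrt ((τ (cfc (fun x : ℝ => Real.log x ^ 2) (B3_g h K t))).re + ε)))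
      (C := n2 τ K) (fun t ht => (((hder2 t (hmem t ht)).add_const ε).sqrt
        (hpos t ht).ne').hasDerivWithinAt) (by
        intro t ht
        have ht' : t ∈ Set.Icc (0:ℝ) 1 := Set.Ico_subset_Icc_self ht
        have hs0 := Real.sqrt_pos.mpr (hpos t ht')
        rw [Real.norm_eq_abs, abs_div, abs_of_pos (by positivity : (0:ℝ) < 2 * Real.sqrt _),
          div_le_iff₀ (by positivity), abs_mul, abs_two]
        have c1 : |(τ (CFC.log (B3_g h K t) * K)).re| ≤
            n2 τ (CFC.log (B3_g h K t)) * n2 τ K := (Complex.abs_re_le_norm _).trans (hCS _ _)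
        have c2 : n2 τ (CFC.log (B3_g h K t)) ≤
            Real.sqrt ((τ (cfc (fun x : ℝ => Real.log x ^ 2) (B3_g h K t))).re + ε) := by
          rw [hval t (hmem t ht')]
          refine Real.le_sqrt_of_sq_le ?_
          linarith
        have c3 := mul_le_mul_of_nonneg_right c2 (hnn K)
        nlinarith)
    have h0 : B3_g h K 0 = exp h := by
      unfold B3_g
      simp
    have h1' : B3_g h K 1 = exp ((1/2:ℝ) • K) * exp h * exp ((1/2:ℝ) • K) := rfl
    have v0 := hval 0 (by constructor <;> norm_num)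
    have v1 := hval 1 (by constructor <;> norm_num)
    rw [v0, v1, h0, CFC.log_exp h hh, Real.norm_eq_abs] at hmv
    have m1 := (le_abs_self _).trans hmv
    have m2 : ff τ K h ≤ Real.sqrt ((n2 τ (CFC.log (B3_g h K 1))) ^ 2 + ε) := by
      refine Real.le_sqrt_of_sq_le ?_
      unfold ff
      rw [← h1']
      linarith
    have m3 : Real.sqrt ((n2 τ h) ^ 2 + ε) ≤ n2 τ h + Real.sqrt ε := by
      rw [Real.sqrt_le_left (by have := hnn h; positivity)]
      have := hnn h
      have s1 := Real.sq_sqrt hε.le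
      have s2 := Real.sqrt_nonneg ε
      nlinarith
    linarith
  by_contra hcon
  push Not at hcon
  obtain ⟨d, hd⟩ : ∃ d, d = (ff τ K h - (n2 τ h + n2 τ K)) / 2 := ⟨_, rfl⟩
  have hdpos : 0 < d := by rw [hd]; linarith
  have := key (d ^ 2) (by positivity)
  rw [Real.sqrt_sq hdpos.le] at this
  linarith

end Pool.Agent.H712R5.BO
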