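import Pool.Agent.H712R5.BO.Stmts

set_option autoImplicit false
open scoped ComplexConjugate InnerProductSpace Topology
open Filter MeasureTheory NormedSpace

namespace Pool.Agent.H712R5.BO

theorem t_B4 (h1 : P_B1) (h2 : P_B3) (h3 : P_B4u) : P_B4 := by
  intro A _ τ hτ S R hS hR
  let _ : NormedAlgebra ℚ A := NormedAlgebra.restrictScalars ℚ ℂ A
  obtain ⟨hsa, hexp, -, -, huni, -, -⟩ := h3 A τ hτ
  set K : A := Lg R with hK
  have hKsa : IsSelfAdjoint K := hsa R
  have hKe : exp K = star R * R := hexp R hR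
  set E : A := exp ((1/2:ℝ) • K) with hE
  set E' : A := exp (-((1/2:ℝ) • K)) with hE'
  have c1 : E * E' = 1 := by
    rw [hE, hE', ← exp_add_of_commute (Commute.neg_right (Commute.refl _)), add_neg_cancel, exp_zero]
  have c2 : E' * E = 1 := by
    rw [hE, hE', ← exp_add_of_commute (Commute.neg_left (Commute.refl _)), neg_add_cancel, exp_zero]
  have c3 : E * E = exp K := by
    rw [hE, ← exp_add_of_commute (Commute.refl _), ← add_smul]
    norm_num
  have hsaK2 : IsSelfAdjoint ((1/2:ℝ) • K) := by
    rw [IsSelfAdjoint, star_smul, hKsa.star_eq, star_trivial]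
  have hEs : star E = E := by
    rw [hE, star_exp, hsaK2.star_eq]
  have hE's : star E' = E' := by
    rw [hE', star_exp, star_neg, hsaK2.star_eq]
  set V : A := R * E' with hV
  have v1 : star V * V = 1 := by
    rw [hV, star_mul, hE's]
    calc E' * star R * (R * E') = E' * (star R * R) * E' := by simp only [mul_assoc]
      _ = E' * (E * E) * E' := by rw [← hKe, c3]
      _ = (E' * E) * (E * E') := by simp only [mul_assoc]
      _ = 1 := by rw [c1, c2, one_mul]
  have hE'u : IsUnit E' := ⟨⟨E', E, c2, c1⟩, rfl⟩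
  have hVu : IsUnit V := hR.mul hE'u
  have v2 : V * star V = 1 := by
    obtain ⟨u, hu⟩ := hVu
    have : star V = (↑u⁻¹ : A) := by
      have h5 : star V * V * (↑u⁻¹ : A) = (↑u⁻¹ : A) := by rw [v1, one_mul]
      rw [mul_assoc, ← hu, Units.mul_inv, mul_one] at h5
      rw [← hu]; exact h5
    rw [this, ← hu, Units.mul_inv]
  have hVm : V ∈ unitary A := ⟨v1, v2⟩
  have hRV : R = V * E := by
    rw [hV, mul_assoc, c2, mul_one]
  set h : A := Lg (S * V) with hh
  have hhsa : IsSelfAdjoint h := hsa _
  have hhe : exp h = star (S * V) * (S * V) := hexp _ (hS.mul hVu)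
  have key : star (S * R) * (S * R) = E * exp h * E := by
    have e0 : S * R = S * V * E := by rw [mul_assoc, ← hRV]
    rw [hhe, e0, star_mul, hEs]
    simp only [mul_assoc]
  have e1 : NN τ (S * R) = ff τ K h := by
    unfold NN Lg ff
    rw [key]
  have e2 : NN τ S = n2 τ h := by
    have h6 := huni 1 (one_mem _) V hVm S
    rw [one_mul] at h6
    rw [← h6]; rfl
  have e3 : NN τ R = n2 τ K := rfl
  rw [e1, e2, e3]
  exact h2 A τ hτ h K hhsa hKsa

end Pool.Agent.H712R5.BO
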