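import Pool.Agent.H712R5.BO.Stmts

/-!
B4u: facts on `Lg` and `NN` (helper741, for helper712).
-/

set_option autoImplicit false
open scoped ComplexConjugate InnerProductSpace Topology
open Filter MeasureTheory NormedSpace

namespace Pool.Agent.H712R5.BO

theorem t_B4u (h1 : P_B1) (h2 : P_B4v) : P_B4u := by
  intro A _ τ hτ
  obtain ⟨v1, v2, v3, v4, v5⟩ := h2 A
  obtain ⟨b1, b2, b3, b4, b5, b6, b7, b8, b9, b10, b11⟩ := h1 A τ hτ
  refine ⟨v1, v2, v3, ?_, ?_, ?_, v5⟩
  · intro k hk
    unfold NN
    rw [v3 k hk, b4]
    norm_num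
  · intro u hu v hv S
    unfold NN
    have e : Lg (u * S * v) = Lg (S * v) := by
      unfold Lg
      congr 1
      have hu1 : star u * u = 1 := (Unitary.mem_iff.mp hu).1
      calc star (u * S * v) * (u * S * v)
          = star v * (star S * ((star u * u) * (S * v))) := by
            simp only [star_mul, mul_assoc]
        _ = star (S * v) * (S * v) := by
            rw [hu1, one_mul]
            simp only [star_mul, mul_assoc]
    rw [e, v4 v hv S]
    exact b8 (star v) (Unitary.star_mem hv) v hv (Lg S)
  · intro u hu S _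
    exact v4 u hu S

end Pool.Agent.H712R5.BO
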