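import Pool.Agent.H712R5.BO.Stmts

set_option autoImplicit false
open scoped ComplexConjugate InnerProductSpace Topology
open Filter MeasureTheory NormedSpace

namespace Pool.Agent.H712R5.BO

theorem t_B5 (_ : P_B1) (h2 : P_B4) (h3 : P_B4u) : P_B5 := by
  intro A _ τ hτ k D hk
  letI : NormedAlgebra ℚ A := NormedAlgebra.restrictScalars ℚ ℂ A
  obtain ⟨-, -, -, u4, -, -, -⟩ := h3 A τ hτ
  have hB4 := h2 A τ hτ
  set g : A := (↑D⁻¹ : A) * exp k * (D : A) with hg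
  have hgu : IsUnit g := (D⁻¹.isUnit.mul (isUnit_exp k)).mul D.isUnit
  have hpow : ∀ n : ℕ, g ^ n = (↑D⁻¹ : A) * exp k ^ n * (D : A) := by
    intro n
    induction n with
    | zero => simp
    | succ n ih =>
      rw [pow_succ, ih, hg, pow_succ]
      calc (↑D⁻¹ : A) * exp k ^ n * (D : A) * ((↑D⁻¹ : A) * exp k * (D : A))
          = (↑D⁻¹ : A) * exp k ^ n * ((D : A) * (↑D⁻¹ : A)) * exp k * (D : A) := by
            simp only [mul_assoc]
        _ = _ := by rw [Units.mul_inv, mul_one]; simp only [mul_assoc]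
  have hNg : ∀ n : ℕ, NN τ (g ^ (n + 1)) ≤ (n + 1 : ℕ) * NN τ g := by
    intro n
    induction n with
    | zero => simp
    | succ n ih =>
      rw [pow_succ]
      have := hB4 (g ^ (n + 1)) g (hgu.pow _) hgu
      push_cast at ih ⊢
      linarith
  have hq : ∀ n : ℕ, NN τ (exp k ^ n) = n * (2 * n2 τ k) := by
    intro n
    rw [← exp_nsmul]
    have hkn : IsSelfAdjoint (n • k) := by
      have : star (n • k) = n • k := by rw [star_nsmul, hk.star_eq]
      exact this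
    rw [u4 _ hkn]
    have hn : n • k = (n : ℝ) • k := (Nat.cast_smul_eq_nsmul ℝ n k).symm
    have hB1 := (‹P_B1› A τ hτ).2.2.2.1 (n : ℝ) k
    rw [hn, hB1, abs_of_nonneg (Nat.cast_nonneg n)]
    ring
  have hmain : ∀ n : ℕ, ((n + 1 : ℕ) : ℝ) * (2 * n2 τ k) ≤
      NN τ (D : A) + ((n + 1 : ℕ) * NN τ g + NN τ (↑D⁻¹ : A)) := by
    intro n
    rw [← hq]
    have e : exp k ^ (n + 1) = (D : A) * (g ^ (n + 1) * (↑D⁻¹ : A)) := by
      rw [hpow]
      calc exp k ^ (n + 1) = 1 * exp k ^ (n + 1) * 1 := by rw [one_mul, mul_one]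
        _ = ((D : A) * (↑D⁻¹ : A)) * exp k ^ (n + 1) * ((D : A) * (↑D⁻¹ : A)) := by
          rw [Units.mul_inv]
        _ = _ := by simp only [mul_assoc]
    rw [e]
    have h1 := hB4 (D : A) (g ^ (n + 1) * (↑D⁻¹ : A)) D.isUnit ((hgu.pow _).mul D⁻¹.isUnit)
    have h2' := hB4 (g ^ (n + 1)) (↑D⁻¹ : A) (hgu.pow _) D⁻¹.isUnit
    have h3' := hNg n
    linarith
  by_contra hlt
  push Not at hlt
  set d : ℝ := 2 * n2 τ k - NN τ g with hd
  have hd0 : 0 < d := by rw [hd]; linarith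
  obtain ⟨n, hn⟩ := exists_nat_gt ((NN τ (D : A) + NN τ (↑D⁻¹ : A)) / d)
  rw [div_lt_iff₀ hd0] at hn
  have h4 := hmain n
  have h5 : ((n + 1 : ℕ) : ℝ) * d ≤ NN τ (D : A) + NN τ (↑D⁻¹ : A) := by
    rw [hd]
    linarith [mul_sub ((n + 1 : ℕ) : ℝ) (2 * n2 τ k) (NN τ g)]
  have h6 : (n : ℝ) * d ≤ ((n + 1 : ℕ) : ℝ) * d := by
    refine mul_le_mul_of_nonneg_right ?_ hd0.le
    push_cast
    linarith
  linarith

end Pool.Agent.H712R5.BO
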