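import Pool.Agent.H712R5.BO.Stmts

set_option autoImplicit false
open scoped ComplexConjugate InnerProductSpace Topology
open Filter MeasureTheory NormedSpace

namespace Pool.Agent.H712R5.BO

theorem t_B6 (_ : P_B1) (h2 : P_B4u) (h3 : P_B5) : P_B6 := by
  intro A _ τ hτ a b ha hb
  letI : NormedAlgebra ℚ A := NormedAlgebra.restrictScalars ℚ ℂ A
  obtain ⟨u1, u2, -, -, -, -, -⟩ := h2 A τ hτ
  have hadd : ∀ (s t : ℝ) (x : A), exp (s • x) * exp (t • x) = exp ((s + t) • x) := by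
    intro s t x
    rw [add_smul, exp_add_of_commute]
    exact ((Commute.refl x).smul_left s).smul_right t
  have hsa : ∀ (s : ℝ) (x : A), IsSelfAdjoint x → star (exp (s • x)) = exp (s • x) := by
    intro s x hx
    rw [star_exp]
    congr 1
    exact ((IsSelfAdjoint.all s).smul hx)
  -- the unit
  let D : Aˣ := ⟨exp ((1/4:ℝ) • a), exp ((-(1/4):ℝ) • a), by rw [hadd]; simp, by
    rw [hadd]; simp⟩
  set S : A := exp ((1/4:ℝ) • b) * exp ((1/4:ℝ) • a) with hS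
  have hSu : IsUnit S := (isUnit_exp _).mul (isUnit_exp _)
  have hq : star S * S = exp ((1/4:ℝ) • a) * exp ((1/2:ℝ) • b) * exp ((1/4:ℝ) • a) := by
    rw [hS, star_mul, hsa _ a ha, hsa _ b hb]
    have : exp ((1/2:ℝ) • b) = exp ((1/4:ℝ) • b) * exp ((1/4:ℝ) • b) := by
      rw [hadd]; norm_num
    rw [this]
    simp only [mul_assoc]
  have h5 := h3 A τ hτ (Lg S) D (u1 S)
  have hexp : exp (Lg S) = star S * S := u2 S hSu
  have hg : ((↑D⁻¹ : A) * exp (Lg S) * (D : A)) = exp ((1/2:ℝ) • b) * exp ((1/2:ℝ) • a) := by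
    rw [hexp, hq]
    show exp ((-(1/4):ℝ) • a) * (exp ((1/4:ℝ) • a) * exp ((1/2:ℝ) • b) * exp ((1/4:ℝ) • a)) *
      exp ((1/4:ℝ) • a) = _
    have e1 : exp ((-(1/4):ℝ) • a) * exp ((1/4:ℝ) • a) = 1 := by rw [hadd]; simp
    have e2 : exp ((1/4:ℝ) • a) * exp ((1/4:ℝ) • a) = exp ((1/2:ℝ) • a) := by
      rw [hadd]; norm_num
    calc exp ((-(1/4):ℝ) • a) * (exp ((1/4:ℝ) • a) * exp ((1/2:ℝ) • b) * exp ((1/4:ℝ) • a)) *
          exp ((1/4:ℝ) • a)
        = (exp ((-(1/4):ℝ) • a) * exp ((1/4:ℝ) • a)) * exp ((1/2:ℝ) • b) *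
          (exp ((1/4:ℝ) • a) * exp ((1/4:ℝ) • a)) := by simp only [mul_assoc]
      _ = _ := by rw [e1, e2, one_mul]
  rw [hg] at h5
  have e1 : NN τ (exp ((1/2:ℝ) • b) * exp ((1/2:ℝ) • a)) = ff τ a b := by
    unfold NN ff Lg
    rw [star_mul, hsa _ a ha, hsa _ b hb]
    have : exp b = exp ((1/2:ℝ) • b) * exp ((1/2:ℝ) • b) := by
      rw [hadd]; norm_num
    rw [this]
    simp only [mul_assoc]
  have e2 : n2 τ (Lg S) = ff τ ((1/2:ℝ) • a) ((1/2:ℝ) • b) := by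
    unfold ff Lg
    rw [hq, smul_smul]
    norm_num
  rw [e1, e2] at h5
  exact h5

end Pool.Agent.H712R5.BO
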