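import Pool.Agent.H712R5.BO.Stmts

/-! B7: local expansion. -/

set_option autoImplicit false
open scoped ComplexConjugate InnerProductSpace Topology Pointwise
open Filter MeasureTheory NormedSpace

namespace Pool.Agent.H712R5.BO

theorem B7_real (t : ℝ) (ht : |t - 1| ≤ 1 / 2) : |Real.log t - (t - 1)| ≤ 2 * (t - 1) ^ 2 := by
  have h1 := abs_le.mp ht
  have htpos : 0 < t := by linarith [h1.1]
  have hup : Real.log t ≤ t - 1 := Real.log_le_sub_one_of_pos htpos
  have hlo : 1 - t⁻¹ ≤ Real.log t := Real.one_sub_inv_le_log_of_pos htpos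
  rw [abs_le]
  constructor
  · have h2 : (t - 1) - (1 - t⁻¹) = (t - 1) ^ 2 / t := by
      field_simp
    have h3 : (t - 1) ^ 2 / t ≤ 2 * (t - 1) ^ 2 := by
      rw [div_le_iff₀ htpos]
      nlinarith [sq_nonneg (t - 1), h1.1]
    linarith
  · nlinarith [sq_nonneg (t - 1)]

theorem B7_log (A : Type) [CStarAlgebra A] (g : A) (hg : IsSelfAdjoint g) (hn : ‖g - 1‖ ≤ 1 / 2) :
    ‖CFC.log g - (g - 1)‖ ≤ 2 * ‖g - 1‖ ^ 2 := by
  have hspec : ∀ t ∈ spectrum ℝ g, |t - 1| ≤ ‖g - 1‖ := by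
    intro t ht
    have h1 : t - 1 ∈ spectrum ℝ (g - 1) := by
      have := (spectrum.sub_singleton_eq (R := ℝ) g (1 : ℝ))
      have h2 : t - 1 ∈ spectrum ℝ g - {(1:ℝ)} := Set.sub_mem_sub ht (Set.mem_singleton _)
      rw [this] at h2
      simpa using h2
    have h3 := spectrum.norm_le_norm_mul_of_mem h1
    have h4 : ‖t - 1‖ ≤ ‖g - 1‖ := by
      rcases subsingleton_or_nontrivial A with hA | hA
      · exfalso
        have : spectrum ℝ g = ∅ := spectrum.of_subsingleton g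
        rw [this] at ht
        exact ht
      · exact spectrum.norm_le_norm_of_mem h1
    simpa [Real.norm_eq_abs] using h4
  have hpos : ∀ t ∈ spectrum ℝ g, t ≠ 0 := by
    intro t ht h0
    have := (hspec t ht).trans hn
    rw [h0] at this
    norm_num at this
  have hc1 : ContinuousOn Real.log (spectrum ℝ g) :=
    Real.continuousOn_log.mono (fun t ht => by simpa using hpos t ht)
  have e1 : CFC.log g - (g - 1) = cfc (fun t : ℝ => Real.log t - (t - 1)) g := by
    rw [cfc_sub (a := g) (f := Real.log) (g := fun t : ℝ => t - 1) hc1 (by fun_prop)]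
    rw [cfc_sub (a := g) (f := fun t : ℝ => t) (g := fun _ : ℝ => (1:ℝ)) (by fun_prop) (by fun_prop)]
    rw [cfc_id' ℝ g, cfc_const_one ℝ g]
    rfl
  rw [e1]
  refine norm_cfc_le (by positivity) (fun t ht => ?_)
  rw [Real.norm_eq_abs]
  refine (B7_real t ((hspec t ht).trans hn)).trans ?_
  have := hspec t ht
  have h5 : (t - 1) ^ 2 ≤ ‖g - 1‖ ^ 2 := by
    rw [← sq_abs]
    exact pow_le_pow_left₀ (abs_nonneg _) this 2
  linarith

theorem t_B7 (h1 : P_B1) : P_B7 := by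
  intro A _ τ hτ a b ha hb
  obtain ⟨-, -, -, hsm, -, -, -, -, -, hcont, -⟩ := h1 A τ hτ
  set G : ℝ → A := fun s => exp (s • ((1/2:ℝ) • a)) * exp (s • b) * exp (s • ((1/2:ℝ) • a)) with hG
  have hG0 : G 0 = 1 := by simp [hG]
  have hGd : HasDerivAt G (a + b) 0 := by
    have e1 := hasDerivAt_exp_smul_const (𝕂 := ℝ) ((1/2:ℝ) • a) (0:ℝ)
    have e2 := hasDerivAt_exp_smul_const (𝕂 := ℝ) b (0:ℝ)
    have e3 := (e1.mul e2).mul e1
    refine e3.congr_deriv ?_
    simp only [Pi.mul_apply, zero_smul, exp_zero, one_mul, mul_one]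
    module
  have hGsa : ∀ s, IsSelfAdjoint (G s) := by
    intro s
    have hx : IsSelfAdjoint (s • ((1/2:ℝ) • a)) := (IsSelfAdjoint.all s).smul ((IsSelfAdjoint.all (1/2:ℝ)).smul ha)
    have hy : IsSelfAdjoint (s • b) := (IsSelfAdjoint.all s).smul hb
    have h1 : star (exp (s • ((1/2:ℝ) • a))) = exp (s • ((1/2:ℝ) • a)) := by
      rw [star_exp, hx.star_eq]
    have h2 : star (exp (s • b)) = exp (s • b) := by
      rw [star_exp, hy.star_eq]
    show star (G s) = G s
    simp only [hG, star_mul, h1, h2, mul_assoc]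
  -- the sequence
  set s : ℕ → ℝ := fun n => (1/2:ℝ) ^ n with hs
  have hspos : ∀ n, 0 < s n := fun n => by positivity
  have hs0 : Tendsto s atTop (𝓝 0) :=
    tendsto_pow_atTop_nhds_zero_of_lt_one (by norm_num) (by norm_num)
  have hsne : Tendsto s atTop (𝓝[≠] 0) :=
    tendsto_nhdsWithin_iff.mpr ⟨hs0, Eventually.of_forall (fun n => (hspos n).ne')⟩
  have hslope : Tendsto (fun n => (s n)⁻¹ • (G (s n) - 1)) atTop (𝓝 (a + b)) := by
    have h := (hasDerivAt_iff_tendsto_slope_zero.mp hGd).comp hsne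
    simpa [Function.comp_def, hG0] using h
  have hGto : Tendsto (fun n => G (s n) - 1) atTop (𝓝 0) := by
    have h := (hGd.continuousAt.tendsto.comp hs0).sub_const (1:A)
    simpa [Function.comp_def, hG0] using h
  have hlog : Tendsto (fun n => (s n)⁻¹ • (CFC.log (G (s n)) - (G (s n) - 1))) atTop (𝓝 0) := by
    rw [tendsto_zero_iff_norm_tendsto_zero]
    have hb1 : Tendsto (fun n => 2 * (‖(s n)⁻¹ • (G (s n) - 1)‖ * ‖G (s n) - 1‖)) atTop (𝓝 0) := by
      have := (hslope.norm.mul (tendsto_zero_iff_norm_tendsto_zero.mp hGto)).const_mul 2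
      simpa using this
    refine squeeze_zero' (Eventually.of_forall (fun n => norm_nonneg _)) ?_ hb1
    have hev : ∀ᶠ n in atTop, ‖G (s n) - 1‖ ≤ 1/2 := by
      have := (tendsto_zero_iff_norm_tendsto_zero.mp hGto)
      exact (this.eventually (ge_mem_nhds (by norm_num : (0:ℝ) < 1/2)))
    filter_upwards [hev] with n hn
    have h := B7_log A (G (s n)) (hGsa _) hn
    rw [norm_smul, norm_smul]
    have hp : 0 ≤ ‖(s n)⁻¹‖ := norm_nonneg _
    calc ‖(s n)⁻¹‖ * ‖CFC.log (G (s n)) - (G (s n) - 1)‖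
        ≤ ‖(s n)⁻¹‖ * (2 * ‖G (s n) - 1‖ ^ 2) := by gcongr
      _ = 2 * (‖(s n)⁻¹‖ * ‖G (s n) - 1‖ * ‖G (s n) - 1‖) := by ring
  have hfin : Tendsto (fun n => (s n)⁻¹ • CFC.log (G (s n))) atTop (𝓝 (a + b)) := by
    have h := hlog.add hslope
    rw [zero_add] at h
    refine h.congr (fun n => ?_)
    rw [← smul_add, sub_add_cancel]
  have hn2 := (hcont.tendsto (a + b)).comp hfin
  refine hn2.congr (fun n => ?_)
  simp only [Function.comp_def]
  rw [hsm]
  have e0 : |(s n)⁻¹| = (2:ℝ) ^ n := by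
    rw [abs_of_pos (inv_pos.mpr (hspos n))]
    simp [hs]
  rw [e0]
  have e1 : (1/2:ℝ) • (((1/2:ℝ) ^ n) • a) = ((1/2:ℝ) ^ n) • ((1/2:ℝ) • a) := smul_comm _ _ _
  simp only [ff, hG, hs, e1]

end Pool.Agent.H712R5.BO
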