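import Pool.Agent.H712R5.BO.Stmts

set_option autoImplicit false
open scoped ComplexConjugate InnerProductSpace Topology
open Filter MeasureTheory NormedSpace

namespace Pool.Agent.H712R5.BO

theorem t_B8 (h1 : P_B6) (h2 : P_B7) : P_B8 := by
  intro A _ τ hτ a b ha hb
  have hsa : ∀ (n : ℕ) (x : A), IsSelfAdjoint x → IsSelfAdjoint (((1/2:ℝ) ^ n) • x) :=
    fun n x hx => (IsSelfAdjoint.all ((1/2:ℝ) ^ n)).smul hx
  have hind : ∀ n : ℕ, (2:ℝ) ^ n * ff τ (((1/2:ℝ) ^ n) • a) (((1/2:ℝ) ^ n) • b) ≤ ff τ a b := by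
    intro n
    induction n with
    | zero => simp
    | succ n ih =>
      have h := h1 A τ hτ (((1/2:ℝ) ^ n) • a) (((1/2:ℝ) ^ n) • b) (hsa n a ha) (hsa n b hb)
      rw [smul_smul, smul_smul] at h
      have e : (1/2:ℝ) * (1/2:ℝ) ^ n = (1/2:ℝ) ^ (n + 1) := by ring
      rw [e] at h
      have h3 : (2:ℝ) ^ n * (2 * ff τ (((1/2:ℝ) ^ (n + 1)) • a) (((1/2:ℝ) ^ (n + 1)) • b)) ≤
          (2:ℝ) ^ n * ff τ (((1/2:ℝ) ^ n) • a) (((1/2:ℝ) ^ n) • b) :=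
        mul_le_mul_of_nonneg_left h (by positivity)
      have e2 : (2:ℝ) ^ (n + 1) * ff τ (((1/2:ℝ) ^ (n + 1)) • a) (((1/2:ℝ) ^ (n + 1)) • b) =
          (2:ℝ) ^ n * (2 * ff τ (((1/2:ℝ) ^ (n + 1)) • a) (((1/2:ℝ) ^ (n + 1)) • b)) := by
        ring
      rw [e2]
      exact h3.trans ih
  exact le_of_tendsto' (h2 A τ hτ a b ha hb) hind

end Pool.Agent.H712R5.BO
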