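import Pool.Agent.H712R5.BO.Stmts

set_option autoImplicit false
open scoped ComplexConjugate InnerProductSpace Topology
open Filter MeasureTheory NormedSpace

namespace Pool.Agent.H712R5.BO

theorem t_B9 (_ : P_B1) (h2 : P_B4u) (h3 : P_B8) : P_B9 := by
  intro A _ τ hτ P Q
  letI : NormedAlgebra ℚ A := NormedAlgebra.restrictScalars ℚ ℂ A
  obtain ⟨u1, u2, -, -, u5, -, -⟩ := h2 A τ hτ
  have hadd : ∀ (s t : ℝ) (x : A), exp (s • x) * exp (t • x) = exp ((s + t) • x) := by
    intro s t x
    rw [add_smul, exp_add_of_commute]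
    exact ((Commute.refl x).smul_left s).smul_right t
  have hsa : ∀ (s : ℝ) (x : A), IsSelfAdjoint x → star (exp (s • x)) = exp (s • x) := by
    intro s x hx
    rw [star_exp]
    congr 1
    exact ((IsSelfAdjoint.all s).smul hx)
  set L : A := Lg (P : A) with hL
  have hLsa : IsSelfAdjoint L := u1 _
  have hPL : exp L = star (P : A) * (P : A) := u2 _ P.isUnit
  have hQL : exp (Lg (Q : A)) = star (Q : A) * (Q : A) := u2 _ Q.isUnit
  set e : A := exp ((-(1/2):ℝ) • L) with he
  set e' : A := exp ((1/2:ℝ) • L) with he'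
  have hee' : e * e' = 1 := by rw [he, he', hadd]; simp
  have he'e : e' * e = 1 := by rw [he, he', hadd]; simp
  have hese : star e = e := hsa _ _ hLsa
  have hexpL : exp L = e' * e' := by rw [he', hadd]; norm_num
  set V : A := (P : A) * e with hV
  have hVV : star V * V = 1 := by
    rw [hV, star_mul, hese]
    calc e * star (P : A) * ((P : A) * e) = e * (star (P : A) * (P : A)) * e := by
          simp only [mul_assoc]
      _ = e * (e' * e') * e := by rw [← hPL, hexpL]
      _ = (e * e') * (e' * e) := by simp only [mul_assoc]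
      _ = 1 := by rw [hee', he'e, one_mul]
  have hVinv : V * (e' * (↑P⁻¹ : A)) = 1 := by
    rw [hV]
    calc (P : A) * e * (e' * (↑P⁻¹ : A)) = (P : A) * (e * e') * (↑P⁻¹ : A) := by
          simp only [mul_assoc]
      _ = 1 := by rw [hee', mul_one, Units.mul_inv]
  have hVs : V * star V = 1 := by
    have : star V = e' * (↑P⁻¹ : A) := left_inv_eq_right_inv hVV hVinv
    rw [this]; exact hVinv
  have hVu : V ∈ unitary A := Unitary.mem_iff.2 ⟨hVV, hVs⟩
  have heV : e = (↑P⁻¹ : A) * V := by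
    rw [hV, ← mul_assoc, Units.inv_mul, one_mul]
  have h8 := h3 A τ hτ (-L) (Lg (Q : A)) hLsa.neg (u1 _)
  have hlhs : -L + Lg (Q : A) = Lg (Q : A) - Lg (P : A) := by rw [hL]; abel
  rw [hlhs] at h8
  refine h8.trans (le_of_eq ?_)
  have hneg : ((1/2:ℝ) • (-L)) = (-(1/2):ℝ) • L := by rw [smul_neg, neg_smul]
  have hff : ff τ (-L) (Lg (Q : A)) = NN τ ((Q : A) * (↑P⁻¹ : A) * V) := by
    unfold ff NN Lg
    rw [hneg]
    change n2 τ (CFC.log (e * exp (Lg (Q : A)) * e)) = _
    rw [hQL]
    congr 2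
    have h9 : (Q : A) * (↑P⁻¹ : A) * V = (Q : A) * e := by rw [mul_assoc, ← heV]
    rw [h9, star_mul, hese]
    simp only [mul_assoc]
  rw [hff]
  have h10 := u5 1 (one_mem _) V hVu ((Q : A) * (↑P⁻¹ : A))
  rw [one_mul] at h10
  exact h10

end Pool.Agent.H712R5.BO
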