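import Pool.Agent.H712R5.BO.Stmts

/-! C1 (helper124): `tauE` is a tracial state. -/

set_option autoImplicit false
open scoped ComplexConjugate InnerProductSpace Topology
open Filter MeasureTheory NormedSpace

namespace Pool.Agent.H712R5.BO

section C1

variable {H : Type} [NormedAddCommGroup H] [InnerProductSpace ℂ H] [CompleteSpace H]
  (E : unitary (H →L[ℂ] H)) (β : UnitAddCircle) (b : HilbertBasis ℤ ℂ H)

private theorem C1_isom (x y : H) :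
    ⟪(E : H →L[ℂ] H) x, (E : H →L[ℂ] H) y⟫_ℂ = ⟪x, y⟫_ℂ := by
  have e2 : star (E : H →L[ℂ] H) * (E : H →L[ℂ] H) = 1 := (Unitary.mem_iff.mp E.2).1
  have e3 : star (E : H →L[ℂ] H) ((E : H →L[ℂ] H) y) = y :=
    congrArg (fun X : H →L[ℂ] H => X y) e2
  rw [← ContinuousLinearMap.adjoint_inner_right, ← ContinuousLinearMap.star_eq_adjoint, e3]

private theorem C1_step (hE : ∀ r : ℤ, (E : H →L[ℂ] H) (b r) = b (r + 1)) (A : Eqv E β)
    (θ : UnitAddCircle) (i j : ℤ) :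
    ⟪b (i + 1), ev E β θ A (b (j + 1))⟫_ℂ = ⟪b i, ev E β (θ + β) A (b j)⟫_ℂ := by
  have h1 : ev E β θ A * (E : H →L[ℂ] H) = (E : H →L[ℂ] H) * ev E β (θ + β) A := A.2 θ
  have h2 : ev E β θ A ((E : H →L[ℂ] H) (b j)) = (E : H →L[ℂ] H) (ev E β (θ + β) A (b j)) :=
    congrArg (fun X : H →L[ℂ] H => X (b j)) h1
  rw [← hE, ← hE, h2, C1_isom]

private theorem C1_shift (hE : ∀ r : ℤ, (E : H →L[ℂ] H) (b r) = b (r + 1)) (A : Eqv E β)
    (r : ℤ) : ∀ (θ : UnitAddCircle) (i j : ℤ),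
    ⟪b (i + r), ev E β θ A (b (j + r))⟫_ℂ = ⟪b i, ev E β (θ + r • β) A (b j)⟫_ℂ := by
  induction r using Int.induction_on with
  | zero => intro θ i j; simp
  | succ n ih =>
    intro θ i j
    rw [← add_assoc, ← add_assoc, C1_step E β b hE, ih, add_smul, one_smul,
      show θ + β + (n : ℤ) • β = θ + ((n : ℤ) • β + β) by abel]
  | pred n ih =>
    intro θ i j
    have h1 := C1_step E β b hE A (θ - β) (i + (-(n : ℤ) - 1)) (j + (-(n : ℤ) - 1))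
    rw [sub_add_cancel] at h1
    rw [← h1]
    have e1 : i + (-(n : ℤ) - 1) + 1 = i + -(n : ℤ) := by ring
    have e2 : j + (-(n : ℤ) - 1) + 1 = j + -(n : ℤ) := by ring
    rw [e1, e2, ih, sub_smul, one_smul,
      show θ - β + (-(n : ℤ)) • β = θ + ((-(n : ℤ)) • β - β) by abel]

omit [CompleteSpace H] in
private theorem C1_sum_le (x y : H) (s : Finset ℤ) :
    ∑ r ∈ s, ‖⟪x, b r⟫_ℂ * ⟪b r, y⟫_ℂ‖ ≤ 1 / 2 * (‖x‖ ^ 2 + ‖y‖ ^ 2) := by
  have h1 := b.orthonormal.sum_inner_products_le (x := x) (s := s)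
  have h2 := b.orthonormal.sum_inner_products_le (x := y) (s := s)
  have h3 : ∀ r ∈ s, ‖⟪x, b r⟫_ℂ * ⟪b r, y⟫_ℂ‖ ≤ 1 / 2 * (‖⟪b r, x⟫_ℂ‖ ^ 2 + ‖⟪b r, y⟫_ℂ‖ ^ 2) := by
    intro r _
    rw [norm_mul, norm_inner_symm x (b r)]
    nlinarith [sq_nonneg (‖⟪b r, x⟫_ℂ‖ - ‖⟪b r, y⟫_ℂ‖)]
  refine (Finset.sum_le_sum h3).trans ?_
  rw [← Finset.mul_sum, Finset.sum_add_distrib]
  linarith

private theorem C1_norm_ev (A : Eqv E β) (θ : UnitAddCircle) : ‖ev E β θ A‖ ≤ ‖A‖ :=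
  (A : C(UnitAddCircle, H →L[ℂ] H)).norm_coe_le_norm θ

private theorem C1_adj (A : Eqv E β) (θ : UnitAddCircle) (x y : H) :
    ⟪x, ev E β θ A y⟫_ℂ = ⟪ev E β θ (star A) x, y⟫_ℂ := by
  rw [map_star, ContinuousLinearMap.star_eq_adjoint, ContinuousLinearMap.adjoint_inner_left]

private theorem C1_cont (A : Eqv E β) (x y : H) :
    Continuous (fun θ => ⟪x, ev E β θ A y⟫_ℂ) :=
  continuous_const.inner ((continuous_ev E β A).clm_apply continuous_const)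

private theorem C1_hasSum (A B : Eqv E β) (v : H) (hv : ‖v‖ = 1) :
    HasSum (fun r : ℤ => ∫ θ, ⟪v, ev E β θ A (b r)⟫_ℂ * ⟪b r, ev E β θ B v⟫_ℂ
      ∂AddCircle.haarAddCircle) (tauE E β v (A * B)) := by
  have hF : ∀ r : ℤ, Integrable (fun θ => ⟪v, ev E β θ A (b r)⟫_ℂ * ⟪b r, ev E β θ B v⟫_ℂ)
      AddCircle.haarAddCircle := by
    intro r
    exact ((C1_cont E β A v (b r)).mul (C1_cont E β B (b r) v)).integrable_of_hasCompactSupport
      (HasCompactSupport.of_compactSpace _)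
  have hbound : ∀ (s : Finset ℤ) (θ : UnitAddCircle),
      ∑ r ∈ s, ‖⟪v, ev E β θ A (b r)⟫_ℂ * ⟪b r, ev E β θ B v⟫_ℂ‖ ≤
        1 / 2 * (‖star A‖ ^ 2 + ‖B‖ ^ 2) := by
    intro s θ
    have h1 := C1_sum_le b (ev E β θ (star A) v) (ev E β θ B v) s
    simp only [← C1_adj] at h1
    refine h1.trans ?_
    have h2 : ‖ev E β θ (star A) v‖ ≤ ‖star A‖ := by
      have := (ev E β θ (star A)).le_opNorm v
      rw [hv, mul_one] at this
      exact this.trans (C1_norm_ev E β _ θ)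
    have h3 : ‖ev E β θ B v‖ ≤ ‖B‖ := by
      have := (ev E β θ B).le_opNorm v
      rw [hv, mul_one] at this
      exact this.trans (C1_norm_ev E β _ θ)
    have h4 : ‖ev E β θ (star A) v‖ ^ 2 ≤ ‖star A‖ ^ 2 := pow_le_pow_left₀ (norm_nonneg _) h2 2
    have h5 : ‖ev E β θ B v‖ ^ 2 ≤ ‖B‖ ^ 2 := pow_le_pow_left₀ (norm_nonneg _) h3 2
    linarith
  have hsum : Summable (fun r : ℤ => ∫ θ, ‖⟪v, ev E β θ A (b r)⟫_ℂ * ⟪b r, ev E β θ B v⟫_ℂ‖
      ∂AddCircle.haarAddCircle) := by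
    apply summable_of_sum_le (c := 1 / 2 * (‖star A‖ ^ 2 + ‖B‖ ^ 2))
    · intro r
      exact integral_nonneg fun θ => norm_nonneg _
    · intro s
      rw [← integral_finsetSum _ fun r _ => (hF r).norm]
      have h6 : ∫ θ, ∑ r ∈ s, ‖⟪v, ev E β θ A (b r)⟫_ℂ * ⟪b r, ev E β θ B v⟫_ℂ‖
          ∂(AddCircle.haarAddCircle : Measure UnitAddCircle) ≤
          ∫ _θ, 1 / 2 * (‖star A‖ ^ 2 + ‖B‖ ^ 2) ∂(AddCircle.haarAddCircle : Measure UnitAddCircle) := by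
        apply integral_mono (integrable_finsetSum _ fun r _ => (hF r).norm) (integrable_const _)
        intro θ
        exact hbound s θ
      simpa using h6
  have h := hasSum_integral_of_summable_integral_norm hF hsum
  rw [tauE_apply]
  have h8 : ∫ θ, ⟪v, ev E β θ (A * B) v⟫_ℂ ∂(AddCircle.haarAddCircle : Measure UnitAddCircle) =
      ∫ θ, ∑' r : ℤ, ⟪v, ev E β θ A (b r)⟫_ℂ * ⟪b r, ev E β θ B v⟫_ℂ
        ∂(AddCircle.haarAddCircle : Measure UnitAddCircle) := by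
    refine integral_congr_ae (Eventually.of_forall fun θ => ?_)
    have h7 := b.hasSum_inner_mul_inner (ev E β θ (star A) v) (ev E β θ B v)
    simp only [← C1_adj] at h7
    show ⟪v, ev E β θ (A * B) v⟫_ℂ = ∑' r : ℤ, ⟪v, ev E β θ A (b r)⟫_ℂ * ⟪b r, ev E β θ B v⟫_ℂ
    rw [h7.tsum_eq, map_mul]
    rfl
  rw [h8]
  exact h

theorem t_C1 : P_C1 := by
  intro H _ _ _ E β b hE
  have hv : ‖b 0‖ = 1 := b.orthonormal.1 0
  refine ⟨?_, ?_, ?_, ?_⟩
  · rw [tauE_apply]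
    have h1 : ∀ θ : UnitAddCircle, ⟪b 0, ev E β θ 1 (b 0)⟫_ℂ = 1 := by
      intro θ
      rw [map_one, show (1 : H →L[ℂ] H) (b 0) = b 0 from rfl, inner_self_eq_norm_sq_to_K, hv]
      simp
    simp only [h1]
    simp
  · intro a
    rw [tauE_apply]
    have h1 : (∫ θ, ⟪b 0, ev E β θ (star a * a) (b 0)⟫_ℂ ∂AddCircle.haarAddCircle).re =
        ∫ θ, (⟪b 0, ev E β θ (star a * a) (b 0)⟫_ℂ).re ∂AddCircle.haarAddCircle :=
      (integral_re (integrable_ev E β (b 0) (b 0) (star a * a))).symm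
    rw [h1]
    apply integral_nonneg
    intro θ
    show 0 ≤ (⟪b 0, ev E β θ (star a * a) (b 0)⟫_ℂ).re
    rw [map_mul, show (ev E β θ (star a) * ev E β θ a) (b 0) = ev E β θ (star a) (ev E β θ a (b 0)) from rfl,
      C1_adj, star_star]
    exact inner_self_nonneg (𝕜 := ℂ)
  · intro a
    rw [tauE_apply, tauE_apply, ← integral_conj]
    refine integral_congr_ae (Eventually.of_forall fun θ => ?_)
    show ⟪b 0, ev E β θ (star a) (b 0)⟫_ℂ = conj ⟪b 0, ev E β θ a (b 0)⟫_ℂ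
    rw [C1_adj, star_star, inner_conj_symm]
  · intro A B
    have h1 := C1_hasSum E β b A B (b 0) hv
    have h2 := C1_hasSum E β b B A (b 0) hv
    have h3 : ∀ r : ℤ, ∫ θ, ⟪b 0, ev E β θ A (b r)⟫_ℂ * ⟪b r, ev E β θ B (b 0)⟫_ℂ
        ∂AddCircle.haarAddCircle =
        ∫ θ, ⟪b 0, ev E β θ B (b (-r))⟫_ℂ * ⟪b (-r), ev E β θ A (b 0)⟫_ℂ
          ∂(AddCircle.haarAddCircle : Measure UnitAddCircle) := by
      intro r
      rw [← integral_add_right_eq_self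
        (fun θ => ⟪b 0, ev E β θ B (b (-r))⟫_ℂ * ⟪b (-r), ev E β θ A (b 0)⟫_ℂ) (r • β)]
      refine integral_congr_ae (Eventually.of_forall fun θ => ?_)
      show ⟪b 0, ev E β θ A (b r)⟫_ℂ * ⟪b r, ev E β θ B (b 0)⟫_ℂ =
        ⟪b 0, ev E β (θ + r • β) B (b (-r))⟫_ℂ * ⟪b (-r), ev E β (θ + r • β) A (b 0)⟫_ℂ
      rw [← C1_shift E β b hE B r θ 0 (-r), ← C1_shift E β b hE A r θ (-r) 0]
      simp only [zero_add, neg_add_cancel]
      exact mul_comm _ _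
    simp only [h3] at h1
    have h4 : HasSum (fun r : ℤ => ∫ θ, ⟪b 0, ev E β θ B (b (-r))⟫_ℂ *
        ⟪b (-r), ev E β θ A (b 0)⟫_ℂ ∂AddCircle.haarAddCircle) (tauE E β (b 0) (B * A)) :=
      (Equiv.neg ℤ).hasSum_iff.2 h2
    exact h1.unique h4

end C1

end Pool.Agent.H712R5.BO
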