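import Pool.Agent.H712R5.BO.Stmts

/-!
# The continuous functional calculus is strongly continuous on bounded sets
-/

set_option autoImplicit false
open scoped ComplexConjugate InnerProductSpace Topology
open Filter MeasureTheory NormedSpace

namespace Pool.Agent.H712R5.BO

variable {H : Type} [NormedAddCommGroup H] [InnerProductSpace ℂ H] [CompleteSpace H]

theorem C10_apply {A : ℕ → (H →L[ℂ] H)} {X : H →L[ℂ] H} {R : ℝ} (hA : ∀ i, ‖A i‖ ≤ R)
    (h : ∀ v, Tendsto (fun i => A i v) atTop (𝓝 (X v))) {w : ℕ → H} {w' : H}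
    (hw : Tendsto w atTop (𝓝 w')) : Tendsto (fun i => A i (w i)) atTop (𝓝 (X w')) := by
  have h1 : Tendsto (fun i => A i (w i - w')) atTop (𝓝 0) := by
    rw [tendsto_zero_iff_norm_tendsto_zero]
    have h2 : Tendsto (fun i => R * ‖w i - w'‖) atTop (𝓝 0) := by
      have h3 : Tendsto (fun i => ‖w i - w'‖) atTop (𝓝 0) := by
        rw [← tendsto_zero_iff_norm_tendsto_zero]
        exact tendsto_sub_nhds_zero_iff.2 hw
      simpa using h3.const_mul R
    refine squeeze_zero (fun i => norm_nonneg _) (fun i => ?_) h2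
    exact ((A i).le_opNorm _).trans (mul_le_mul_of_nonneg_right (hA i) (norm_nonneg _))
  have h4 := h1.add (h w')
  rw [zero_add] at h4
  refine h4.congr fun i => ?_
  rw [map_sub, sub_add_cancel]

theorem C10_pow {A : ℕ → (H →L[ℂ] H)} {X : H →L[ℂ] H} {R : ℝ} (hA : ∀ i, ‖A i‖ ≤ R)
    (h : ∀ v, Tendsto (fun i => A i v) atTop (𝓝 (X v))) (k : ℕ) :
    ∀ v, Tendsto (fun i => (A i ^ k) v) atTop (𝓝 ((X ^ k) v)) := by
  induction k with
  | zero => intro v; simpa using tendsto_const_nhds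
  | succ k ih =>
    intro v
    have h1 := C10_apply hA h (ih v)
    refine (h1.congr fun i => ?_).trans (le_of_eq ?_)
    · rw [pow_succ']; rfl
    · rw [pow_succ']; rfl

theorem C10_poly {A : ℕ → (H →L[ℂ] H)} {X : H →L[ℂ] H} {R : ℝ} (hA : ∀ i, ‖A i‖ ≤ R)
    (h : ∀ v, Tendsto (fun i => A i v) atTop (𝓝 (X v))) (p : Polynomial ℝ) (v : H) :
    Tendsto (fun i => (Polynomial.aeval (A i) p) v) atTop (𝓝 ((Polynomial.aeval X p) v)) := by
  have h1 : ∀ B : H →L[ℂ] H, (Polynomial.aeval B p) v =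
      ∑ i ∈ Finset.range (p.natDegree + 1), p.coeff i • ((B ^ i) v) := by
    intro B
    rw [Polynomial.aeval_eq_sum_range, ContinuousLinearMap.sum_apply]
    rfl
  simp_rw [h1]
  exact tendsto_finsetSum _ fun i _ => (C10_pow hA h i v).const_smul _

theorem C10_spec {A : H →L[ℂ] H} {R : ℝ} (hA : ‖A‖ ≤ R) : ∀ x ∈ spectrum ℝ A, x ∈ Set.Icc (-R) R := by
  intro x hx
  have h1 := spectrum.norm_le_norm_mul_of_mem hx
  have h2 : ‖(1 : H →L[ℂ] H)‖ ≤ 1 := ContinuousLinearMap.norm_id_le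
  have h3 : ‖x‖ ≤ R := by
    calc ‖x‖ ≤ ‖A‖ * ‖(1 : H →L[ℂ] H)‖ := h1
      _ ≤ ‖A‖ * 1 := mul_le_mul_of_nonneg_left h2 (norm_nonneg _)
      _ ≤ R := by rw [mul_one]; exact hA
  rw [Real.norm_eq_abs, abs_le] at h3
  exact h3

theorem C10_near {A : H →L[ℂ] H} {R : ℝ} (hA : ‖A‖ ≤ R) (hs : IsSelfAdjoint A) (f : ℝ → ℝ)
    (hf : Continuous f) (p : Polynomial ℝ) (δ : ℝ) (hδ : 0 ≤ δ)
    (hp : ∀ x ∈ Set.Icc (-R) R, |p.eval x - f x| < δ) :
    ‖cfc f A - Polynomial.aeval A p‖ ≤ δ := by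
  rw [← cfc_polynomial p A hs, ← cfc_sub f (fun x => p.eval x) A hf.continuousOn
    p.continuous.continuousOn]
  refine norm_cfc_le hδ fun x hx => ?_
  rw [Real.norm_eq_abs, abs_sub_comm]
  exact (hp x (C10_spec hA x hx)).le

theorem t_C10 : P_C10 := by
  intro H _ _ _ Y X R hY hs h
  have hR : 0 ≤ R := (norm_nonneg _).trans (hY 0)
  have hX : ‖X‖ ≤ R := by
    refine ContinuousLinearMap.opNorm_le_bound _ hR fun v => ?_
    refine le_of_tendsto (h v).norm (Eventually.of_forall fun i => ?_)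
    exact ((Y i).le_opNorm _).trans (mul_le_mul_of_nonneg_right (hY i) (norm_nonneg _))
  have hsX : IsSelfAdjoint X := by
    rw [ContinuousLinearMap.isSelfAdjoint_iff_isSymmetric]
    intro v w
    have h1 : Tendsto (fun i => ⟪Y i v, w⟫_ℂ) atTop (𝓝 ⟪X v, w⟫_ℂ) :=
      (h v).inner tendsto_const_nhds
    have h2 : Tendsto (fun i => ⟪v, Y i w⟫_ℂ) atTop (𝓝 ⟪v, X w⟫_ℂ) :=
      tendsto_const_nhds.inner (h w)
    refine tendsto_nhds_unique h1 (h2.congr fun i => ?_)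
    exact ((ContinuousLinearMap.isSelfAdjoint_iff_isSymmetric.1 (hs i)) v w).symm
  refine ⟨hsX, fun f hf v => ?_⟩
  rw [Metric.tendsto_atTop]
  intro ε hε
  set δ := ε / (3 * (‖v‖ + 1)) with hδ
  have hδ0 : 0 < δ := by positivity
  obtain ⟨p, hp⟩ := exists_polynomial_near_of_continuousOn (-R) R f hf.continuousOn δ hδ0
  have h1 := C10_poly hY h p v
  rw [Metric.tendsto_atTop] at h1
  obtain ⟨N, hN⟩ := h1 (ε / 3) (by positivity)
  refine ⟨N, fun n hn => ?_⟩
  have e1 : ‖(cfc f (Y n) - Polynomial.aeval (Y n) p) v‖ ≤ δ * ‖v‖ :=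
    (ContinuousLinearMap.le_opNorm _ _).trans (mul_le_mul_of_nonneg_right
      (C10_near (hY n) (hs n) f hf p δ hδ0.le hp) (norm_nonneg _))
  have e2 : ‖(cfc f X - Polynomial.aeval X p) v‖ ≤ δ * ‖v‖ :=
    (ContinuousLinearMap.le_opNorm _ _).trans (mul_le_mul_of_nonneg_right
      (C10_near hX hsX f hf p δ hδ0.le hp) (norm_nonneg _))
  have e3 := hN n hn
  rw [dist_eq_norm] at e3 ⊢
  have e4 : cfc f (Y n) v - cfc f X v = (cfc f (Y n) - Polynomial.aeval (Y n) p) v +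
      ((Polynomial.aeval (Y n) p) v - (Polynomial.aeval X p) v) -
      (cfc f X - Polynomial.aeval X p) v := by
    rw [ContinuousLinearMap.sub_apply, ContinuousLinearMap.sub_apply]
    abel
  have e5 : δ * ‖v‖ ≤ ε / 3 := by
    rw [hδ, div_mul_eq_mul_div, div_le_div_iff₀ (by positivity) (by norm_num)]
    nlinarith [norm_nonneg v]
  rw [e4]
  calc _ ≤ ‖(cfc f (Y n) - Polynomial.aeval (Y n) p) v +
      ((Polynomial.aeval (Y n) p) v - (Polynomial.aeval X p) v)‖ +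
      ‖(cfc f X - Polynomial.aeval X p) v‖ := norm_sub_le _ _
    _ ≤ ‖(cfc f (Y n) - Polynomial.aeval (Y n) p) v‖ +
      ‖(Polynomial.aeval (Y n) p) v - (Polynomial.aeval X p) v‖ +
      ‖(cfc f X - Polynomial.aeval X p) v‖ := by gcongr; exact norm_add_le _ _
    _ < ε := by linarith

end Pool.Agent.H712R5.BO
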