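import Pool.Agent.H712R5.BO.Stmts

/-!
C11: growth estimates (helper17).
-/

set_option autoImplicit false
open scoped ComplexConjugate InnerProductSpace Topology
open Filter MeasureTheory NormedSpace

namespace Pool.Agent.H712R5.BO

theorem C11_exp {H : Type} [NormedAddCommGroup H] [InnerProductSpace ℂ H] [CompleteSpace H]
    (Y : H →L[ℂ] H) (hY : IsSelfAdjoint Y) (c : ℝ) :
    exp (c • Y) = cfc (fun x : ℝ => Real.exp (c * x)) Y := by
  have h1 : c • Y = cfc (fun x : ℝ => c * x) Y := by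
    rw [cfc_const_mul c (fun x : ℝ => x) Y, cfc_id' ℝ Y]
  have h2 : exp (c • Y) = cfc Real.exp (c • Y) :=
    (CFC.real_exp_eq_normedSpace_exp (IsSelfAdjoint.smul (IsSelfAdjoint.all c) hY)).symm
  rw [h2, h1, ← cfc_comp' Real.exp (fun x : ℝ => c * x) Y]

theorem C11_norm {H : Type} [NormedAddCommGroup H] [InnerProductSpace ℂ H] [CompleteSpace H]
    (S Y : H →L[ℂ] H) (hY : IsSelfAdjoint Y) (k : ℝ)
    (hS : star S * S = exp (k • Y)) (w : H) :
    ‖S w‖ = ‖cfc (fun x : ℝ => Real.exp (k * x / 2)) Y w‖ := by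
  have e1 : exp (k • Y) = cfc (fun x : ℝ => Real.exp (k * x / 2)) Y *
      cfc (fun x : ℝ => Real.exp (k * x / 2)) Y := by
    rw [C11_exp Y hY k, ← cfc_mul (fun x : ℝ => Real.exp (k * x / 2)) (fun x : ℝ => Real.exp (k * x / 2)) Y]
    congr 1
    funext x
    rw [← Real.exp_add]
    congr 1
    ring
  have hsa : IsSelfAdjoint (cfc (fun x : ℝ => Real.exp (k * x / 2)) Y) := cfc_predicate _ _
  have h1 : (⟪S w, S w⟫_ℂ) = ⟪cfc (fun x : ℝ => Real.exp (k * x / 2)) Y w,
      cfc (fun x : ℝ => Real.exp (k * x / 2)) Y w⟫_ℂ := by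
    calc (⟪S w, S w⟫_ℂ) = ⟪(star S * S) w, w⟫_ℂ := by
          rw [mul_apply_eq_comp, ContinuousLinearMap.star_eq_adjoint,
            ContinuousLinearMap.adjoint_inner_left]
      _ = ⟪(star (cfc (fun x : ℝ => Real.exp (k * x / 2)) Y) *
            cfc (fun x : ℝ => Real.exp (k * x / 2)) Y) w, w⟫_ℂ := by
          rw [hS, e1, hsa.star_eq]
      _ = _ := by
          rw [mul_apply_eq_comp, ContinuousLinearMap.star_eq_adjoint,
            ContinuousLinearMap.adjoint_inner_left]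
  rw [inner_self_eq_norm_sq_to_K, inner_self_eq_norm_sq_to_K] at h1
  have h2 : ‖S w‖ ^ 2 = ‖cfc (fun x : ℝ => Real.exp (k * x / 2)) Y w‖ ^ 2 := by
    exact_mod_cast h1
  exact (sq_eq_sq₀ (norm_nonneg _) (norm_nonneg _)).mp h2

theorem t_C11 : P_C11 := by
  intro H _ _ _ S R Y k φ χ a b hY hSR hS hφ hχ hχ1 hφa hχb v
  set u := cfc φ Y v with hu
  have hk : (0:ℝ) ≤ (k:ℝ) := Nat.cast_nonneg k
  -- first step: ‖S u‖ ≤ exp (k a / 2) ‖u‖
  have s1 : ‖S u‖ ≤ Real.exp (k * a / 2) * ‖u‖ := by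
    rw [C11_norm S Y hY k hS u]
    have hg : cfc (fun x : ℝ => Real.exp ((k:ℝ) * x / 2)) Y * cfc φ Y
        = cfc (fun x : ℝ => min (Real.exp ((k:ℝ) * x / 2)) (Real.exp (k * a / 2))) Y * cfc φ Y := by
      rw [← cfc_mul (fun x : ℝ => Real.exp ((k:ℝ) * x / 2)) φ Y,
        ← cfc_mul (fun x : ℝ => min (Real.exp ((k:ℝ) * x / 2)) (Real.exp (k * a / 2))) φ Y]
      congr 1
      funext x
      rcases le_total a x with h | h
      · rw [hφa x h, mul_zero, mul_zero]
      · rw [min_eq_left]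
        apply Real.exp_le_exp.mpr
        have := mul_le_mul_of_nonneg_left h hk
        linarith
    have h2 : cfc (fun x : ℝ => Real.exp ((k:ℝ) * x / 2)) Y u
        = cfc (fun x : ℝ => min (Real.exp ((k:ℝ) * x / 2)) (Real.exp (k * a / 2))) Y u := by
      have := congrArg (fun A : H →L[ℂ] H => A v) hg
      simpa [hu, mul_apply_eq_comp] using this
    rw [h2]
    refine (ContinuousLinearMap.le_opNorm _ _).trans ?_
    refine mul_le_mul_of_nonneg_right ?_ (norm_nonneg _)
    refine norm_cfc_le (Real.exp_pos _).le (fun x _ => ?_)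
    rw [Real.norm_eq_abs, abs_of_nonneg (le_min (Real.exp_pos _).le (Real.exp_pos _).le)]
    exact min_le_right _ _
  -- second step
  have s2 : ‖cfc χ Y (R u)‖ ≤ Real.exp (-(k * b / 2)) * ‖S (R u)‖ := by
    rw [C11_norm S Y hY k hS (R u)]
    have hg : cfc χ Y = cfc (fun x : ℝ => χ x * Real.exp (-((k:ℝ) * x / 2))) Y *
        cfc (fun x : ℝ => Real.exp ((k:ℝ) * x / 2)) Y := by
      rw [← cfc_mul (fun x : ℝ => χ x * Real.exp (-((k:ℝ) * x / 2)))
        (fun x : ℝ => Real.exp ((k:ℝ) * x / 2)) Y]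
      congr 1
      funext x
      rw [mul_assoc, ← Real.exp_add, neg_add_cancel, Real.exp_zero, mul_one]
    rw [hg, mul_apply_eq_comp]
    refine (ContinuousLinearMap.le_opNorm _ _).trans ?_
    refine mul_le_mul_of_nonneg_right ?_ (norm_nonneg _)
    refine norm_cfc_le (Real.exp_pos _).le (fun x _ => ?_)
    rw [Real.norm_eq_abs, abs_of_nonneg (mul_nonneg (hχ1 x).1 (Real.exp_pos _).le)]
    rcases le_total x b with h | h
    · rw [hχb x h, zero_mul]
      exact (Real.exp_pos _).le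
    · calc χ x * Real.exp (-((k:ℝ) * x / 2)) ≤ 1 * Real.exp (-((k:ℝ) * x / 2)) :=
            mul_le_mul_of_nonneg_right (hχ1 x).2 (Real.exp_pos _).le
        _ ≤ Real.exp (-(k * b / 2)) := by
            rw [one_mul]
            apply Real.exp_le_exp.mpr
            have := mul_le_mul_of_nonneg_left h hk
            linarith
  have s3 : S (R u) = R (S u) := by
    have := congrArg (fun A : H →L[ℂ] H => A u) hSR
    simpa [mul_apply_eq_comp] using this
  calc ‖cfc χ Y (R u)‖ ≤ Real.exp (-(k * b / 2)) * ‖S (R u)‖ := s2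
    _ = Real.exp (-(k * b / 2)) * ‖R (S u)‖ := by rw [s3]
    _ ≤ Real.exp (-(k * b / 2)) * (‖R‖ * (Real.exp (k * a / 2) * ‖u‖)) := by
        refine mul_le_mul_of_nonneg_left ?_ (Real.exp_pos _).le
        exact (R.le_opNorm _).trans (mul_le_mul_of_nonneg_left s1 (norm_nonneg _))
    _ = Real.exp (-(k * (b - a) / 2)) * ‖R‖ * ‖u‖ := by
        have : Real.exp (-(k * (b - a) / 2)) = Real.exp (-(k * b / 2)) * Real.exp (k * a / 2) := by
          rw [← Real.exp_add]
          congr 1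
          ring
        rw [this]
        ring

end Pool.Agent.H712R5.BO
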