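import Pool.Agent.H712R5.BO.Stmts

set_option autoImplicit false
open scoped ComplexConjugate InnerProductSpace Topology
open Filter MeasureTheory NormedSpace

namespace Pool.Agent.H712R5.BO

section C3

variable {H : Type} [NormedAddCommGroup H] [InnerProductSpace ℂ H] [CompleteSpace H]

/-- rotation of the circle -/
noncomputable def C3_rho (E : unitary (H →L[ℂ] H)) (β s : UnitAddCircle) :
    Eqv E β →⋆ₐ[ℂ] Eqv E β where
  toFun := fun A => ⟨⟨fun θ => (A : C(UnitAddCircle, H →L[ℂ] H)) (θ + s),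
      (A : C(UnitAddCircle, H →L[ℂ] H)).continuous.comp (continuous_add_const s)⟩, by
    intro θ
    show (A : C(UnitAddCircle, H →L[ℂ] H)) (θ + s) * (E : H →L[ℂ] H) =
      (E : H →L[ℂ] H) * (A : C(UnitAddCircle, H →L[ℂ] H)) (θ + β + s)
    rw [show θ + β + s = θ + s + β by abel]
    exact A.2 (θ + s)⟩
  map_one' := rfl
  map_mul' := fun _ _ => rfl
  map_zero' := rfl
  map_add' := fun _ _ => rfl
  commutes' := fun _ => rfl
  map_star' := fun _ => rfl

theorem C3_ev (E : unitary (H →L[ℂ] H)) (β s θ : UnitAddCircle) (A : Eqv E β) :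
    ev E β θ (C3_rho E β s A) = ev E β (θ + s) A := rfl

theorem C3_cont (E : unitary (H →L[ℂ] H)) (β s : UnitAddCircle) :
    Continuous (C3_rho E β s) := by
  refine AddMonoidHomClass.continuous_of_bound (C3_rho E β s) 1 fun A => ?_
  rw [one_mul]
  show ‖((C3_rho E β s A : Eqv E β) : C(UnitAddCircle, H →L[ℂ] H))‖ ≤
    ‖(A : C(UnitAddCircle, H →L[ℂ] H))‖
  rw [ContinuousMap.norm_le _ (norm_nonneg _)]
  intro θ
  exact (A : C(UnitAddCircle, H →L[ℂ] H)).norm_coe_le_norm (θ + s)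

theorem C3_tau (E : unitary (H →L[ℂ] H)) (β s : UnitAddCircle) (v : H) (A : Eqv E β) :
    tauE E β v (C3_rho E β s A) = tauE E β v A := by
  rw [tauE_apply, tauE_apply]
  simp only [C3_ev]
  exact integral_add_right_eq_self (μ := AddCircle.haarAddCircle)
    (fun θ => ⟪v, ev E β θ A v⟫_ℂ) s

theorem C3_n2 (E : unitary (H →L[ℂ] H)) (β s : UnitAddCircle) (v : H) (A : Eqv E β) :
    n2 (tauE E β v) (C3_rho E β s A) = n2 (tauE E β v) A := by
  unfold n2
  rw [← map_star, ← map_mul, C3_tau]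

theorem C3_Tt (E : unitary (H →L[ℂ] H)) (β s : UnitAddCircle) (T : H →L[ℂ] H)
    (hT : T * (E : H →L[ℂ] H) = (fourier 1 β : ℂ) • ((E : H →L[ℂ] H) * T)) :
    C3_rho E β s (Tt E β T hT) = (fourier 1 s : ℂ) • Tt E β T hT := by
  apply Subtype.ext
  apply ContinuousMap.ext
  intro θ
  show (fourier 1 (θ + s) : ℂ) • T = (fourier 1 s : ℂ) • ((fourier 1 θ : ℂ) • T)
  rw [smul_smul]
  congr 1
  simp only [fourier_apply, one_smul, AddCircle.toCircle_add, Circle.coe_mul]
  ring

theorem C3_rt (M j : ℕ) :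
    (fourier 1 (((j : ℝ) / (M : ℝ) : ℝ) : UnitAddCircle) : ℂ) = rt M j := by
  rw [fourier_coe_apply]
  unfold rt
  congr 1
  push_cast
  ring

theorem C3_log (E : unitary (H →L[ℂ] H)) (β s : UnitAddCircle) (S : Eqv E β) (hS : IsUnit S) :
    C3_rho E β s (Lg S) = Lg (C3_rho E β s S) := by
  unfold Lg CFC.log
  rw [← map_star, ← map_mul]
  have hu : IsUnit (star S * S) := hS.star.mul hS
  have hsa : IsSelfAdjoint (star S * S) := IsSelfAdjoint.star_mul_self S
  refine StarAlgHomClass.map_cfc (S := ℂ) (C3_rho E β s) Real.log (star S * S) ?_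
    (C3_cont E β s) hsa (hsa.map _)
  refine Real.continuousOn_log.mono ?_
  intro x hx h0
  rw [Set.mem_singleton_iff] at h0
  subst h0
  exact spectrum.zero_notMem ℝ hu hx

/-- C3: rotation invariance of `NN (exp(k z T))` -/
theorem t_C3 : P_C3 := by
  intro H _ _ _ E β v T hT k M j
  letI : NormedAlgebra ℚ (Eqv E β) := NormedAlgebra.restrictScalars ℚ ℂ (Eqv E β)
  have h1 : ex (k * rt M j) (Tt E β T hT) =
      C3_rho E β (((j : ℝ) / (M : ℝ) : ℝ) : UnitAddCircle) (ex (k : ℂ) (Tt E β T hT)) := by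
    unfold ex
    rw [map_exp (C3_rho E β (((j : ℝ) / (M : ℝ) : ℝ) : UnitAddCircle)) (C3_cont E β _), map_smul,
      C3_Tt, C3_rt, smul_smul]
  unfold NN
  rw [h1, ← C3_log E β _ _ (by unfold ex; exact isUnit_exp _), C3_n2]

end C3

end Pool.Agent.H712R5.BO
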