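import Pool.Agent.H712R5.BO.Stmts

set_option autoImplicit false
open scoped ComplexConjugate InnerProductSpace Topology
open Filter MeasureTheory NormedSpace

namespace Pool.Agent.H712R5.BO

theorem C4_cont {H : Type} [NormedAddCommGroup H] [InnerProductSpace ℂ H] [CompleteSpace H]
    (E : unitary (H →L[ℂ] H)) (β : UnitAddCircle) (θ : UnitAddCircle) :
    Continuous (ev E β θ) :=
  (continuous_eval_const (F := C(UnitAddCircle, H →L[ℂ] H)) θ).comp continuous_subtype_val

theorem C4_unit {A : Type} [CStarAlgebra A] (S : A) (hS : IsUnit S) :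
    ContinuousOn Real.log (spectrum ℝ (star S * S)) := by
  refine Real.continuousOn_log.mono ?_
  intro x hx h0
  have h0' : x = 0 := h0
  subst h0'
  exact (spectrum.zero_notMem_iff ℝ).2 (hS.star.mul hS) hx

theorem t_C4 (h : P_B4v) : P_C4 := by
  intro H _ _ _ E β T hT k θ
  let _ : NormedAlgebra ℚ (Eqv E β) := NormedAlgebra.restrictScalars ℚ ℂ (Eqv E β)
  let _ : NormedAlgebra ℚ (H →L[ℂ] H) := NormedAlgebra.restrictScalars ℚ ℂ (H →L[ℂ] H)
  have e1 : ev E β θ (ex (k : ℂ) (Tt E β T hT)) = ex (k : ℂ) ((fourier 1 θ : ℂ) • T) := by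
    unfold ex
    rw [NormedSpace.map_exp _ (C4_cont E β θ), map_smul, ev_Tt]
  constructor
  · have hu : IsUnit (ex (k : ℂ) (Tt E β T hT)) := by
      unfold ex
      exact NormedSpace.isUnit_exp _
    unfold Lg CFC.log
    rw [StarAlgHomClass.map_cfc (ev E β θ) Real.log _ (C4_unit _ hu) (C4_cont E β θ)
      (IsSelfAdjoint.star_mul_self _)
      ((IsSelfAdjoint.star_mul_self _).map (ev E β θ)), map_mul, map_star, e1]
  · have h1 := (h (H →L[ℂ] H)).2.2.2.2 ((k : ℂ) • ((fourier 1 θ : ℂ) • T))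
    have h2 : ‖(k : ℂ) • ((fourier 1 θ : ℂ) • T)‖ = k * ‖T‖ := by
      rw [norm_smul, norm_smul]
      have : ‖(fourier 1 θ : ℂ)‖ = 1 := by
        rw [fourier_apply]
        exact Circle.norm_coe _
      rw [this, one_mul]
      simp
    rw [h2, ← mul_assoc] at h1
    exact h1

end Pool.Agent.H712R5.BO
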