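import Pool.Agent.H712R5.BO.Stmts

/-!
C5: the trace of `log (δ + |T^k|^2)`
-/

set_option autoImplicit false
open scoped ComplexConjugate InnerProductSpace Topology
open Filter MeasureTheory NormedSpace

namespace Pool.Agent.H712R5.BO

theorem C5_spec {A : Type} [CStarAlgebra A] (S : A) {δ : ℝ} (hδ : 0 < δ) :
    ∀ x ∈ spectrum ℝ (algebraMap ℝ A δ + star S * S), δ ≤ x := by
  intro x hx
  rw [← spectrum.singleton_add_eq] at hx
  obtain ⟨y, hy, z, hz, rfl⟩ := hx
  rw [Set.mem_singleton_iff] at hy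
  subst hy
  have := spectrum_star_mul_self_nonneg z hz
  simp only
  linarith

theorem C5_sa {A : Type} [CStarAlgebra A] (S : A) (δ : ℝ) :
    IsSelfAdjoint (algebraMap ℝ A δ + star S * S) :=
  (IsSelfAdjoint.algebraMap A (by exact IsSelfAdjoint.all δ)).add (IsSelfAdjoint.star_mul_self S)

theorem C5_cont {A : Type} [CStarAlgebra A] (S : A) {δ : ℝ} (hδ : 0 < δ) :
    ContinuousOn Real.log (spectrum ℝ (algebraMap ℝ A δ + star S * S)) := by
  apply Real.continuousOn_log.mono
  intro x hx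
  have := C5_spec S hδ x hx
  rw [Set.mem_compl_iff, Set.mem_singleton_iff]
  linarith

theorem C5_ev {H : Type} [NormedAddCommGroup H] [InnerProductSpace ℂ H] [CompleteSpace H]
    (E : unitary (H →L[ℂ] H)) (β : UnitAddCircle) (T : H →L[ℂ] H)
    (hT : T * (E : H →L[ℂ] H) = (fourier 1 β : ℂ) • ((E : H →L[ℂ] H) * T)) (k : ℕ) (δ : ℝ)
    (hδ : 0 < δ) (θ : UnitAddCircle) :
    ev E β θ (CFC.log (algebraMap ℝ (Eqv E β) δ +
      star ((Tt E β T hT) ^ k) * (Tt E β T hT) ^ k)) =
    CFC.log (algebraMap ℝ (H →L[ℂ] H) δ + star (T ^ k) * T ^ k) := by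
  have hc : Continuous (ev E β θ) := by
    have h1 : Continuous (fun A : C(UnitAddCircle, H →L[ℂ] H) => A θ) :=
      continuous_eval_const θ
    exact h1.comp continuous_subtype_val
  unfold CFC.log
  have h0 : ev E β θ (algebraMap ℝ (Eqv E β) δ +
      star ((Tt E β T hT) ^ k) * (Tt E β T hT) ^ k) =
      algebraMap ℝ (H →L[ℂ] H) δ + star (T ^ k) * T ^ k := by
    rw [map_add, map_mul, map_star, map_pow, ev_Tt]
    have h1 : ev E β θ (algebraMap ℝ (Eqv E β) δ) = algebraMap ℝ (H →L[ℂ] H) δ := by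
      rw [Algebra.algebraMap_eq_smul_one, Algebra.algebraMap_eq_smul_one]
      rfl
    rw [h1, smul_pow, star_smul, smul_mul_smul_comm]
    have h2 : star ((fourier 1 θ : ℂ) ^ k) * (fourier 1 θ : ℂ) ^ k = 1 := by
      rw [star_pow, ← mul_pow]
      have h3 : star (fourier 1 θ : ℂ) * (fourier 1 θ : ℂ) = 1 := by
        rw [fourier_apply]
        have h4 : ‖((AddCircle.toCircle ((1 : ℤ) • θ) : Circle) : ℂ)‖ = 1 := Circle.norm_coe _
        have h5 := Complex.normSq_eq_conj_mul_self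
          (z := ((AddCircle.toCircle ((1 : ℤ) • θ) : Circle) : ℂ))
        rw [Complex.star_def, ← h5, Complex.normSq_eq_norm_sq, h4]
        norm_num
      rw [h3, one_pow]
    rw [h2, one_smul]
  rw [StarAlgHom.map_cfc (ev E β θ) Real.log _ (C5_cont _ hδ) hc (C5_sa _ δ)
    (by rw [h0]; exact C5_sa _ δ), h0]

theorem t_C5 : P_C5 := by
  intro H _ _ _ E β v T hT k δ hδ
  rw [tauE_apply]
  simp only [C5_ev E β T hT k δ hδ]
  rw [integral_const]
  simp

end Pool.Agent.H712R5.BO
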