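import Pool.Agent.H712R5.BO.Stmts

set_option autoImplicit false
open scoped ComplexConjugate InnerProductSpace Topology
open Filter MeasureTheory NormedSpace

namespace Pool.Agent.H712R5.BO

/-- the norm in `L²` -/
theorem C7_norm {H : Type} [NormedAddCommGroup H] [InnerProductSpace ℂ H]
    (F : Lp H 2 (AddCircle.haarAddCircle : Measure UnitAddCircle)) :
    ‖F‖ ^ 2 = ∫ θ, ‖F θ‖ ^ 2 ∂AddCircle.haarAddCircle := by
  have h1 : ⟪F, F⟫_ℂ = ∫ θ, ⟪F θ, F θ⟫_ℂ ∂AddCircle.haarAddCircle := L2.inner_def F F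
  have h2 : ∀ θ, ⟪F θ, F θ⟫_ℂ = ((‖F θ‖ ^ 2 : ℝ) : ℂ) := fun θ => by
    rw [inner_self_eq_norm_sq_to_K]
    push_cast
    rfl
  rw [inner_self_eq_norm_sq_to_K] at h1
  simp_rw [h2] at h1
  have h3 : ∫ θ : UnitAddCircle, ((‖F θ‖ ^ 2 : ℝ) : ℂ) ∂AddCircle.haarAddCircle =
      ((∫ θ : UnitAddCircle, ‖F θ‖ ^ 2 ∂AddCircle.haarAddCircle : ℝ) : ℂ) := integral_ofReal
  rw [h3] at h1
  apply Complex.ofReal_injective
  rw [← h1]
  push_cast
  rfl

theorem C7_diff {H : Type} [NormedAddCommGroup H] [InnerProductSpace ℂ H]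
    (F G : Lp H 2 (AddCircle.haarAddCircle : Measure UnitAddCircle)) (f g : UnitAddCircle → H)
    (hf : F =ᵐ[AddCircle.haarAddCircle] f) (hg : G =ᵐ[AddCircle.haarAddCircle] g) :
    ‖F - G‖ ^ 2 = ∫ θ, ‖f θ - g θ‖ ^ 2 ∂AddCircle.haarAddCircle := by
  rw [C7_norm]
  refine integral_congr_ae ?_
  filter_upwards [Lp.coeFn_sub F G, hf, hg] with θ h1 h2 h3
  rw [h1, Pi.sub_apply, h2, h3]

theorem t_C7 : P_C7 := by
  intro H _ _ _ y hy hC
  have hmem : ∀ k, MemLp (y k) 2 (AddCircle.haarAddCircle : Measure UnitAddCircle) := by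
    intro k
    obtain ⟨C, hCb⟩ := (isCompact_univ (X := UnitAddCircle)).exists_bound_of_continuousOn
      (hy k).continuousOn
    exact MemLp.of_bound (hy k).aestronglyMeasurable C
      (Eventually.of_forall fun θ => hCb θ (Set.mem_univ _))
  set f : ℕ → Lp H 2 (AddCircle.haarAddCircle : Measure UnitAddCircle) :=
    fun k => (hmem k).toLp (y k) with hf
  have hfe : ∀ k, f k =ᵐ[AddCircle.haarAddCircle] y k := fun k => (hmem k).coeFn_toLp
  have hcau : CauchySeq f := by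
    rw [Metric.cauchySeq_iff]
    intro ε hε
    obtain ⟨K, hK⟩ := hC (ε ^ 2) (by positivity)
    refine ⟨K, fun k hk m hm => ?_⟩
    have h1 := hK k hk m hm
    rw [← C7_diff (f k) (f m) (y k) (y m) (hfe k) (hfe m)] at h1
    rw [dist_eq_norm]
    exact lt_of_pow_lt_pow_left₀ 2 hε.le h1
  obtain ⟨F, hF⟩ := cauchySeq_tendsto_of_complete hcau
  have hmeas := tendstoInMeasure_of_tendsto_Lp hF
  obtain ⟨φ, hφ, hae⟩ := hmeas.exists_seq_tendsto_ae
  refine ⟨φ, F, hφ, Lp.memLp F, ?_, ?_⟩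
  · have hall : ∀ᵐ θ ∂(AddCircle.haarAddCircle : Measure UnitAddCircle),
        ∀ i, f (φ i) θ = y (φ i) θ := ae_all_iff.2 fun i => hfe (φ i)
    filter_upwards [hae, hall] with θ h1 h2
    refine h1.congr fun i => h2 i
  · have h1 : Tendsto (fun i => ‖f (φ i) - F‖ ^ 2) atTop (𝓝 0) := by
      have h2 : Tendsto (fun i => f (φ i)) atTop (𝓝 F) := hF.comp hφ.tendsto_atTop
      have h3 := (tendsto_iff_norm_sub_tendsto_zero.1 h2).pow 2
      simpa using h3
    refine h1.congr fun i => ?_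
    exact C7_diff (f (φ i)) F (y (φ i)) F (hfe (φ i)) (Eventually.of_forall fun _ => rfl)

end Pool.Agent.H712R5.BO
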