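import Pool.Agent.H712R5.BO.Stmts

set_option autoImplicit false
open scoped ComplexConjugate InnerProductSpace Topology
open Filter MeasureTheory NormedSpace

namespace Pool.Agent.H712R5.BO

theorem t_C8 : P_C8 := by
  intro H _ _ _ b A R hR hb
  let K : Submodule ℂ H :=
    { carrier := {v | ∃ w, Tendsto (fun i => A i v) atTop (𝓝 w)}
      add_mem' := by
        rintro v v' ⟨w, hw⟩ ⟨w', hw'⟩
        exact ⟨w + w', by simpa using hw.add hw'⟩
      zero_mem' := ⟨0, by simp⟩
      smul_mem' := by
        rintro c v ⟨w, hw⟩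
        exact ⟨c • w, by simpa using hw.const_smul c⟩ }
  have hspan : Submodule.span ℂ (Set.range b) ≤ K := Submodule.span_le.2 (by
    rintro _ ⟨r, rfl⟩
    exact hb r)
  have hR0 : 0 ≤ R := (norm_nonneg _).trans (hR 0)
  have hall : ∀ v, ∃ w, Tendsto (fun i => A i v) atTop (𝓝 w) := by
    intro v
    apply cauchySeq_tendsto_of_complete
    rw [Metric.cauchySeq_iff]
    intro ε hε
    have hv : v ∈ closure (Submodule.span ℂ (Set.range b) : Set H) := by
      rw [← Submodule.topologicalClosure_coe, b.dense_span]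
      trivial
    obtain ⟨u, hu, hdu⟩ := Metric.mem_closure_iff.1 hv (ε / (4 * (R + 1))) (by positivity)
    obtain ⟨w, hw⟩ := hspan hu
    have hc := hw.cauchySeq
    rw [Metric.cauchySeq_iff] at hc
    obtain ⟨n, hn⟩ := hc (ε / 2) (by positivity)
    refine ⟨n, fun i hi j hj => ?_⟩
    have h1 := hn i hi j hj
    rw [dist_eq_norm] at h1 hdu ⊢
    have h2 : ∀ l, ‖A l (v - u)‖ ≤ ε / 4 := by
      intro l
      calc ‖A l (v - u)‖ ≤ ‖A l‖ * ‖v - u‖ := (A l).le_opNorm _
        _ ≤ (R + 1) * (ε / (4 * (R + 1))) := by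
            have := hR l
            gcongr
            linarith
        _ = ε / 4 := by field_simp
    have h3 : A i v - A j v = A i (v - u) + (A i u - A j u) - A j (v - u) := by
      rw [map_sub, map_sub]
      abel
    rw [h3]
    calc ‖A i (v - u) + (A i u - A j u) - A j (v - u)‖
        ≤ ‖A i (v - u) + (A i u - A j u)‖ + ‖A j (v - u)‖ := norm_sub_le _ _
      _ ≤ ‖A i (v - u)‖ + ‖A i u - A j u‖ + ‖A j (v - u)‖ := by
          gcongr
          exact norm_add_le _ _
      _ < ε := by
          have := h2 i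
          have := h2 j
          linarith
  choose f hf using hall
  exact ⟨continuousLinearMapOfTendsto A (tendsto_pi_nhds.2 hf), fun v => hf v⟩

end Pool.Agent.H712R5.BO
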