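import Pool.Agent.H712R5.BO.Stmts

/-!
C9 (helper417): the limit is not scalar (ergodicity of the irrational rotation).
-/

set_option autoImplicit false
open scoped ComplexConjugate InnerProductSpace Topology
open Filter MeasureTheory NormedSpace

namespace Pool.Agent.H712R5.BO

theorem C9_erg (α : ℝ) (hα : Irrational α) :
    Ergodic (fun θ : UnitAddCircle => θ + (α : UnitAddCircle))
      (AddCircle.haarAddCircle : Measure UnitAddCircle) := by
  have h1 : DenseRange (fun n : ℤ => n • ((α : ℝ) : UnitAddCircle)) := by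
    have := (AddCircle.denseRange_zsmul_coe_iff (a := α) (p := 1)).mpr (by simpa using hα)
    exact this
  have h2 := ergodic_add_left_of_denseRange_zsmul h1
    (AddCircle.haarAddCircle : Measure UnitAddCircle)
  have h3 : (fun θ : UnitAddCircle => θ + (α : UnitAddCircle))
      = (fun θ : UnitAddCircle => (α : UnitAddCircle) + θ) := by
    funext θ; exact add_comm _ _
  rw [h3]; exact h2

theorem t_C9 : P_C9 := by
  intro H _ _ _ b E α hα hE y y' hy hy' hlim hre him hc hsc
  obtain ⟨c, hc0, hc⟩ := hc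
  have herg := C9_erg α hα
  have hb0 : ‖b 0‖ = 1 := b.orthonormal.1 0
  -- kappa
  set κ : UnitAddCircle → ℂ := fun θ => ⟪b 0, y' θ⟫_ℂ with hκ
  have hκm : AEStronglyMeasurable κ AddCircle.haarAddCircle :=
    (aestronglyMeasurable_const.inner hy'.1)
  have hb1 : (b 1) ≠ 0 := by
    have : ‖b 1‖ = 1 := b.orthonormal.1 1
    intro h; rw [h, norm_zero] at this; exact zero_ne_one this
  have hz : ∀ θ (z : ℂ), y' θ = z • b 0 → κ θ = z := by
    intro θ z h
    simp only [hκ, h, inner_smul_right]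
    rw [inner_self_eq_norm_sq_to_K, hb0]; simp
  have hinv : κ ∘ (fun θ : UnitAddCircle => θ + (α : UnitAddCircle))
      =ᵐ[AddCircle.haarAddCircle] κ := by
    have hs2 := herg.quasiMeasurePreserving.ae hsc
    filter_upwards [hsc, hs2] with θ h1 h2
    obtain ⟨z, hz1, hz2⟩ := h1
    obtain ⟨z', hz1', -⟩ := h2
    rw [Function.comp_apply, hz _ _ hz1, hz _ _ hz1']
    rw [hz1', map_smul, hE 0] at hz2
    have h3 : (z' - z) • (b (0+1)) = 0 := by
      rw [sub_smul, hz2]; simp
    rw [zero_add] at h3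
    rcases smul_eq_zero.mp h3 with h | h
    · exact sub_eq_zero.mp h
    · exact absurd h hb1
  obtain ⟨c0, hc0'⟩ := herg.ae_eq_const_of_ae_eq_comp_ae hκm hinv
  -- integral of kappa
  have hyL : ∀ i, MemLp (y i) 2 AddCircle.haarAddCircle := by
    intro i
    exact (hy i).memLp_of_hasCompactSupport (HasCompactSupport.of_compactSpace _)
  have hdL : ∀ i, MemLp (fun θ => y i θ - y' θ) 2 AddCircle.haarAddCircle :=
    fun i => (hyL i).sub hy'
  have hint0 : ∀ i, ∫ θ, ⟪b 0, y i θ⟫_ℂ ∂AddCircle.haarAddCircle = 0 := by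
    intro i
    apply Complex.ext
    · simpa using hre i
    · have hI : Integrable (fun θ => ⟪b 0, y i θ⟫_ℂ) AddCircle.haarAddCircle :=
        (continuous_const.inner (hy i)).integrable_of_hasCompactSupport
          (HasCompactSupport.of_compactSpace _)
      have h4 : (∫ θ, ⟪b 0, y i θ⟫_ℂ ∂AddCircle.haarAddCircle).im
          = ∫ θ, (⟪b 0, y i θ⟫_ℂ).im ∂AddCircle.haarAddCircle :=
        (integral_im hI).symm
      rw [h4]
      simp [him i]
  have hnorm : ∀ i, ‖c0‖ ^ 2 ≤ ∫ θ, ‖y i θ - y' θ‖ ^ 2 ∂AddCircle.haarAddCircle := by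
    intro i
    have hI1 : Integrable (fun θ => ⟪b 0, y i θ⟫_ℂ) AddCircle.haarAddCircle :=
      (continuous_const.inner (hy i)).integrable_of_hasCompactSupport
        (HasCompactSupport.of_compactSpace _)
    have hI2 : Integrable κ AddCircle.haarAddCircle := by
      have : MemLp κ 2 AddCircle.haarAddCircle := hy'.const_inner (b 0)
      exact this.integrable (by norm_num)
    have h5 : ∫ θ, κ θ ∂AddCircle.haarAddCircle = c0 := by
      rw [integral_congr_ae hc0']; simp
    have h6 : ∫ θ, ⟪b 0, y i θ - y' θ⟫_ℂ ∂AddCircle.haarAddCircle = - c0 := by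
      have : ∀ θ, ⟪b 0, y i θ - y' θ⟫_ℂ = ⟪b 0, y i θ⟫_ℂ - κ θ := by
        intro θ; simp only [hκ, inner_sub_right]
      simp_rw [this]
      rw [integral_sub hI1 hI2, hint0 i, h5, zero_sub]
    have h7 : ‖c0‖ ≤ ∫ θ, ‖y i θ - y' θ‖ ∂AddCircle.haarAddCircle := by
      rw [← norm_neg, ← h6]
      refine (norm_integral_le_integral_norm _).trans ?_
      refine integral_mono_ae ?_ ?_ ?_
      · exact (((hdL i).const_inner (b 0)).integrable (by norm_num)).norm
      · exact ((hdL i).integrable (by norm_num)).norm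
      · refine Eventually.of_forall (fun θ => ?_)
        have := norm_inner_le_norm (𝕜 := ℂ) (b 0) (y i θ - y' θ)
        rw [hb0, one_mul] at this
        exact this
    -- Jensen / Cauchy-Schwarz
    have h8 : (∫ θ, ‖y i θ - y' θ‖ ∂AddCircle.haarAddCircle) ^ 2
        ≤ ∫ θ, ‖y i θ - y' θ‖ ^ 2 ∂AddCircle.haarAddCircle := by
      have hi1 : Integrable (fun θ => ‖y i θ - y' θ‖) AddCircle.haarAddCircle :=
        ((hdL i).integrable (by norm_num)).norm
      have hi2 : Integrable (fun θ => ‖y i θ - y' θ‖ ^ 2) AddCircle.haarAddCircle :=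
        (hdL i).integrable_norm_pow (by norm_num)
      set m := ∫ θ, ‖y i θ - y' θ‖ ∂AddCircle.haarAddCircle with hm
      have h9 : 0 ≤ ∫ θ, (‖y i θ - y' θ‖ - m) ^ 2 ∂AddCircle.haarAddCircle :=
        integral_nonneg (fun θ => sq_nonneg _)
      have h10 : ∀ θ, (‖y i θ - y' θ‖ - m) ^ 2
          = ‖y i θ - y' θ‖ ^ 2 - (2 * m) * ‖y i θ - y' θ‖ + m ^ 2 := fun θ => by ring
      have h11 : ∫ θ, (‖y i θ - y' θ‖ - m) ^ 2 ∂AddCircle.haarAddCircle
          = (∫ θ, ‖y i θ - y' θ‖ ^ 2 ∂AddCircle.haarAddCircle) - (2 * m) * m + m ^ 2 := by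
        have hiA : Integrable (fun θ => ‖y i θ - y' θ‖ ^ 2 - (2 * m) * ‖y i θ - y' θ‖)
            AddCircle.haarAddCircle := hi2.sub (hi1.const_mul _)
        calc ∫ θ, (‖y i θ - y' θ‖ - m) ^ 2 ∂AddCircle.haarAddCircle
            = ∫ θ, ((‖y i θ - y' θ‖ ^ 2 - (2 * m) * ‖y i θ - y' θ‖) + m ^ 2)
                ∂AddCircle.haarAddCircle := integral_congr_ae (Eventually.of_forall h10)
          _ = (∫ θ, (‖y i θ - y' θ‖ ^ 2 - (2 * m) * ‖y i θ - y' θ‖) ∂AddCircle.haarAddCircle)
                + ∫ _θ : UnitAddCircle, m ^ 2 ∂AddCircle.haarAddCircle :=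
              integral_add hiA (integrable_const _)
          _ = _ := by
              rw [integral_sub hi2 (hi1.const_mul _), integral_const_mul, ← hm]
              simp
      rw [h11] at h9
      nlinarith [h9]
    have h0 : 0 ≤ ‖c0‖ := norm_nonneg _
    calc ‖c0‖ ^ 2 ≤ (∫ θ, ‖y i θ - y' θ‖ ∂AddCircle.haarAddCircle) ^ 2 := by gcongr
      _ ≤ _ := h8
  have hc00 : c0 = 0 := by
    have h11 : ‖c0‖ ^ 2 ≤ 0 := ge_of_tendsto' hlim hnorm
    have h12 : ‖c0‖ ^ 2 = 0 := le_antisymm h11 (sq_nonneg _)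
    exact norm_eq_zero.mp (pow_eq_zero_iff (two_ne_zero)|>.mp h12)
  have hy0 : ∀ᵐ θ ∂AddCircle.haarAddCircle, y' θ = 0 := by
    filter_upwards [hsc, hc0'] with θ h1 h2
    obtain ⟨z, hz1, -⟩ := h1
    rw [hz1, ← hz θ z hz1, h2, Function.const_apply, hc00, zero_smul]
  have hfin : ∀ i, c ≤ ∫ θ, ‖y i θ - y' θ‖ ^ 2 ∂AddCircle.haarAddCircle := by
    intro i
    refine (hc i).trans (le_of_eq (integral_congr_ae ?_))
    filter_upwards [hy0] with θ h
    rw [h, sub_zero]
  have : c ≤ 0 := ge_of_tendsto' hlim hfin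
  linarith

end Pool.Agent.H712R5.BO
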