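import Pool.Agent.H712R5.BO.Stmts

set_option autoImplicit false
open scoped ComplexConjugate InnerProductSpace Topology
open Filter MeasureTheory NormedSpace

namespace Pool.Agent.H712R5.BO

/-- D1: `tau` is positive, and `tau log` is monotone (helper314). -/
theorem t_D1 : P_D1 := by
  intro A _ _ _ τ hτ
  have h1 : ∀ a b : A, a ≤ b → (τ a).re ≤ (τ b).re := by
    intro a b hab
    have h0 : 0 ≤ b - a := sub_nonneg.mpr hab
    obtain ⟨c, hc⟩ := CStarAlgebra.nonneg_iff_eq_star_mul_self.mp h0
    have h2 := hτ.pos c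
    rw [← hc, map_sub, Complex.sub_re] at h2
    linarith
  refine ⟨h1, ?_⟩
  intro a b ha hab
  exact h1 _ _ (CFC.log_le_log hab ha)

end Pool.Agent.H712R5.BO
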