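import Pool.Agent.H712R5.BO.Stmts

set_option autoImplicit false
open scoped ComplexConjugate InnerProductSpace Topology
open Filter MeasureTheory NormedSpace

namespace Pool.Agent.H712R5.BO

section D2sec

variable {A : Type} [CStarAlgebra A] [PartialOrder A] [StarOrderedRing A]

theorem D2_spec {x : A} (hx : IsSelfAdjoint x) {r R : ℝ} (h1 : algebraMap ℝ A r ≤ x)
    (h2 : x ≤ algebraMap ℝ A R) : spectrum ℝ x ⊆ Set.Icc r R := by
  intro s hs
  exact ⟨(algebraMap_le_iff_le_spectrum hx).1 h1 s hs, (le_algebraMap_iff_spectrum_le hx).1 h2 s hs⟩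

theorem D2_bounds (a b : A) (ha : 0 ≤ a) (hb : 0 ≤ b) (t : ℝ)
    (ht : t ∈ Set.Ioo (-(1 / (2 * (‖a‖ + 1)))) (1 + 1 / (2 * (‖a‖ + 1)))) :
    IsSelfAdjoint (1 + t • a + b) ∧ algebraMap ℝ A (1 / 2) ≤ 1 + t • a + b ∧
      1 + t • a + b ≤ algebraMap ℝ A (1 + 2 * ‖a‖ + ‖b‖) := by
  obtain ⟨ht1, ht2⟩ := ht
  have hn : 0 ≤ ‖a‖ := norm_nonneg a
  set δ : ℝ := 1 / (2 * (‖a‖ + 1)) with hδ
  have hδ0 : 0 < δ := by positivity
  have hδ1 : δ * ‖a‖ ≤ 1 / 2 := by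
    rw [hδ, one_div_mul_eq_div, div_le_div_iff₀ (by positivity) (by norm_num)]
    linarith
  have hδ2 : δ ≤ 1 := by
    rw [hδ, div_le_one (by positivity)]
    linarith
  have hsa : IsSelfAdjoint a := ha.isSelfAdjoint
  have hsb : IsSelfAdjoint b := hb.isSelfAdjoint
  have e1 : (1 : A) = algebraMap ℝ A (1 / 2) + algebraMap ℝ A (1 / 2) := by
    rw [← map_add]
    norm_num
  refine ⟨?_, ?_, ?_⟩
  · exact ((IsSelfAdjoint.one A).add ((IsSelfAdjoint.all t).smul hsa)).add hsb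
  · have h1 : 0 ≤ (t + δ) • a := smul_nonneg (by linarith) ha
    have h2 : a ≤ algebraMap ℝ A ‖a‖ := hsa.le_algebraMap_norm_self
    have h3 : δ • a ≤ algebraMap ℝ A (1 / 2) := by
      calc δ • a ≤ δ • algebraMap ℝ A ‖a‖ := smul_le_smul_of_nonneg_left h2 hδ0.le
        _ = algebraMap ℝ A (δ * ‖a‖) := by
            rw [Algebra.algebraMap_eq_smul_one, Algebra.algebraMap_eq_smul_one, smul_smul]
        _ ≤ algebraMap ℝ A (1 / 2) := algebraMap_mono A hδ1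
    rw [← sub_nonneg]
    have h4 : 1 + t • a + b - algebraMap ℝ A (1 / 2) =
        (t + δ) • a + b + (algebraMap ℝ A (1 / 2) - δ • a) := by
      rw [add_smul]
      conv_lhs => rw [e1]
      abel
    rw [h4]
    exact add_nonneg (add_nonneg h1 hb) (sub_nonneg.2 h3)
  · have h1 : 0 ≤ (2 - t) • a := smul_nonneg (by linarith) ha
    have h2 : (2 : ℝ) • a ≤ algebraMap ℝ A (2 * ‖a‖) := by
      calc (2 : ℝ) • a ≤ (2 : ℝ) • algebraMap ℝ A ‖a‖ :=
            smul_le_smul_of_nonneg_left hsa.le_algebraMap_norm_self (by norm_num)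
        _ = algebraMap ℝ A (2 * ‖a‖) := by
            rw [Algebra.algebraMap_eq_smul_one, Algebra.algebraMap_eq_smul_one, smul_smul]
    have h3 : b ≤ algebraMap ℝ A ‖b‖ := hsb.le_algebraMap_norm_self
    rw [← sub_nonneg]
    have h4 : algebraMap ℝ A (1 + 2 * ‖a‖ + ‖b‖) - (1 + t • a + b) =
        (algebraMap ℝ A (2 * ‖a‖) - (2 : ℝ) • a) + (2 - t) • a + (algebraMap ℝ A ‖b‖ - b) := by
      rw [map_add, map_add, map_one, sub_smul]
      abel
    rw [h4]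
    exact add_nonneg (add_nonneg (sub_nonneg.2 h2) h1) (sub_nonneg.2 h3)

theorem D2_der (hB2 : P_B2) (τ : A →L[ℂ] ℂ) (hτ : TrSt τ) (a b : A) (ha : 0 ≤ a) (hb : 0 ≤ b)
    (t : ℝ) (ht : t ∈ Set.Ioo (-(1 / (2 * (‖a‖ + 1)))) (1 + 1 / (2 * (‖a‖ + 1)))) :
    HasDerivAt (fun s : ℝ => τ (CFC.log (1 + s • a + b)))
      (τ (cfc (fun x : ℝ => x⁻¹) (1 + t • a + b) * a)) t := by
  have h := hB2 A τ hτ (fun s => 1 + s • a + b) (fun _ => a)
    (-(1 / (2 * (‖a‖ + 1)))) (1 + 1 / (2 * (‖a‖ + 1))) (1 / 2) (1 + 2 * ‖a‖ + ‖b‖)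
    (by norm_num) ?_ continuousOn_const ?_ ⟨‖a‖, fun _ _ => le_rfl⟩ Real.log (fun x => x⁻¹)
    (fun x hx => Real.hasDerivAt_log hx.ne') ?_ t ht
  · exact h
  · intro s _
    have h1 : HasDerivAt (fun s : ℝ => s • a) ((1 : ℝ) • a) s := (hasDerivAt_id s).smul_const a
    rw [one_smul] at h1
    exact (h1.const_add 1).add_const b
  · intro s hs
    obtain ⟨h1, h2, h3⟩ := D2_bounds a b ha hb s hs
    exact ⟨h1, D2_spec h1 h2 h3⟩
  · exact ContinuousOn.inv₀ continuousOn_id fun x hx => (ne_of_gt hx)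

theorem D2_inv (τ : A →L[ℂ] ℂ) (hτ : TrSt τ) (hD1 : ∀ a b : A, a ≤ b → (τ a).re ≤ (τ b).re)
    (a x y : A) (ha : 0 ≤ a) (hx : IsSelfAdjoint x) (hy : IsSelfAdjoint y)
    (h1 : algebraMap ℝ A (1 / 2) ≤ x) (hxy : x ≤ y) :
    (τ (cfc (fun x : ℝ => x⁻¹) y * a)).re ≤ (τ (cfc (fun x : ℝ => x⁻¹) x * a)).re := by
  have hpos : ∀ z : A, IsSelfAdjoint z → algebraMap ℝ A (1 / 2) ≤ z → IsUnit z := by
    intro z hz hz1
    have h2 := (algebraMap_le_iff_le_spectrum hz).1 hz1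
    rw [← spectrum.zero_notMem_iff ℝ]
    intro h0
    have := h2 0 h0
    norm_num at this
  obtain ⟨ux, hux⟩ := hpos x hx h1
  obtain ⟨uy, huy⟩ := hpos y hy (h1.trans hxy)
  have h0 : (0 : A) ≤ algebraMap ℝ A (1 / 2) := by
    have := algebraMap_mono A (by norm_num : (0 : ℝ) ≤ 1 / 2)
    rwa [map_zero] at this
  have hinv : (↑uy⁻¹ : A) ≤ ↑ux⁻¹ := by
    apply CStarAlgebra.inv_le_inv
    · rw [hux]; exact h0.trans h1
    · rw [hux, huy]; exact hxy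
  have e1 : cfc (fun x : ℝ => x⁻¹) x = ↑ux⁻¹ := by
    rw [← hux]
    exact cfc_inv_id ux (by rw [hux]; exact hx)
  have e2 : cfc (fun x : ℝ => x⁻¹) y = ↑uy⁻¹ := by
    rw [← huy]
    exact cfc_inv_id uy (by rw [huy]; exact hy)
  rw [e1, e2]
  -- square root of `a`
  have hs := CFC.sqrt_mul_sqrt_self a ha
  set s := CFC.sqrt a with hsdef
  have hs0 : 0 ≤ s := CFC.sqrt_nonneg a
  have hsa : IsSelfAdjoint s := hs0.isSelfAdjoint
  have key : ∀ w : A, τ (w * a) = τ (s * w * s) := by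
    intro w
    rw [← hs, ← mul_assoc, hτ.tr (w * s) s, ← mul_assoc]
  rw [key, key]
  apply hD1
  have h3 := conjugate_le_conjugate_of_nonneg hinv hs0
  exact h3

end D2sec

theorem t_D2 (h1 : P_B2) (h2 : P_D1) : P_D2 := by
  intro A _ _ _ τ hτ a b ha hb
  obtain ⟨hD1, -⟩ := h2 A τ hτ
  set δ : ℝ := 1 / (2 * (‖a‖ + 1)) with hδ
  have hδ0 : 0 < δ := by positivity
  have hsub : ∀ t ∈ Set.Icc (0 : ℝ) 1, t ∈ Set.Ioo (-δ) (1 + δ) := by
    intro t ht
    exact ⟨by linarith [ht.1], by linarith [ht.2]⟩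
  set φ : ℝ → ℝ := fun t => (τ (CFC.log (1 + t • a + b))).re - (τ (CFC.log (1 + t • a + 0))).re
    with hφ
  have hder : ∀ t ∈ Set.Icc (0 : ℝ) 1, HasDerivAt φ
      ((τ (cfc (fun x : ℝ => x⁻¹) (1 + t • a + b) * a)).re -
        (τ (cfc (fun x : ℝ => x⁻¹) (1 + t • a + 0) * a)).re) t := by
    intro t ht
    have e1 := D2_der h1 τ hτ a b ha hb t (hsub t ht)
    have e2 := D2_der h1 τ hτ a 0 ha le_rfl t (hsub t ht)
    exact (Complex.reCLM.hasFDerivAt.comp_hasDerivAt t e1).sub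
      (Complex.reCLM.hasFDerivAt.comp_hasDerivAt t e2)
  have hneg : ∀ t ∈ Set.Icc (0 : ℝ) 1, (τ (cfc (fun x : ℝ => x⁻¹) (1 + t • a + b) * a)).re -
        (τ (cfc (fun x : ℝ => x⁻¹) (1 + t • a + 0) * a)).re ≤ 0 := by
    intro t ht
    obtain ⟨s1, s2, s3⟩ := D2_bounds a b ha hb t (hsub t ht)
    obtain ⟨r1, r2, r3⟩ := D2_bounds a 0 ha le_rfl t (hsub t ht)
    have := D2_inv τ hτ hD1 a _ _ ha r1 s1 r2 (by gcongr)
    linarith
  have hanti : AntitoneOn φ (Set.Icc 0 1) := by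
    apply antitoneOn_of_deriv_nonpos (convex_Icc 0 1)
    · intro t ht
      exact (hder t ht).continuousAt.continuousWithinAt
    · intro t ht
      rw [interior_Icc] at ht
      exact (hder t ⟨ht.1.le, ht.2.le⟩).differentiableAt.differentiableWithinAt
    · intro t ht
      rw [interior_Icc] at ht
      have ht' : t ∈ Set.Icc (0 : ℝ) 1 := ⟨ht.1.le, ht.2.le⟩
      rw [(hder t ht').deriv]
      exact hneg t ht'
  have hfin := hanti (Set.left_mem_Icc.2 zero_le_one) (Set.right_mem_Icc.2 zero_le_one)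
    zero_le_one
  simp only [hφ, one_smul, zero_smul, add_zero] at hfin
  rw [CFC.log_one, map_zero, Complex.zero_re, sub_zero] at hfin
  linarith

end Pool.Agent.H712R5.BO
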