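import Pool.Agent.H712R5.BO.Stmts

/-!
D3: finite sums
-/

set_option autoImplicit false
open scoped ComplexConjugate InnerProductSpace Topology
open Filter MeasureTheory NormedSpace

namespace Pool.Agent.H712R5.BO

theorem t_D3 (h : P_D2) : P_D3 := by
  intro A _ _ _ τ hτ n
  induction n with
  | zero =>
    intro a _
    simp [CFC.log_one]
  | succ n ih =>
    intro a ha
    rw [Fin.sum_univ_castSucc, Fin.sum_univ_castSucc, ← add_assoc]
    have h1 := h A τ hτ (∑ j : Fin n, a j.castSucc) (a (Fin.last n))
      (Finset.sum_nonneg fun j _ => ha _) (ha _)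
    have h2 := ih (fun j => a j.castSucc) (fun j => ha _)
    linarith

end Pool.Agent.H712R5.BO
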