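import Pool.Agent.H712R5.BO.Stmts

/-! D4: `τ log (1 + e^L) ≤ log 2 + ‖L‖_2`. -/

set_option autoImplicit false
open scoped ComplexConjugate InnerProductSpace Topology
open Filter MeasureTheory NormedSpace

namespace Pool.Agent.H712R5.BO

theorem D4_mono {A : Type} [CStarAlgebra A] [PartialOrder A] [StarOrderedRing A]
    {τ : A →L[ℂ] ℂ} (hτ : TrSt τ) {a b : A} (hab : a ≤ b) : (τ a).re ≤ (τ b).re := by
  have h1 : 0 ≤ b - a := sub_nonneg.2 hab
  obtain ⟨c, hc⟩ := CStarAlgebra.nonneg_iff_eq_star_mul_self.1 h1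
  have h2 := hτ.pos c
  rw [← hc, map_sub, Complex.sub_re] at h2
  linarith

theorem t_D4 (h : P_B1) : P_D4 := by
  intro A _ τ hτ L hL
  let _ := CStarAlgebra.spectralOrder A
  have := CStarAlgebra.spectralOrderedRing A
  obtain ⟨-, -, -, -, -, -, hB, -, -, -, -⟩ := h A τ hτ
  have e1 : exp L = cfc Real.exp L := (CFC.real_exp_eq_normedSpace_exp hL).symm
  have e2 : 1 + exp L = cfc (fun x : ℝ => 1 + Real.exp x) L := by
    rw [cfc_const_add (1 : ℝ) Real.exp L (by fun_prop) hL, map_one, e1]
  have e3 : CFC.log (1 + exp L) = cfc (fun x : ℝ => Real.log (1 + Real.exp x)) L := by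
    rw [e2]
    unfold CFC.log
    have hc : ContinuousOn Real.log ((fun x : ℝ => 1 + Real.exp x) '' spectrum ℝ L) := by
      refine Real.continuousOn_log.mono ?_
      rintro _ ⟨x, -, rfl⟩
      have : (0:ℝ) < 1 + Real.exp x := by positivity
      exact this.ne'
    exact (cfc_comp Real.log (fun x : ℝ => 1 + Real.exp x) L hL hc (by fun_prop)).symm
  have e4 : cfc (fun x : ℝ => Real.log (1 + Real.exp x)) L ≤
      cfc (fun x : ℝ => Real.log 2 + |x|) L := by
    refine cfc_mono ?_ ?_ ?_
    · intro x _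
      have h1 : 1 + Real.exp x ≤ 2 * Real.exp |x| := by
        have h2 : Real.exp x ≤ Real.exp |x| := Real.exp_le_exp.2 (le_abs_self x)
        have h3 : 1 ≤ Real.exp |x| := Real.one_le_exp (abs_nonneg x)
        linarith
      calc Real.log (1 + Real.exp x) ≤ Real.log (2 * Real.exp |x|) :=
            Real.log_le_log (by positivity) h1
        _ = Real.log 2 + |x| := by
            rw [Real.log_mul (by norm_num) (Real.exp_pos _).ne', Real.log_exp]
    · refine Continuous.continuousOn ?_
      refine Continuous.log (by fun_prop) ?_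
      intro x
      have : (0:ℝ) < 1 + Real.exp x := by positivity
      exact this.ne'
    · fun_prop
  have e5 : cfc (fun x : ℝ => Real.log 2 + |x|) L =
      algebraMap ℝ A (Real.log 2) + cfc (fun x : ℝ => |x|) L :=
    cfc_const_add (Real.log 2) (fun x : ℝ => |x|) L (by fun_prop) hL
  have e6 : star (cfc (fun x : ℝ => |x|) L) * cfc (fun x : ℝ => |x|) L = star L * L := by
    have hs : IsSelfAdjoint (cfc (fun x : ℝ => |x|) L) := cfc_predicate _ _
    rw [hs.star_eq, hL.star_eq, ← cfc_mul (fun x : ℝ => |x|) (fun x : ℝ => |x|) L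
      (by fun_prop) (by fun_prop)]
    have : (fun x : ℝ => |x| * |x|) = fun x : ℝ => x * x := by
      funext x
      exact abs_mul_abs_self x
    rw [this, cfc_mul (fun x : ℝ => x) (fun x : ℝ => x) L (by fun_prop) (by fun_prop),
      cfc_id' ℝ L hL]
  have e7 : n2 τ (cfc (fun x : ℝ => |x|) L) = n2 τ L := by
    unfold n2
    rw [e6]
  have e8 : n2 τ (1 : A) = 1 := by
    unfold n2
    rw [star_one, one_mul, hτ.one, Complex.one_re, Real.sqrt_one]
  have e9 : (τ (cfc (fun x : ℝ => |x|) L)).re ≤ n2 τ L := by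
    have h1 := hB 1 (cfc (fun x : ℝ => |x|) L)
    rw [one_mul, e7, e8, one_mul] at h1
    exact (Complex.re_le_norm _).trans h1
  have e10 : (τ (algebraMap ℝ A (Real.log 2))).re = Real.log 2 := by
    rw [Algebra.algebraMap_eq_smul_one, ← Complex.coe_smul, map_smul, hτ.one, smul_eq_mul,
      mul_one, Complex.ofReal_re]
  rw [e3]
  refine (D4_mono hτ e4).trans ?_
  rw [e5, map_add, Complex.add_re, e10]
  linarith

end Pool.Agent.H712R5.BO
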