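import Pool.Agent.H712R5.BO.Stmts

/-!
D5: averages over roots of unity pick the k-th term (helper254).
-/

set_option autoImplicit false
open scoped ComplexConjugate InnerProductSpace Topology
open Filter MeasureTheory NormedSpace

namespace Pool.Agent.H712R5.BO

theorem D5_hasSum {A : Type} [CStarAlgebra A] (T : A) (k : ℕ) (z : ℂ) :
    HasSum (fun m : ℕ => z ^ m • (((m.factorial : ℂ)⁻¹) • ((k : ℂ) • T) ^ m))
      (ex ((k : ℂ) * z) T) := by
  have h := NormedSpace.exp_series_hasSum_exp' (𝕂 := ℂ) (((k : ℂ) * z) • T)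
  unfold ex
  convert h using 2 with m
  rw [mul_comm (k : ℂ) z, mul_smul, smul_pow z, smul_comm]

theorem D5_rt (n s : ℕ) (_hn : n ≠ 0) : rt n s = (Complex.exp (2 * Real.pi * Complex.I / n)) ^ s := by
  unfold rt
  rw [← Complex.exp_nat_mul]
  congr 1
  ring

theorem D5_norm_rt (n s : ℕ) : ‖rt n s‖ = 1 := by
  unfold rt
  have : (2 * Real.pi * Complex.I * s / n : ℂ) = ((2 * Real.pi * s / n : ℝ) : ℂ) * Complex.I := by
    push_cast
    ring
  rw [this, Complex.norm_exp_ofReal_mul_I]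

theorem D5_sum (k m n : ℕ) (hk : k < n) (hm : m < n) :
    ∑ s ∈ Finset.range n, (rt n s) ^ (-(k:ℤ)) * (rt n s) ^ m = if m = k then (n : ℂ) else 0 := by
  have hn : n ≠ 0 := by omega
  have hζ := Complex.isPrimitiveRoot_exp n hn
  set ζ := Complex.exp (2 * Real.pi * Complex.I / n) with hζd
  have hz0 : ζ ≠ 0 := Complex.exp_ne_zero _
  have h1 : ∀ s ∈ Finset.range n, (rt n s) ^ (-(k:ℤ)) * (rt n s) ^ m = (ζ ^ ((m:ℤ) - k)) ^ s := by
    intro s _
    rw [D5_rt n s hn, ← hζd]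
    rw [← zpow_natCast (ζ ^ s) m, ← zpow_add₀ (pow_ne_zero s hz0), ← zpow_natCast ζ s,
      ← zpow_mul, ← zpow_natCast (ζ ^ ((m:ℤ) - k)) s, ← zpow_mul]
    congr 1
    ring
  rw [Finset.sum_congr rfl h1]
  split_ifs with hmk
  · subst hmk
    simp
  · have h2 : ζ ^ ((m:ℤ) - k) ≠ 1 := by
      intro h3
      rw [hζ.zpow_eq_one_iff_dvd] at h3
      have h4 : ((m:ℤ) - k) = 0 := by
        apply Int.eq_zero_of_abs_lt_dvd h3
        rw [abs_lt]
        constructor <;> omega
      omega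
    rw [geom_sum_eq h2]
    have h5 : (ζ ^ ((m:ℤ) - k)) ^ n = 1 := by
      rw [← zpow_natCast (ζ ^ ((m:ℤ) - k)) n, ← zpow_mul, mul_comm, zpow_mul, zpow_natCast,
        hζ.pow_eq_one, one_zpow]
    rw [h5, sub_self, zero_div]

theorem t_D5 : P_D5 := by
  intro A _ T k _
  set c : ℕ → ℕ → ℂ := fun n m =>
    (1/(n:ℂ)) * ∑ s ∈ Finset.range n, (rt n s) ^ (-(k:ℤ)) * (rt n s) ^ m with hc
  set u : ℕ → A := fun m => ((m.factorial : ℂ)⁻¹) • ((k : ℂ) • T) ^ m with hu
  have hA : ∀ n : ℕ, HasSum (fun m : ℕ => c n m • u m)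
      ((1/(n:ℂ)) • ∑ s ∈ Finset.range n, (rt n s) ^ (-(k:ℤ)) • ex (k * rt n s) T) := by
    intro n
    have h1 : ∀ s ∈ Finset.range n, HasSum (fun m : ℕ => (rt n s) ^ (-(k:ℤ)) •
        ((rt n s) ^ m • u m)) ((rt n s) ^ (-(k:ℤ)) • ex (k * rt n s) T) := by
      intro s _
      exact (D5_hasSum T k (rt n s)).const_smul _
    have h2 := (hasSum_sum h1).const_smul (1/(n:ℂ))
    convert h2 using 2 with m
    rw [hc]
    simp only
    rw [mul_smul, Finset.sum_smul]
    congr 1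
    refine Finset.sum_congr rfl (fun s _ => ?_)
    rw [mul_smul]
  have hA' : ∀ n : ℕ, (1/(n:ℂ)) • ∑ s ∈ Finset.range n, (rt n s) ^ (-(k:ℤ)) • ex (k * rt n s) T
      = ∑' m, c n m • u m := fun n => (hA n).tsum_eq.symm
  simp_rw [hA']
  have hlim : (((k:ℂ) ^ k / (k.factorial : ℂ)) • T ^ k) =
      ∑' m, (if m = k then (1:ℂ) else 0) • u m := by
    rw [tsum_eq_single k]
    · rw [hu]
      simp only [if_true, one_smul]
      rw [smul_pow, smul_smul]
      congr 1
      rw [mul_comm, div_eq_mul_inv]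
    · intro m hm
      simp [hm]
  rw [hlim]
  refine tendsto_tsum_of_dominated_convergence (bound := fun m => ‖u m‖) ?_ ?_ ?_
  · exact NormedSpace.norm_expSeries_summable' (𝕂 := ℂ) ((k : ℂ) • T)
  · intro m
    refine tendsto_const_nhds.congr' ?_
    filter_upwards [eventually_gt_atTop (max k m)] with n hn
    have hk : k < n := lt_of_le_of_lt (le_max_left _ _) hn
    have hm : m < n := lt_of_le_of_lt (le_max_right _ _) hn
    rw [hc]
    simp only
    rw [D5_sum k m n hk hm]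
    split_ifs with h
    · have hn0 : (n:ℂ) ≠ 0 := by
        have : n ≠ 0 := by omega
        exact_mod_cast this
      rw [one_div, inv_mul_cancel₀ hn0]
    · simp
  · refine Eventually.of_forall (fun n m => ?_)
    rw [norm_smul]
    have h1 : ‖c n m‖ ≤ 1 := by
      rw [hc]
      simp only
      rw [norm_mul]
      have h2 : ‖∑ s ∈ Finset.range n, (rt n s) ^ (-(k:ℤ)) * (rt n s) ^ m‖ ≤ n := by
        refine (norm_sum_le _ _).trans ?_
        have h3 : ∀ s ∈ Finset.range n, ‖(rt n s) ^ (-(k:ℤ)) * (rt n s) ^ m‖ = 1 := by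
          intro s _
          rw [norm_mul, norm_zpow, norm_pow, D5_norm_rt]
          simp
        rw [Finset.sum_congr rfl h3]
        simp
      rcases Nat.eq_zero_or_pos n with h0 | h0
      · subst h0
        simp
      · have hn0 : (0:ℝ) < n := by exact_mod_cast h0
        calc ‖(1/(n:ℂ))‖ * ‖∑ s ∈ Finset.range n, (rt n s) ^ (-(k:ℤ)) * (rt n s) ^ m‖
            ≤ ‖(1/(n:ℂ))‖ * n := by gcongr
          _ = 1 := by
              rw [norm_div, norm_one, Complex.norm_natCast]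
              field_simp
    calc ‖c n m‖ * ‖u m‖ ≤ 1 * ‖u m‖ := by gcongr
      _ = ‖u m‖ := one_mul _

end Pool.Agent.H712R5.BO
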