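import Pool.Agent.H712R5.BO.Stmts

/-!
D6: operator inequality (helper254).
-/

set_option autoImplicit false
open scoped ComplexConjugate InnerProductSpace Topology
open Filter MeasureTheory NormedSpace

namespace Pool.Agent.H712R5.BO

theorem D6_norm_exp {A : Type} [CStarAlgebra A] (x : A) : ‖exp x‖ ≤ Real.exp ‖x‖ := by
  rcases subsingleton_or_nontrivial A with h | h
  · have h0 : exp x = 0 := Subsingleton.elim _ _
    rw [h0, norm_zero]
    exact (Real.exp_pos _).le
  · have h1 := NormedSpace.exp_series_hasSum_exp' (𝕂 := ℝ) x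
    have h2 := NormedSpace.exp_series_hasSum_exp' (𝕂 := ℝ) ‖x‖
    rw [← Real.exp_eq_exp_ℝ] at h2
    refine h1.norm_le_of_bounded h2 (fun n => ?_)
    rw [norm_smul]
    have h3 : ‖x ^ n‖ ≤ ‖x‖ ^ n := norm_pow_le x n
    have h4 : ‖((n.factorial : ℝ)⁻¹)‖ = ((n.factorial : ℝ)⁻¹) := by
      rw [Real.norm_eq_abs, abs_of_nonneg (by positivity)]
    rw [h4, smul_eq_mul]
    gcongr

theorem D6_norm_rt (n s : ℕ) : ‖rt n s‖ = 1 := by
  unfold rt
  have : (2 * Real.pi * Complex.I * s / n : ℂ) = ((2 * Real.pi * s / n : ℝ) : ℂ) * Complex.I := by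
    push_cast
    ring
  rw [this, Complex.norm_exp_ofReal_mul_I]

theorem D6_rt_sub (M n' j i : ℕ) (hM : 1 ≤ M) (hn : 1 ≤ n') (hi : i < n') :
    ‖rt (M * n') (j * n' + i) - rt M j‖ ≤ 2 * Real.pi / M := by
  have hM0 : (M:ℂ) ≠ 0 := by
    have : M ≠ 0 := by omega
    exact_mod_cast this
  have hn0 : (n':ℂ) ≠ 0 := by
    have : n' ≠ 0 := by omega
    exact_mod_cast this
  have h1 : rt (M * n') (j * n' + i) = rt M j *
      Complex.exp (Complex.I * ((2 * Real.pi * i / (M * n') : ℝ) : ℂ)) := by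
    unfold rt
    rw [← Complex.exp_add]
    congr 1
    push_cast
    field_simp
  rw [h1]
  have h2 : rt M j * Complex.exp (Complex.I * ((2 * Real.pi * i / (M * n') : ℝ) : ℂ)) - rt M j
      = rt M j * (Complex.exp (Complex.I * ((2 * Real.pi * i / (M * n') : ℝ) : ℂ)) - 1) := by ring
  rw [h2, norm_mul, D6_norm_rt, one_mul]
  refine Real.norm_exp_I_mul_ofReal_sub_one_le.trans ?_
  have hM1 : (0:ℝ) < M := by exact_mod_cast (by omega : 0 < M)
  have hn1 : (0:ℝ) < n' := by exact_mod_cast (by omega : 0 < n')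
  have hi1 : (i:ℝ) ≤ n' := by exact_mod_cast hi.le
  rw [Real.norm_eq_abs, abs_of_nonneg (by positivity)]
  rw [div_le_div_iff₀ (by positivity) hM1]
  have hpi := Real.pi_pos
  nlinarith [mul_le_mul_of_nonneg_left hi1 (by positivity : 0 ≤ 2 * Real.pi * M)]

theorem D6_mean {A : Type} [CStarAlgebra A] [PartialOrder A] [StarOrderedRing A] (n : ℕ)
    (hn : 1 ≤ n) (Z : ℕ → A) :
    star ((1/(n:ℂ)) • ∑ s ∈ Finset.range n, Z s) * ((1/(n:ℂ)) • ∑ s ∈ Finset.range n, Z s)
      ≤ (1/(n:ℝ)) • ∑ s ∈ Finset.range n, star (Z s) * Z s := by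
  set y := (1/(n:ℂ)) • ∑ s ∈ Finset.range n, Z s with hy
  have hn0 : (n:ℂ) ≠ 0 := by
    have : n ≠ 0 := by omega
    exact_mod_cast this
  have hn1 : (n:ℝ) ≠ 0 := by
    have : n ≠ 0 := by omega
    exact_mod_cast this
  have hsum : ∑ s ∈ Finset.range n, Z s = (n:ℝ) • y := by
    rw [hy]
    have : ((n:ℝ)) • ((1/(n:ℂ)) • ∑ s ∈ Finset.range n, Z s)
        = ((n:ℂ)) • ((1/(n:ℂ)) • ∑ s ∈ Finset.range n, Z s) := by
      rw [Nat.cast_smul_eq_nsmul, Nat.cast_smul_eq_nsmul]
    rw [this, smul_smul, mul_one_div_cancel hn0, one_smul]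
  clear_value y
  have h1 : 0 ≤ ∑ s ∈ Finset.range n, star (Z s - y) * (Z s - y) :=
    Finset.sum_nonneg (fun s _ => star_mul_self_nonneg _)
  have h2 : ∑ s ∈ Finset.range n, star (Z s - y) * (Z s - y)
      = ∑ s ∈ Finset.range n, star (Z s) * Z s - (n:ℝ) • (star y * y) := by
    have h3 : ∀ s ∈ Finset.range n, star (Z s - y) * (Z s - y)
        = star (Z s) * Z s - star (Z s) * y - star y * Z s + star y * y := by
      intro s _
      rw [star_sub]
      noncomm_ring
    rw [Finset.sum_congr rfl h3, Finset.sum_add_distrib, Finset.sum_sub_distrib,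
      Finset.sum_sub_distrib, ← Finset.sum_mul, ← Finset.mul_sum, ← star_sum, hsum]
    rw [star_smul, star_trivial, smul_mul_assoc, mul_smul_comm]
    rw [Finset.sum_const, Finset.card_range, ← Nat.cast_smul_eq_nsmul ℝ]
    abel
  rw [h2] at h1
  have h4 : (n:ℝ) • (star y * y) ≤ ∑ s ∈ Finset.range n, star (Z s) * Z s := sub_nonneg.mp h1
  have h5 := smul_le_smul_of_nonneg_left h4 (by positivity : (0:ℝ) ≤ 1/(n:ℝ))
  rw [smul_smul, one_div_mul_cancel hn1, one_smul] at h5
  exact h5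

theorem D6_term {A : Type} [CStarAlgebra A] [PartialOrder A] [StarOrderedRing A] (T : A)
    (k M n' j i : ℕ) (hM : 1 ≤ M) (hn : 1 ≤ n') (hi : i < n') :
    star (ex (k * rt (M * n') (j * n' + i)) T) * ex (k * rt (M * n') (j * n' + i)) T
      ≤ Real.exp (4 * Real.pi * k * ‖T‖ / M) • (star (ex (k * rt M j) T) * ex (k * rt M j) T) := by
  set W := ex (k * rt M j) T with hW
  set V := ex (k * (rt (M * n') (j * n' + i) - rt M j)) T with hV
  have hX : ex (k * rt (M * n') (j * n' + i)) T = V * W := by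
    rw [hV, hW]
    unfold ex
    let _ : NormedAlgebra ℚ A := NormedAlgebra.restrictScalars ℚ ℂ A
    rw [← NormedSpace.exp_add_of_commute]
    · congr 1
      rw [← add_smul]
      congr 1
      ring
    · exact ((Commute.refl T).smul_left _).smul_right _
  have hVn : ‖V‖ ≤ Real.exp (2 * Real.pi * k * ‖T‖ / M) := by
    rw [hV]
    unfold ex
    refine (D6_norm_exp _).trans (Real.exp_le_exp.mpr ?_)
    rw [norm_smul, norm_mul, Complex.norm_natCast]
    have h1 := D6_rt_sub M n' j i hM hn hi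
    calc (k:ℝ) * ‖rt (M * n') (j * n' + i) - rt M j‖ * ‖T‖
        ≤ (k:ℝ) * (2 * Real.pi / M) * ‖T‖ := by gcongr
      _ = 2 * Real.pi * k * ‖T‖ / M := by ring
  rw [hX]
  have h2 : star (V * W) * (V * W) = star W * (star V * V) * W := by
    rw [star_mul]
    noncomm_ring
  rw [h2]
  refine (CStarAlgebra.star_left_conjugate_le_norm_smul (a := W) (b := star V * V)
    (IsSelfAdjoint.star_mul_self V)).trans ?_
  have h3 : ‖star V * V‖ ≤ Real.exp (4 * Real.pi * k * ‖T‖ / M) := by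
    rw [CStarRing.norm_star_mul_self]
    calc ‖V‖ * ‖V‖ ≤ Real.exp (2 * Real.pi * k * ‖T‖ / M) * Real.exp (2 * Real.pi * k * ‖T‖ / M) := by
          gcongr
      _ = Real.exp (4 * Real.pi * k * ‖T‖ / M) := by
          rw [← Real.exp_add]
          congr 1
          ring
  exact smul_le_smul_of_nonneg_right h3 (star_mul_self_nonneg W)

theorem D6_range_mul {A : Type} [CStarAlgebra A] (f : ℕ → A) (M n' : ℕ) :
    ∑ s ∈ Finset.range (M * n'), f s
      = ∑ j ∈ Finset.range M, ∑ i ∈ Finset.range n', f (j * n' + i) := by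
  induction M with
  | zero => simp
  | succ M ih =>
    rw [Finset.sum_range_succ, ← ih, Nat.succ_mul, Finset.sum_range_add]

theorem D6_sum {A : Type} [CStarAlgebra A] [PartialOrder A] [StarOrderedRing A] (T : A)
    (k M n' : ℕ) (hM : 1 ≤ M) (hn : 1 ≤ n') :
    (1/((M * n' : ℕ):ℝ)) • ∑ s ∈ Finset.range (M * n'),
        star (ex (k * rt (M * n') s) T) * ex (k * rt (M * n') s) T
      ≤ Real.exp (4 * Real.pi * k * ‖T‖ / M) •
        ∑ j : Fin M, star (ex (k * rt M j) T) * ex (k * rt M j) T := by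
  have hM1 : (0:ℝ) < M := by exact_mod_cast (by omega : 0 < M)
  have hM2 : (1:ℝ) ≤ M := by exact_mod_cast hM
  have hn1 : (0:ℝ) < n' := by exact_mod_cast (by omega : 0 < n')
  set B : ℕ → A := fun j => star (ex (k * rt M j) T) * ex (k * rt M j) T with hB
  set E := Real.exp (4 * Real.pi * k * ‖T‖ / M) with hE
  have hEpos : 0 < E := Real.exp_pos _
  have h1 : ∑ s ∈ Finset.range (M * n'),
        star (ex (k * rt (M * n') s) T) * ex (k * rt (M * n') s) T
      = ∑ j ∈ Finset.range M, ∑ i ∈ Finset.range n',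
        star (ex (k * rt (M * n') (j * n' + i)) T) * ex (k * rt (M * n') (j * n' + i)) T := by
    rw [D6_range_mul]
  have h2 : ∑ s ∈ Finset.range (M * n'),
        star (ex (k * rt (M * n') s) T) * ex (k * rt (M * n') s) T
      ≤ ∑ j ∈ Finset.range M, (n':ℝ) • (E • B j) := by
    rw [h1]
    refine Finset.sum_le_sum (fun j _ => ?_)
    have h3 : (n':ℝ) • (E • B j) = ∑ i ∈ Finset.range n', E • B j := by
      rw [Finset.sum_const, Finset.card_range, Nat.cast_smul_eq_nsmul]
    rw [h3]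
    refine Finset.sum_le_sum (fun i hi => ?_)
    exact D6_term T k M n' j i hM hn (Finset.mem_range.mp hi)
  have h4 := smul_le_smul_of_nonneg_left h2
    (by positivity : (0:ℝ) ≤ 1/((M * n' : ℕ):ℝ))
  refine h4.trans ?_
  rw [← Finset.smul_sum, ← Finset.smul_sum, smul_smul, smul_smul]
  have h5 : ∑ j : Fin M, star (ex (k * rt M j) T) * ex (k * rt M j) T
      = ∑ j ∈ Finset.range M, B j := by
    rw [← Fin.sum_univ_eq_sum_range]
  rw [h5]
  refine smul_le_smul_of_nonneg_right ?_ (Finset.sum_nonneg (fun j _ => star_mul_self_nonneg _))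
  have h6 : 1/((M * n' : ℕ):ℝ) * (n' * E) = (1 / M) * E := by
    push_cast
    field_simp
  have h8 : 1/((M * n' : ℕ):ℝ) * n' * E = (1 / M) * E := by
    rw [mul_assoc]
    exact h6
  rw [h8]
  have h7 : 1 / (M:ℝ) ≤ 1 := by
    rw [div_le_one hM1]
    exact hM2
  nlinarith

theorem t_D6 (h : P_D5) : P_D6 := by
  intro A _ _ _ T k M hk hM
  have hlim := h A T k hk
  set C : A := (((k:ℂ) ^ k / (k.factorial : ℂ)) • T ^ k) with hC
  -- subsequence n = M * n'
  have hsub : Tendsto (fun n' : ℕ => M * n') atTop atTop := by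
    refine tendsto_atTop_mono (fun n' => ?_) tendsto_id
    exact Nat.le_mul_of_pos_left n' (by omega)
  have hlim2 := hlim.comp hsub
  have hlim3 : Tendsto (fun n' : ℕ =>
      star ((1/((M * n' : ℕ):ℂ)) • ∑ s ∈ Finset.range (M * n'),
        (rt (M * n') s) ^ (-(k:ℤ)) • ex (k * rt (M * n') s) T)
      * ((1/((M * n' : ℕ):ℂ)) • ∑ s ∈ Finset.range (M * n'),
        (rt (M * n') s) ^ (-(k:ℤ)) • ex (k * rt (M * n') s) T)) atTop (𝓝 (star C * C)) := by
    have h1 : Tendsto (fun n' : ℕ => ((1/((M * n' : ℕ):ℂ)) • ∑ s ∈ Finset.range (M * n'),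
        (rt (M * n') s) ^ (-(k:ℤ)) • ex (k * rt (M * n') s) T)) atTop (𝓝 C) := hlim2
    exact h1.star.mul h1
  have hbound : star C * C ≤ Real.exp (4 * Real.pi * k * ‖T‖ / M) •
        ∑ j : Fin M, star (ex (k * rt M j) T) * ex (k * rt M j) T := by
    refine le_of_tendsto hlim3 ?_
    filter_upwards [eventually_ge_atTop 1] with n' hn'
    refine (D6_mean (M * n') (by nlinarith) _).trans ?_
    refine le_trans (le_of_eq ?_) (D6_sum T k M n' hM hn')
    congr 1
    refine Finset.sum_congr rfl (fun s _ => ?_)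
    rw [star_smul, smul_mul_smul_comm]
    have h2 : star ((rt (M * n') s) ^ (-(k:ℤ))) * (rt (M * n') s) ^ (-(k:ℤ)) = 1 := by
      rw [Complex.star_def, ← Complex.normSq_eq_conj_mul_self, Complex.normSq_eq_norm_sq, norm_zpow,
        D6_norm_rt]
      simp
    rw [h2, one_smul]
  -- conclusion
  have hkf : (0:ℝ) < (k.factorial : ℝ) := by exact_mod_cast Nat.factorial_pos k
  have hkk : (0:ℝ) < (k:ℝ) ^ k := by
    have : (0:ℝ) < k := by exact_mod_cast (by omega : 0 < k)
    positivity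
  have hCC : star C * C = (((k:ℝ) ^ k / (k.factorial : ℝ)) ^ 2) • (star (T ^ k) * T ^ k) := by
    have hC' : C = ((k:ℝ) ^ k / (k.factorial : ℝ)) • T ^ k := by
      rw [hC, ← Complex.coe_smul]
      congr 1
      push_cast
      rfl
    rw [hC', star_smul, star_trivial, smul_mul_smul_comm, ← pow_two]
  rw [hCC] at hbound
  have h8 := smul_le_smul_of_nonneg_left hbound (by positivity : (0:ℝ) ≤ (ck k) ^ 2)
  rw [smul_smul, smul_smul] at h8
  have h9 : (ck k) ^ 2 * ((k:ℝ) ^ k / (k.factorial : ℝ)) ^ 2 = 1 := by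
    unfold ck
    field_simp
  rw [h9, one_smul] at h8
  exact h8

end Pool.Agent.H712R5.BO
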