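import Pool.Agent.H712R5.BO.Stmts

set_option autoImplicit false
open scoped ComplexConjugate InnerProductSpace Topology
open Filter MeasureTheory NormedSpace

namespace Pool.Agent.H712R5.BO

theorem D7_algMap {A : Type} [CStarAlgebra A] (τ : A →L[ℂ] ℂ) (hτ : TrSt τ) (x : ℝ) :
    (τ (algebraMap ℝ A x)).re = x := by
  have h : algebraMap ℝ A x = (x : ℂ) • (1 : A) := by
    rw [Algebra.algebraMap_eq_smul_one]
    exact (Complex.coe_smul x (1 : A)).symm
  rw [h, map_smul, hτ.one]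
  simp

theorem D7_ck_pos {k : ℕ} (hk : 1 ≤ k) : 0 < ck k := by
  unfold ck
  have : (0 : ℝ) < k := by exact_mod_cast hk
  positivity

theorem t_D7 (h1 : P_B4u) (h2 : P_D1) (h3 : P_D3) (h4 : P_D4) (h5 : P_D6) : P_D7 := by
  intro A _ τ hτ T k M hk hM
  let := CStarAlgebra.spectralOrder A
  have := CStarAlgebra.spectralOrderedRing A
  let : NormedAlgebra ℚ A := NormedAlgebra.restrictScalars ℚ ℂ A
  obtain ⟨b1, b2, -⟩ := h1 A τ hτ
  obtain ⟨d1, d2⟩ := h2 A τ hτ
  have hc : 0 < ck k := D7_ck_pos hk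
  set C : ℝ := Real.exp (4 * Real.pi * k * ‖T‖ / M) with hC
  have hC1 : 1 ≤ C := by
    rw [hC, ← Real.exp_zero]
    apply Real.exp_le_exp.mpr
    have := Real.pi_pos
    positivity
  set a : Fin M → A := fun j => star (ex (k * rt M j) T) * ex (k * rt M j) T with ha
  have ha0 : ∀ j, 0 ≤ a j := fun j => star_mul_self_nonneg _
  have hsum0 : 0 ≤ ∑ j, a j := Finset.sum_nonneg fun j _ => ha0 j
  have hD6 : star (T ^ k) * T ^ k ≤ ((ck k) ^ 2 * C) • ∑ j, a j := h5 A T k M hk hM
  have hcC : 0 < (ck k) ^ 2 * C := by positivity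
  have hle : algebraMap ℝ A ((ck k) ^ 2) + star (T ^ k) * T ^ k ≤
      ((ck k) ^ 2 * C) • (1 + ∑ j, a j) := by
    rw [smul_add]
    refine add_le_add ?_ hD6
    rw [← Algebra.algebraMap_eq_smul_one]
    apply algebraMap_mono
    nlinarith [sq_nonneg (ck k)]
  have hpos : IsStrictlyPositive (algebraMap ℝ A ((ck k) ^ 2) + star (T ^ k) * T ^ k) := by
    refine IsStrictlyPositive.add_nonneg ?_ (star_mul_self_nonneg _)
    exact isStrictlyPositive_algebraMap (by positivity)
  have hpos1 : IsStrictlyPositive (1 + ∑ j, a j) :=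
    IsStrictlyPositive.add_nonneg isStrictlyPositive_one hsum0
  have e1 := d2 _ _ hpos hle
  rw [CFC.log_smul' _ hcC hpos1, map_add, Complex.add_re, D7_algMap τ hτ] at e1
  have e2 := h3 A τ hτ M a ha0
  have e3 : ∀ j, (τ (CFC.log (1 + a j))).re ≤ Real.log 2 + NN τ (ex (k * rt M j) T) := by
    intro j
    have hu : IsUnit (ex (k * rt M j) T) := NormedSpace.isUnit_exp _
    have h6 := h4 A τ hτ (Lg (ex (k * rt M j) T)) (b1 _)
    rw [b2 _ hu] at h6
    exact h6
  have e4 : ∑ j, (τ (CFC.log (1 + a j))).re ≤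
      M * Real.log 2 + ∑ j : Fin M, NN τ (ex (k * rt M j) T) := by
    refine (Finset.sum_le_sum fun j _ => e3 j).trans ?_
    rw [Finset.sum_add_distrib]
    simp
  have e5 : Real.log ((ck k) ^ 2 * C) = 2 * Real.log (ck k) + 4 * Real.pi * k * ‖T‖ / M := by
    rw [Real.log_mul (by positivity) (by positivity), Real.log_pow, hC, Real.log_exp]
    push_cast
    ring
  rw [e5] at e1
  linarith

end Pool.Agent.H712R5.BO
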