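import Mathlib

/-!
Bishop operators have nontrivial invariant subspaces (helper712).  Definitions.
-/

set_option autoImplicit false
open scoped ComplexConjugate InnerProductSpace Topology
open Filter MeasureTheory NormedSpace

namespace Pool.Agent.H712R5.BO

/-- A tracial state on a unital C*-algebra. -/
structure TrSt {A : Type} [CStarAlgebra A] (τ : A →L[ℂ] ℂ) : Prop where
  one : τ 1 = 1
  pos : ∀ a : A, 0 ≤ (τ (star a * a)).re
  herm : ∀ a : A, τ (star a) = conj (τ a)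
  tr : ∀ a b : A, τ (a * b) = τ (b * a)

/-- the 2-norm -/
noncomputable def n2 {A : Type} [CStarAlgebra A] (τ : A →L[ℂ] ℂ) (a : A) : ℝ :=
  Real.sqrt (τ (star a * a)).re

/-- `log |S|^2` -/
noncomputable def Lg {A : Type} [CStarAlgebra A] (S : A) : A := CFC.log (star S * S)

/-- `‖log |S|^2‖_2` -/
noncomputable def NN {A : Type} [CStarAlgebra A] (τ : A →L[ℂ] ℂ) (S : A) : ℝ := n2 τ (Lg S)

/-- `‖log (e^{a/2} e^b e^{a/2})‖_2` -/
noncomputable def ff {A : Type} [CStarAlgebra A] (τ : A →L[ℂ] ℂ) (a b : A) : ℝ :=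
  n2 τ (CFC.log (exp ((1/2:ℝ) • a) * exp b * exp ((1/2:ℝ) • a)))

/-- `exp (z T)` -/
noncomputable def ex {A : Type} [CStarAlgebra A] (z : ℂ) (T : A) : A := exp (z • T)

/-- `k! / k^k` -/
noncomputable def ck (k : ℕ) : ℝ := (k.factorial : ℝ) / (k : ℝ) ^ k

/-- the `M`-th roots of unity `exp (2 π i j / M)` -/
noncomputable def rt (M j : ℕ) : ℂ := Complex.exp (2 * Real.pi * Complex.I * j / M)

section Eqv

variable {H : Type} [NormedAddCommGroup H] [InnerProductSpace ℂ H] [CompleteSpace H]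

/-- The C*-algebra of continuous maps `A : 𝕋 → B(H)` with `A(θ) E = E A(θ+β)`. -/
noncomputable def Eqv (E : unitary (H →L[ℂ] H)) (β : UnitAddCircle) :
    StarSubalgebra ℂ C(UnitAddCircle, H →L[ℂ] H) where
  carrier := {A | ∀ θ, A θ * (E : H →L[ℂ] H) = (E : H →L[ℂ] H) * A (θ + β)}
  mul_mem' := by
    intro a b ha hb θ
    simp only [Set.mem_ofPred_eq] at ha hb
    simp only [ContinuousMap.mul_apply]
    rw [mul_assoc, hb, ← mul_assoc, ha, mul_assoc]
  add_mem' := by
    intro a b ha hb θ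
    simp only [Set.mem_ofPred_eq] at ha hb
    simp only [ContinuousMap.add_apply, add_mul, mul_add, ha θ, hb θ]
  algebraMap_mem' := by
    intro r θ
    simp [Algebra.algebraMap_eq_smul_one]
  star_mem' := by
    intro a ha θ
    simp only [Set.mem_ofPred_eq] at ha
    have h1 := congrArg star (ha θ)
    rw [star_mul, star_mul] at h1
    have e1 : (E : H →L[ℂ] H) * star (E : H →L[ℂ] H) = 1 := (Unitary.mem_iff.mp E.2).2
    have e2 : star (E : H →L[ℂ] H) * (E : H →L[ℂ] H) = 1 := (Unitary.mem_iff.mp E.2).1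
    show star (a θ) * (E : H →L[ℂ] H) = (E : H →L[ℂ] H) * star (a (θ + β))
    calc star (a θ) * (E : H →L[ℂ] H)
        = (E : H →L[ℂ] H) * (star (E : H →L[ℂ] H) * star (a θ)) * (E : H →L[ℂ] H) := by
          rw [← mul_assoc, e1, one_mul]
      _ = (E : H →L[ℂ] H) * (star (a (θ + β)) * star (E : H →L[ℂ] H)) * (E : H →L[ℂ] H) := by
          rw [h1]
      _ = (E : H →L[ℂ] H) * star (a (θ + β)) := by
          rw [mul_assoc, mul_assoc, e2, mul_one]

theorem mem_Eqv (E : unitary (H →L[ℂ] H)) (β : UnitAddCircle) (A : C(UnitAddCircle, H →L[ℂ] H)) :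
    A ∈ Eqv E β ↔ ∀ θ, A θ * (E : H →L[ℂ] H) = (E : H →L[ℂ] H) * A (θ + β) := Iff.rfl

instance isClosed_Eqv (E : unitary (H →L[ℂ] H)) (β : UnitAddCircle) :
    IsClosed ((Eqv E β : StarSubalgebra ℂ C(UnitAddCircle, H →L[ℂ] H)) :
      Set C(UnitAddCircle, H →L[ℂ] H)) := by
  have : ((Eqv E β : StarSubalgebra ℂ C(UnitAddCircle, H →L[ℂ] H)) :
      Set C(UnitAddCircle, H →L[ℂ] H))
      = ⋂ θ : UnitAddCircle, {A | A θ * (E : H →L[ℂ] H) = (E : H →L[ℂ] H) * A (θ + β)} := by
    ext A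
    simp only [SetLike.mem_coe, mem_Eqv, Set.mem_iInter]
    rfl
  rw [this]
  refine isClosed_iInter (fun θ => isClosed_eq ?_ ?_)
  · exact (continuous_eval_const θ).mul continuous_const
  · exact continuous_const.mul (continuous_eval_const (θ + β))

noncomputable instance CSA (E : unitary (H →L[ℂ] H)) (β : UnitAddCircle) :
    CStarAlgebra (Eqv E β) := StarSubalgebra.cstarAlgebra (Eqv E β)

/-- evaluation at `θ` -/
noncomputable def ev (E : unitary (H →L[ℂ] H)) (β : UnitAddCircle) (θ : UnitAddCircle) :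
    Eqv E β →⋆ₐ[ℂ] (H →L[ℂ] H) where
  toFun := fun A => (A : C(UnitAddCircle, H →L[ℂ] H)) θ
  map_one' := rfl
  map_mul' := fun _ _ => rfl
  map_zero' := rfl
  map_add' := fun _ _ => rfl
  commutes' := fun r => by
    simp [Algebra.algebraMap_eq_smul_one]
  map_star' := fun _ => rfl

theorem ev_apply (E : unitary (H →L[ℂ] H)) (β : UnitAddCircle) (θ : UnitAddCircle)
    (A : Eqv E β) : ev E β θ A = (A : C(UnitAddCircle, H →L[ℂ] H)) θ := rfl

theorem continuous_ev (E : unitary (H →L[ℂ] H)) (β : UnitAddCircle) (A : Eqv E β) :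
    Continuous (fun θ => ev E β θ A) := (A : C(UnitAddCircle, H →L[ℂ] H)).continuous

theorem integrable_ev (E : unitary (H →L[ℂ] H)) (β : UnitAddCircle) (v w : H) (A : Eqv E β) :
    Integrable (fun θ => ⟪v, ev E β θ A w⟫_ℂ) AddCircle.haarAddCircle := by
  have hc : Continuous (fun θ => ⟪v, ev E β θ A w⟫_ℂ) :=
    continuous_const.inner ((continuous_ev E β A).clm_apply continuous_const)
  exact hc.integrable_of_hasCompactSupport (HasCompactSupport.of_compactSpace _)

/-- `τ(A) = ∫ ⟨v, A(θ) v⟩ dθ` -/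
noncomputable def tauE (E : unitary (H →L[ℂ] H)) (β : UnitAddCircle) (v : H) :
    Eqv E β →L[ℂ] ℂ :=
  LinearMap.mkContinuous
    { toFun := fun A => ∫ θ, ⟪v, ev E β θ A v⟫_ℂ ∂AddCircle.haarAddCircle
      map_add' := by
        intro A B
        rw [← integral_add (integrable_ev E β v v A) (integrable_ev E β v v B)]
        refine integral_congr_ae (Eventually.of_forall (fun θ => ?_))
        simp only [map_add, _root_.add_apply, inner_add_right]
      map_smul' := by
        intro c A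
        rw [RingHom.id_apply, smul_eq_mul, ← integral_const_mul]
        refine integral_congr_ae (Eventually.of_forall (fun θ => ?_))
        have h : ev E β θ (c • A) = c • ev E β θ A := rfl
        show ⟪v, (ev E β θ (c • A)) v⟫_ℂ = c * ⟪v, (ev E β θ A) v⟫_ℂ
        rw [h, _root_.smul_apply, inner_smul_right] }
    (‖v‖ ^ 2) (by
      intro A
      have h1 : ∀ θ : UnitAddCircle, ‖⟪v, ev E β θ A v⟫_ℂ‖ ≤ ‖v‖ ^ 2 * ‖A‖ := by
        intro θ
        have h2 : ‖ev E β θ A‖ ≤ ‖A‖ := (A : C(UnitAddCircle, H →L[ℂ] H)).norm_coe_le_norm θ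
        calc ‖⟪v, ev E β θ A v⟫_ℂ‖ ≤ ‖v‖ * ‖ev E β θ A v‖ := norm_inner_le_norm _ _
          _ ≤ ‖v‖ * (‖ev E β θ A‖ * ‖v‖) := by
              gcongr
              exact (ev E β θ A).le_opNorm v
          _ ≤ ‖v‖ * (‖A‖ * ‖v‖) := by gcongr
          _ = ‖v‖ ^ 2 * ‖A‖ := by ring
      have h3 := norm_integral_le_of_norm_le_const (μ := AddCircle.haarAddCircle)
        (Eventually.of_forall h1)
      simpa using h3)

theorem tauE_apply (E : unitary (H →L[ℂ] H)) (β : UnitAddCircle) (v : H) (A : Eqv E β) :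
    tauE E β v A = ∫ θ, ⟪v, ev E β θ A v⟫_ℂ ∂AddCircle.haarAddCircle := rfl

/-- the element `θ ↦ e^{2 π i θ} T` of `Eqv E β`, for `T E = e^{2 π i β} E T` -/
noncomputable def Tt (E : unitary (H →L[ℂ] H)) (β : UnitAddCircle) (T : H →L[ℂ] H)
    (hT : T * (E : H →L[ℂ] H) = (fourier 1 β : ℂ) • ((E : H →L[ℂ] H) * T)) : Eqv E β :=
  ⟨⟨fun θ => (fourier 1 θ : ℂ) • T, (fourier 1).continuous.smul continuous_const⟩, by
    intro θ
    show ((fourier 1 θ : ℂ) • T) * (E : H →L[ℂ] H)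
      = (E : H →L[ℂ] H) * ((fourier 1 (θ + β) : ℂ) • T)
    rw [smul_mul_assoc, hT, smul_smul, mul_smul_comm]
    congr 1
    simp only [fourier_apply, one_smul, AddCircle.toCircle_add, Circle.coe_mul]⟩

theorem ev_Tt (E : unitary (H →L[ℂ] H)) (β : UnitAddCircle) (T : H →L[ℂ] H)
    (hT : T * (E : H →L[ℂ] H) = (fourier 1 β : ℂ) • ((E : H →L[ℂ] H) * T)) (θ : UnitAddCircle) :
    ev E β θ (Tt E β T hT) = (fourier 1 θ : ℂ) • T := rfl

end Eqv

end Pool.Agent.H712R5.BO
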