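import Pool.Agent.H712R5.BO.Stmts

/-! Task FIN: the frozen statement from MAIN. -/

set_option autoImplicit false
open scoped ComplexConjugate InnerProductSpace Topology
open Filter MeasureTheory NormedSpace

namespace Pool.Agent.H712R5.BO

/-- the function `g` -/
noncomputable def FIN_g (α δ : ℝ) (k : ℕ) (x : ℝ) : ℝ :=
  δ + ∏ j ∈ Finset.range k, (Real.exp 1 * Int.fract (x - (j + 1) * α)) ^ 2

theorem FIN_g_meas (α δ : ℝ) (k : ℕ) : Measurable (FIN_g α δ k) := by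
  unfold FIN_g
  refine measurable_const.add (Finset.measurable_prod _ fun j _ => ?_)
  exact ((measurable_fract.comp (measurable_id.sub_const _)).const_mul _).pow_const 2

theorem FIN_g_bd (α δ : ℝ) (k : ℕ) (x : ℝ) :
    δ ≤ FIN_g α δ k x ∧ FIN_g α δ k x ≤ δ + (Real.exp 1 ^ 2) ^ k := by
  unfold FIN_g
  constructor
  · have : 0 ≤ ∏ j ∈ Finset.range k, (Real.exp 1 * Int.fract (x - (j + 1) * α)) ^ 2 :=
      Finset.prod_nonneg fun j _ => sq_nonneg _
    linarith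
  · have : ∏ j ∈ Finset.range k, (Real.exp 1 * Int.fract (x - (j + 1) * α)) ^ 2 ≤
        ∏ _j ∈ Finset.range k, Real.exp 1 ^ 2 := by
      refine Finset.prod_le_prod (fun j _ => sq_nonneg _) fun j _ => ?_
      refine pow_le_pow_left₀ (mul_nonneg (Real.exp_pos 1).le (Int.fract_nonneg _)) ?_ 2
      exact mul_le_of_le_one_right (Real.exp_pos 1).le (Int.fract_lt_one _).le
    rw [Finset.prod_const, Finset.card_range] at this
    linarith

theorem t_FIN (hM : P_MAIN) (z1 : P_Z1) (z2 : P_Z2) (z3 : P_Z3) (z4 : P_Z4) (z5 : P_Z5)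
    (z6 : P_Z6) (z7 : P_Z7) : P_FIN := by
  intro α hα T0 hT0
  set e : ℝ := Real.exp 1 with he
  have he0 : (e : ℂ) ≠ 0 := by
    rw [he]; exact_mod_cast (Real.exp_pos 1).ne'
  set T : LI →L[ℂ] LI := (e : ℂ) • T0 with hTdef
  have hT : ∀ f : LI, (T f : ℝ → ℂ) =ᵐ[volume.restrict (Set.Ico (0:ℝ) 1)]
      (fun x : ℝ => ((Real.exp 1 * x : ℝ) : ℂ) * (f : ℝ → ℂ) (Int.fract (x + α))) := by
    intro f
    have h1 : T f = (e : ℂ) • T0 f := rfl
    rw [h1]
    filter_upwards [Lp.coeFn_smul (e : ℂ) (T0 f), hT0 f] with x hx hx0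
    rw [hx, Pi.smul_apply, hx0, smul_eq_mul, ← he, Complex.ofReal_mul]
    ring
  obtain ⟨b, E, hb, hE⟩ := z3
  have hEb : ∀ r : ℤ, (E : LI →L[ℂ] LI) (b r) = b (r + 1) := by
    intro r
    apply Lp.ext
    filter_upwards [hE (b r), hb r, hb (r + 1)] with x h1 h2 h3
    rw [h1, h2, h3, ← Complex.exp_add]
    congr 1
    push_cast
    ring
  obtain ⟨hTn, hTE⟩ := z7 α T E hT hE
  obtain ⟨V, hV1, hV2, hV3, hV4⟩ := hM LI b E α hα hEb T hTE hTn (by
    intro k δ _ hδ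
    have hA : ∀ f : LI, ((algebraMap ℝ (LI →L[ℂ] LI) δ + star (T ^ k) * T ^ k) f : ℝ → ℂ)
        =ᵐ[volume.restrict (Set.Ico (0:ℝ) 1)] (fun x => (FIN_g α δ k x : ℂ) * (f : ℝ → ℂ) x) := by
      intro f
      have h1 : (algebraMap ℝ (LI →L[ℂ] LI) δ + star (T ^ k) * T ^ k) f =
          (δ : ℂ) • f + (star (T ^ k) * T ^ k) f := by
        rw [_root_.add_apply, Algebra.algebraMap_eq_smul_one]
        congr 1
      rw [h1]
      filter_upwards [Lp.coeFn_add ((δ : ℂ) • f) ((star (T ^ k) * T ^ k) f),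
        Lp.coeFn_smul (δ : ℂ) f, z6 α T hT k f] with x h2 h3 h4
      rw [h2, Pi.add_apply, h3, h4, Pi.smul_apply, smul_eq_mul]
      unfold FIN_g
      push_cast
      ring
    have hv : (b 0 : ℝ → ℂ) =ᵐ[volume.restrict (Set.Ico (0:ℝ) 1)] (fun _ => 1) := by
      filter_upwards [hb 0] with x hx
      rw [hx]
      simp
    have h5 := z5 _ (FIN_g α δ k) δ (δ + (Real.exp 1 ^ 2) ^ k) (b 0) hδ (FIN_g_meas α δ k)
      (FIN_g_bd α δ k) hA hv
    have h6 := z4 α k δ hδ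
    change 0 ≤ ∫ x in Set.Ico (0:ℝ) 1, Real.log (FIN_g α δ k x) at h6
    exact h6.trans (le_of_eq h5.symm))
  refine ⟨V, hV1, hV2, hV3, fun v hv => ?_⟩
  have h6 : T0 v = (e : ℂ)⁻¹ • T v := by
    have h7 : T v = (e : ℂ) • T0 v := rfl
    rw [h7, smul_smul, inv_mul_cancel₀ he0, one_smul]
  rw [h6]
  exact V.smul_mem _ (hV4 v hv)

end Pool.Agent.H712R5.BO
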