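import Pool.Agent.H712R5.BO.Stmts
set_option autoImplicit false
open scoped ComplexConjugate InnerProductSpace Topology
open Filter MeasureTheory NormedSpace
namespace Pool.Agent.H712R5.BO
variable {H : Type} [NormedAddCommGroup H] [InnerProductSpace ℂ H] [CompleteSpace H]

theorem M_evsmul (E : unitary (H →L[ℂ] H)) (β : UnitAddCircle) (θ : UnitAddCircle) (r : ℝ)
    (A : Eqv E β) : ev E β θ (r • A) = r • ev E β θ A := rfl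

theorem M_yd (hC2 : P_C2) (E : unitary (H →L[ℂ] H)) (β : UnitAddCircle) (v : H) (r s : ℝ)
    (A B : Eqv E β) :
    ∫ θ, ‖r • ev E β θ A v - s • ev E β θ B v‖ ^ 2 ∂AddCircle.haarAddCircle
      = (n2 (tauE E β v) (r • A - s • B)) ^ 2 := by
  rw [hC2]
  refine integral_congr_ae (Eventually.of_forall (fun θ => ?_))
  show ‖r • ev E β θ A v - s • ev E β θ B v‖ ^ 2 = ‖ev E β θ (r • A - s • B) v‖ ^ 2
  rw [map_sub, M_evsmul, M_evsmul]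
  rfl

theorem M_yn (hC2 : P_C2) (E : unitary (H →L[ℂ] H)) (β : UnitAddCircle) (v : H) (r : ℝ)
    (A : Eqv E β) :
    ∫ θ, ‖r • ev E β θ A v‖ ^ 2 ∂AddCircle.haarAddCircle
      = (n2 (tauE E β v) (r • A)) ^ 2 := by
  rw [hC2]
  refine integral_congr_ae (Eventually.of_forall (fun θ => ?_))
  show ‖r • ev E β θ A v‖ ^ 2 = ‖ev E β θ (r • A) v‖ ^ 2
  rw [M_evsmul]
  rfl

theorem M_norm_Tt (E : unitary (H →L[ℂ] H)) (β : UnitAddCircle) (T : H →L[ℂ] H)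
    (hT : T * (E : H →L[ℂ] H) = (fourier 1 β : ℂ) • ((E : H →L[ℂ] H) * T)) :
    ‖Tt E β T hT‖ ≤ ‖T‖ := by
  show ‖(Tt E β T hT : C(UnitAddCircle, H →L[ℂ] H))‖ ≤ ‖T‖
  rw [ContinuousMap.norm_le _ (norm_nonneg _)]
  intro θ
  have : (Tt E β T hT : C(UnitAddCircle, H →L[ℂ] H)) θ = (fourier 1 θ : ℂ) • T := rfl
  rw [this, norm_smul]
  have h1 : ‖(fourier 1 θ : ℂ)‖ = 1 := by
    rw [fourier_apply]
    exact Circle.norm_coe _
  rw [h1, one_mul]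

theorem M_tr0 (hB13 : P_B13) (hC6 : P_C6) (E : unitary (H →L[ℂ] H)) (β : UnitAddCircle) (v : H)
    (hτ : TrSt (tauE E β v)) (T : H →L[ℂ] H)
    (hT : T * (E : H →L[ℂ] H) = (fourier 1 β : ℂ) • ((E : H →L[ℂ] H) * T)) (k : ℕ) :
    (tauE E β v (Lg (ex (k : ℂ) (Tt E β T hT)))).re = 0 := by
  have h1 := hB13 (Eqv E β) (tauE E β v) hτ ((k : ℂ) • (Tt E β T hT))
  have h3 : tauE E β v ((k : ℂ) • (Tt E β T hT)) = 0 := by
    rw [map_smul, hC6 H E β v T hT, smul_zero]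
  rw [h3] at h1
  unfold ex
  rw [h1]; simp

theorem M_int (E : unitary (H →L[ℂ] H)) (β : UnitAddCircle) (v : H) (r : ℝ) (A : Eqv E β) :
    ∫ θ, ⟪v, r • ev E β θ A v⟫_ℂ ∂AddCircle.haarAddCircle = r • tauE E β v A := by
  rw [tauE_apply, ← integral_smul]
  refine integral_congr_ae (Eventually.of_forall (fun θ => ?_))
  show ⟪v, r • ev E β θ A v⟫_ℂ = r • ⟪v, ev E β θ A v⟫_ℂ
  rw [← Complex.coe_smul, inner_smul_right, ← Complex.coe_smul, smul_eq_mul]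

theorem MAIN_ck_pos (k : ℕ) (hk : 1 ≤ k) : 0 < ck k := by
  unfold ck
  positivity
theorem MAIN_shift (E : unitary (H →L[ℂ] H)) (β : UnitAddCircle) (A : Eqv E β) (θ : UnitAddCircle)
    (v : H) : ev E β θ A ((E : H →L[ℂ] H) v) = (E : H →L[ℂ] H) (ev E β (θ + β) A v) := by
  have h := A.2
  rw [mem_Eqv] at h
  have h2 := h θ
  exact congrArg (fun F : H →L[ℂ] H => F v) h2

/-- convergence on all basis vectors from convergence on `b 0` along the orbit -/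
theorem MAIN_conv (E : unitary (H →L[ℂ] H)) (β : UnitAddCircle) (b : ℤ → H)
    (hE : ∀ r : ℤ, (E : H →L[ℂ] H) (b r) = b (r + 1)) (A : ℕ → Eqv E β) (G : Set UnitAddCircle)
    (hG1 : ∀ θ ∈ G, θ + β ∈ G) (hG2 : ∀ θ ∈ G, θ - β ∈ G)
    (hG : ∀ θ ∈ G, ∃ w : H, Tendsto (fun i => ev E β θ (A i) (b 0)) atTop (𝓝 w)) :
    ∀ r : ℤ, ∀ θ ∈ G, ∃ w : H, Tendsto (fun i => ev E β θ (A i) (b r)) atTop (𝓝 w) := by
  intro r
  induction r using Int.induction_on with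
  | zero => exact hG
  | succ n ih =>
    intro θ hθ
    obtain ⟨w, hw⟩ := ih (θ + β) (hG1 θ hθ)
    refine ⟨(E : H →L[ℂ] H) w, ?_⟩
    have h1 : ∀ i, ev E β θ (A i) (b ((n:ℤ) + 1))
        = (E : H →L[ℂ] H) (ev E β (θ + β) (A i) (b (n:ℤ))) := by
      intro i
      rw [← hE, MAIN_shift]
    simp_rw [h1]
    exact ((E : H →L[ℂ] H).continuous.tendsto w).comp hw
  | pred n ih =>
    intro θ hθ
    obtain ⟨w, hw⟩ := ih (θ - β) (hG2 θ hθ)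
    refine ⟨star (E : H →L[ℂ] H) w, ?_⟩
    have e2 : star (E : H →L[ℂ] H) * (E : H →L[ℂ] H) = 1 := (Unitary.mem_iff.mp E.2).1
    have h1 : ∀ i, ev E β θ (A i) (b (-(n:ℤ) - 1))
        = star (E : H →L[ℂ] H) (ev E β (θ - β) (A i) (b (-(n:ℤ)))) := by
      intro i
      have h2 : b (-(n:ℤ)) = (E : H →L[ℂ] H) (b (-(n:ℤ) - 1)) := by
        rw [hE]; congr 1; ring
      rw [h2, MAIN_shift, sub_add_cancel]
      exact (congrArg (fun F : H →L[ℂ] H => F (ev E β θ (A i) (b (-(n:ℤ) - 1)))) e2).symm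
    simp_rw [h1]
    exact ((star (E : H →L[ℂ] H)).continuous.tendsto w).comp hw


/-- hypothesis of D8 -/
theorem MAIN_low (hD7 : P_D7) (hC3 : P_C3) (hC5 : P_C5) (E : unitary (H →L[ℂ] H))
    (β : UnitAddCircle) (v : H) (hτ : TrSt (tauE E β v)) (T : H →L[ℂ] H)
    (hT : T * (E : H →L[ℂ] H) = (fourier 1 β : ℂ) • ((E : H →L[ℂ] H) * T)) (hTn : ‖T‖ ≤ 3)
    (hdet : ∀ (k : ℕ) (δ : ℝ), 1 ≤ k → 0 < δ →
      0 ≤ (⟪v, CFC.log (algebraMap ℝ (H →L[ℂ] H) δ + star (T ^ k) * T ^ k) v⟫_ℂ).re)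
    (k M : ℕ) (hk : 1 ≤ k) (hM : 1 ≤ M) :
    0 ≤ 2 * Real.log (ck k) + 4 * Real.pi * k * 3 / M + M * Real.log 2
        + M * NN (tauE E β v) (ex (k : ℂ) (Tt E β T hT)) := by
  have h1 := hD7 (Eqv E β) (tauE E β v) hτ (Tt E β T hT) k M hk hM
  have hck := MAIN_ck_pos k hk
  have h2 := hC5 H E β v T hT k ((ck k) ^ 2) (by positivity)
  have h3 := hdet k ((ck k) ^ 2) hk (by positivity)
  rw [h2] at h1
  have h4 : ∑ j : Fin M, NN (tauE E β v) (ex (k * rt M j) (Tt E β T hT))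
      = M * NN (tauE E β v) (ex (k : ℂ) (Tt E β T hT)) := by
    have h7 : ∀ j : Fin M, NN (tauE E β v) (ex (k * rt M j) (Tt E β T hT))
      = NN (tauE E β v) (ex (k : ℂ) (Tt E β T hT)) := fun j => hC3 H E β v T hT k M j
    simp_rw [h7]
    simp
  rw [h4] at h1
  have h5 : ‖Tt E β T hT‖ ≤ 3 := (M_norm_Tt E β T hT).trans hTn
  have h6 : 4 * Real.pi * k * ‖Tt E β T hT‖ / M ≤ 4 * Real.pi * k * 3 / M := by
    have : (0:ℝ) < M := by exact_mod_cast hM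
    gcongr
  linarith

/-- the functions `y k θ` -/
noncomputable def yy (E : unitary (H →L[ℂ] H)) (β : UnitAddCircle) (v : H) (S : Eqv E β)
    (k : ℕ) (θ : UnitAddCircle) : H := (1/(k:ℝ)) • ev E β θ (Lg (ex (k : ℂ) S)) v

theorem yy_cont (E : unitary (H →L[ℂ] H)) (β : UnitAddCircle) (v : H) (S : Eqv E β) (k : ℕ) :
    Continuous (yy E β v S k) :=
  ((continuous_ev E β (Lg (ex (k : ℂ) S))).clm_apply continuous_const).const_smul _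

theorem yy_cauchy (hC2 : P_C2) (hB12 : P_B12) (E : unitary (H →L[ℂ] H)) (β : UnitAddCircle) (v : H)
    (hτ : TrSt (tauE E β v)) (S : Eqv E β) :
    ∀ ε > (0:ℝ), ∃ K : ℕ, ∀ k ≥ K, ∀ m ≥ K,
      ∫ θ, ‖yy E β v S k θ - yy E β v S m θ‖ ^ 2 ∂AddCircle.haarAddCircle < ε := by
  intro ε hε
  obtain ⟨K', _, hK'⟩ := hB12 (Eqv E β) (tauE E β v) hτ S (Real.sqrt ε) (Real.sqrt_pos.mpr hε)
  refine ⟨K', fun k hk m hm => ?_⟩
  have h2 := M_yd hC2 E β v (1/(k:ℝ)) (1/(m:ℝ)) (Lg (ex (k : ℂ) S)) (Lg (ex (m : ℂ) S))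
  have h3 : ∫ θ, ‖yy E β v S k θ - yy E β v S m θ‖ ^ 2 ∂AddCircle.haarAddCircle
      = (n2 (tauE E β v) ((1/(k:ℝ)) • Lg (ex (k : ℂ) S) - (1/(m:ℝ)) • Lg (ex (m : ℂ) S))) ^ 2 := h2
  rw [h3]
  have h1 := hK' k hk m hm
  have h0 : 0 ≤ n2 (tauE E β v) ((1/(k:ℝ)) • Lg (ex (k : ℂ) S) - (1/(m:ℝ)) • Lg (ex (m : ℂ) S)) :=
    Real.sqrt_nonneg _
  calc _ < (Real.sqrt ε) ^ 2 := by gcongr
    _ = ε := Real.sq_sqrt hε.le

theorem yy_int0 (hB13 : P_B13) (hC6 : P_C6) (E : unitary (H →L[ℂ] H)) (β : UnitAddCircle) (v : H)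
    (hτ : TrSt (tauE E β v)) (T : H →L[ℂ] H)
    (hT : T * (E : H →L[ℂ] H) = (fourier 1 β : ℂ) • ((E : H →L[ℂ] H) * T)) (k : ℕ) :
    (∫ θ, ⟪v, yy E β v (Tt E β T hT) k θ⟫_ℂ ∂AddCircle.haarAddCircle).re = 0 := by
  have h1 := M_int E β v (1/(k:ℝ)) (Lg (ex (k : ℂ) (Tt E β T hT)))
  have h2 : ∫ θ, ⟪v, yy E β v (Tt E β T hT) k θ⟫_ℂ ∂AddCircle.haarAddCircle
      = (1/(k:ℝ)) • tauE E β v (Lg (ex (k : ℂ) (Tt E β T hT))) := h1
  rw [h2, Complex.smul_re, M_tr0 hB13 hC6 E β v hτ T hT k, smul_zero]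

theorem yy_im (hC4 : P_C4) (hB4v : P_B4v) (E : unitary (H →L[ℂ] H)) (β : UnitAddCircle) (v : H)
    (T : H →L[ℂ] H)
    (hT : T * (E : H →L[ℂ] H) = (fourier 1 β : ℂ) • ((E : H →L[ℂ] H) * T)) (k : ℕ)
    (θ : UnitAddCircle) :
    (⟪v, yy E β v (Tt E β T hT) k θ⟫_ℂ).im = 0 := by
  have hsa : IsSelfAdjoint (ev E β θ (Lg (ex (k : ℂ) (Tt E β T hT)))) := by
    rw [(hC4 H E β T hT k θ).1]
    exact (hB4v (H →L[ℂ] H)).1 _
  unfold yy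
  generalize ev E β θ (Lg (ex (k : ℂ) (Tt E β T hT))) = B at hsa
  rw [← Complex.coe_smul, inner_smul_right]
  have h1 : conj ⟪v, B v⟫_ℂ = ⟪v, B v⟫_ℂ := by
    rw [inner_conj_symm]
    have h2 := ContinuousLinearMap.adjoint_inner_left B v v
    have h3 : ContinuousLinearMap.adjoint B = B := hsa
    rw [h3] at h2
    exact h2
  have h4 := Complex.conj_eq_iff_im.mp h1
  rw [Complex.im_ofReal_mul, h4, mul_zero]

theorem yy_low (hC2 : P_C2) (hB1 : P_B1) (E : unitary (H →L[ℂ] H)) (β : UnitAddCircle) (v : H)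
    (hτ : TrSt (tauE E β v)) (S : Eqv E β) (c : ℝ) (hc : 0 < c) (k : ℕ) (hk1 : 1 ≤ k)
    (hk : c * k ≤ NN (tauE E β v) (ex (k : ℂ) S)) :
    c ^ 2 ≤ ∫ θ, ‖yy E β v S k θ‖ ^ 2 ∂AddCircle.haarAddCircle := by
  have h2 := M_yn hC2 E β v (1/(k:ℝ)) (Lg (ex (k : ℂ) S))
  have h5 : ∫ θ, ‖yy E β v S k θ‖ ^ 2 ∂AddCircle.haarAddCircle
      = (n2 (tauE E β v) ((1/(k:ℝ)) • Lg (ex (k : ℂ) S))) ^ 2 := h2
  rw [h5]
  have h1 : c ≤ n2 (tauE E β v) ((1/(k:ℝ)) • Lg (ex (k : ℂ) S)) := by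
    have h3 : n2 (tauE E β v) ((1/(k:ℝ)) • Lg (ex (k : ℂ) S))
        = |(1/(k:ℝ))| * NN (tauE E β v) (ex (k : ℂ) S) :=
      (hB1 (Eqv E β) (tauE E β v) hτ).2.2.2.1 _ _
    rw [h3]
    have h4 : (0:ℝ) < k := by exact_mod_cast hk1
    rw [abs_of_pos (by positivity)]
    calc c = 1 / (k : ℝ) * (c * k) := by field_simp
      _ ≤ _ := by gcongr
  gcongr

theorem yy_norm (hC4 : P_C4) (E : unitary (H →L[ℂ] H)) (β : UnitAddCircle) (T : H →L[ℂ] H)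
    (hT : T * (E : H →L[ℂ] H) = (fourier 1 β : ℂ) • ((E : H →L[ℂ] H) * T)) (k : ℕ) (hk : 1 ≤ k)
    (θ : UnitAddCircle) :
    ev E β θ ((1/(k:ℝ)) • Lg (ex (k : ℂ) (Tt E β T hT)))
      = (1/(k:ℝ)) • Lg (ex (k : ℂ) ((fourier 1 θ : ℂ) • T)) ∧
    ‖(1/(k:ℝ)) • Lg (ex (k : ℂ) ((fourier 1 θ : ℂ) • T))‖ ≤ 2 * ‖T‖ := by
  constructor
  · rw [M_evsmul, (hC4 H E β T hT k θ).1]
  · rw [norm_smul]
    have h1 := (hC4 H E β T hT k θ).2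
    have h4 : (0:ℝ) < k := by exact_mod_cast hk
    rw [Real.norm_eq_abs, abs_of_pos (by positivity)]
    calc 1 / (k : ℝ) * _ ≤ 1 / (k : ℝ) * (2 * k * ‖T‖) := by gcongr
      _ = 2 * ‖T‖ := by field_simp

theorem yy_ev (E : unitary (H →L[ℂ] H)) (β : UnitAddCircle) (v : H) (S : Eqv E β)
    (k : ℕ) (θ : UnitAddCircle) :
    ev E β θ ((1/(k:ℝ)) • Lg (ex (k : ℂ) S)) v = yy E β v S k θ := by
  unfold yy
  rw [M_evsmul]
  rfl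

theorem MAIN_good (β : UnitAddCircle) (y : ℕ → UnitAddCircle → H) (y' : UnitAddCircle → H)
    (h : ∀ᵐ θ ∂AddCircle.haarAddCircle, Tendsto (fun i => y i θ) atTop (𝓝 (y' θ))) :
    ∃ G : Set UnitAddCircle, (∀ᵐ θ ∂AddCircle.haarAddCircle, θ ∈ G) ∧ (∀ θ ∈ G, θ + β ∈ G) ∧
      (∀ θ ∈ G, θ - β ∈ G) ∧ ∀ θ ∈ G, Tendsto (fun i => y i θ) atTop (𝓝 (y' θ)) := by
  obtain ⟨P, hP⟩ : ∃ P : UnitAddCircle → Prop, ∀ θ, P θ ↔
      Tendsto (fun i => y i θ) atTop (𝓝 (y' θ)) := ⟨_, fun θ => Iff.rfl⟩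
  have hPae : ∀ᵐ θ ∂AddCircle.haarAddCircle, P θ := by
    filter_upwards [h] with θ hθ
    exact (hP θ).mpr hθ
  refine ⟨{θ | ∀ s : ℤ, P (θ + s • β)}, ?_, ?_, ?_, ?_⟩
  · have h1 : ∀ s : ℤ, ∀ᵐ θ ∂AddCircle.haarAddCircle, P (θ + s • β) := by
      intro s
      have h2 : MeasurePreserving (fun θ : UnitAddCircle => θ + s • β)
          AddCircle.haarAddCircle AddCircle.haarAddCircle :=
        measurePreserving_add_right AddCircle.haarAddCircle (s • β)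
      have h3 := h2.quasiMeasurePreserving.ae hPae
      exact h3
    exact ae_all_iff.mpr h1
  · intro θ hθ s
    have h1 : θ + β + s • β = θ + (s + 1) • β := by rw [add_smul, one_smul]; abel
    rw [h1]
    exact hθ (s + 1)
  · intro θ hθ s
    have h1 : θ - β + s • β = θ + (s - 1) • β := by rw [sub_smul, one_smul]; abel
    rw [h1]
    exact hθ (s - 1)
  · intro θ hθ
    have h1 := hθ 0
    rw [zero_smul, add_zero] at h1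
    exact (hP θ).mp h1

theorem MAIN_X (hC8 : P_C8) (b : HilbertBasis ℤ ℂ H) (E : unitary (H →L[ℂ] H)) (β : UnitAddCircle)
    (hE : ∀ r : ℤ, (E : H →L[ℂ] H) (b r) = b (r + 1)) (A : ℕ → Eqv E β) (y' : UnitAddCircle → H)
    (G : Set UnitAddCircle) (hG1 : ∀ θ ∈ G, θ + β ∈ G) (hG2 : ∀ θ ∈ G, θ - β ∈ G)
    (hG : ∀ θ ∈ G, Tendsto (fun i => ev E β θ (A i) (b 0)) atTop (𝓝 (y' θ)))
    (θ : UnitAddCircle) (hθ : θ ∈ G) (R : ℝ) (hR : ∀ i, ‖ev E β θ (A i)‖ ≤ R) :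
    ∃ X : H →L[ℂ] H, (∀ v, Tendsto (fun i => ev E β θ (A i) v) atTop (𝓝 (X v))) ∧
      X (b 0) = y' θ ∧ X (b 1) = (E : H →L[ℂ] H) (y' (θ + β)) := by
  have hconv := MAIN_conv E β (fun r => b r) hE A G hG1 hG2 (fun θ hθ => ⟨_, hG θ hθ⟩)
  obtain ⟨X, hX⟩ := hC8 H b (fun i => ev E β θ (A i)) R hR (fun r => hconv r θ hθ)
  refine ⟨X, hX, tendsto_nhds_unique (hX (b 0)) (hG θ hθ), ?_⟩
  have h3 := ((E : H →L[ℂ] H).continuous.tendsto _).comp (hG (θ + β) (hG1 θ hθ))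
  refine tendsto_nhds_unique (hX (b 1)) (h3.congr (fun i => ?_))
  have h4 : b 1 = (E : H →L[ℂ] H) (b 0) := by rw [hE]; rfl
  rw [h4, MAIN_shift]
  rfl

theorem MAIN_sub (y : ℕ → UnitAddCircle → H) (y' : UnitAddCircle → H) (φ : ℕ → ℕ)
    (hφ : StrictMono φ) (K : ℕ)
    (hae : ∀ᵐ θ ∂AddCircle.haarAddCircle, Tendsto (fun i => y (φ i) θ) atTop (𝓝 (y' θ)))
    (hL2 : Tendsto (fun i => ∫ θ, ‖y (φ i) θ - y' θ‖ ^ 2 ∂AddCircle.haarAddCircle) atTop (𝓝 0)) :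
    ∃ ψ : ℕ → ℕ, StrictMono ψ ∧ (∀ i, K ≤ ψ i) ∧
      (∀ i, 1 ≤ ψ i) ∧
      (∀ᵐ θ ∂AddCircle.haarAddCircle, Tendsto (fun i => y (ψ i) θ) atTop (𝓝 (y' θ))) ∧
      Tendsto (fun i => ∫ θ, ‖y (ψ i) θ - y' θ‖ ^ 2 ∂AddCircle.haarAddCircle) atTop (𝓝 0) := by
  have hle : ∀ i, i + (K + 1) ≤ φ (i + (K + 1)) := fun i => hφ.le_apply
  refine ⟨fun i => φ (i + (K + 1)), fun i j hij => hφ (by omega), fun i => ?_, fun i => ?_, ?_, ?_⟩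
  · exact le_trans (by omega) (hle i)
  · exact le_trans (by omega) (hle i)
  · filter_upwards [hae] with θ hθ
    exact hθ.comp (tendsto_add_atTop_nat (K + 1))
  · exact hL2.comp (tendsto_add_atTop_nat (K + 1))

theorem MAIN_scal (T : H →L[ℂ] H) (θ : UnitAddCircle) (V : Submodule ℂ H)
    (hVi : ∀ v ∈ V, ((fourier 1 θ : ℂ) • T) v ∈ V) : ∀ v ∈ V, T v ∈ V := by
  intro v hv
  have h1 := V.smul_mem ((fourier 1 θ : ℂ)⁻¹) (hVi v hv)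
  have h2 : (fourier 1 θ : ℂ) ≠ 0 := by
    have h3 : ‖(fourier 1 θ : ℂ)‖ = 1 := by
      rw [fourier_apply]
      exact Circle.norm_coe _
    intro h4
    rw [h4] at h3
    simp at h3
  have h5 : ((fourier 1 θ : ℂ)⁻¹) • (((fourier 1 θ : ℂ) • T) v) = T v := by
    rw [_root_.smul_apply, smul_smul, inv_mul_cancel₀ h2, one_smul]
  rwa [h5] at h1

theorem t_MAIN (hB1 : P_B1) (hB12 : P_B12) (hB13 : P_B13) (hD7 : P_D7)
    (hD8 : P_D8) (hC1 : P_C1) (hC2 : P_C2) (hC3 : P_C3) (hC4 : P_C4) (hC5 : P_C5) (hC6 : P_C6)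
    (hC7 : P_C7) (hC8 : P_C8) (hC9 : P_C9) (hC12 : P_C12) (hB4v : P_B4v) : P_MAIN := by
  intro H _ _ _ b E α hα hE T hT hTn hdet
  have hτ : TrSt (tauE E (α : UnitAddCircle) (b 0)) := hC1 H E _ b hE
  obtain ⟨c, hc, K, hK⟩ := hD8
    (fun k => NN (tauE E (α : UnitAddCircle) (b 0)) (ex (k : ℂ) (Tt E (α : UnitAddCircle) T hT)))
    (MAIN_low hD7 hC3 hC5 E _ (b 0) hτ T hT hTn hdet)
  have hcont := yy_cont E (α : UnitAddCircle) (b 0) (Tt E _ T hT)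
  have hcau := yy_cauchy hC2 hB12 E _ (b 0) hτ (Tt E _ T hT)
  have hint0 := yy_int0 hB13 hC6 E _ (b 0) hτ T hT
  have him := yy_im hC4 hB4v E _ (b 0) T hT
  have hlow := fun k hk hk2 => yy_low hC2 hB1 E _ (b 0) hτ (Tt E _ T hT) c hc k hk (hK k hk2)
  have hev := yy_ev E (α : UnitAddCircle) (b 0) (Tt E _ T hT)
  have hnm := yy_norm hC4 E (α : UnitAddCircle) T hT
  generalize yy E (α : UnitAddCircle) (b 0) (Tt E _ T hT) = y at hcont hcau hint0 him hlow hev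
  obtain ⟨φ, y', hφ, hy'mem, hae, hL2⟩ := hC7 H y hcont hcau
  obtain ⟨ψ, hψmono, hψK, hψ1, hψae, hψL2⟩ := MAIN_sub y y' φ hφ K hae hL2
  have hnot := hC9 H b E α hα hE (fun i => y (ψ i)) y'
    (fun i => hcont (ψ i)) hy'mem hψL2
    (fun i => hint0 (ψ i))
    (fun i θ => him (ψ i) θ)
    ⟨c ^ 2, by positivity, fun i => hlow (ψ i) (hψ1 i) (hψK i)⟩
  obtain ⟨G, hGae, hG1, hG2, hG⟩ := MAIN_good (α : UnitAddCircle) (fun i => y (ψ i)) y' hψae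
  obtain ⟨θ, hθG, hθns⟩ : ∃ θ ∈ G, ¬ ∃ z : ℂ, y' θ = z • b 0 ∧
      (E : H →L[ℂ] H) (y' (θ + (α : UnitAddCircle))) = z • b 1 := by
    by_contra hcon
    push Not at hcon
    apply hnot
    filter_upwards [hGae] with θ hθ
    exact hcon θ hθ
  obtain ⟨X, hX, hX0, hX1⟩ := MAIN_X hC8 b E (α : UnitAddCircle) hE
    (fun i => (1/(ψ i:ℝ)) • Lg (ex (ψ i : ℂ) (Tt E _ T hT))) y' G hG1 hG2
    (fun θ hθ => (hG θ hθ).congr (fun i => (hev (ψ i) θ).symm)) θ hθG (2 * ‖T‖)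
    (fun i => by
      show ‖ev E (α : UnitAddCircle) θ ((1/(ψ i:ℝ)) • Lg (ex (ψ i : ℂ) (Tt E _ T hT)))‖ ≤ 2 * ‖T‖
      rw [(hnm (ψ i) (hψ1 i) θ).1]
      exact (hnm (ψ i) (hψ1 i) θ).2)
  have hns : ¬ ∃ c : ℂ, X = c • 1 := by
    rintro ⟨z, hz⟩
    apply hθns
    refine ⟨z, ?_, ?_⟩
    · rw [← hX0, hz]; rfl
    · rw [← hX1, hz]; rfl
  obtain ⟨V, hVc, hVb, hVt, hVi⟩ := hC12 H ((fourier 1 θ : ℂ) • T) ψ hψmono hψ1 X
    (fun v => (hX v).congr (fun i => by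
      show ev E (α : UnitAddCircle) θ ((1/(ψ i:ℝ)) • Lg (ex (ψ i : ℂ) (Tt E _ T hT))) v = _
      rw [(hnm (ψ i) (hψ1 i) θ).1])) hns
  exact ⟨V, hVc, hVb, hVt, MAIN_scal T θ V hVi⟩

end Pool.Agent.H712R5.BO
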