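import Pool.Agent.H712R5.BO.Defs

/-!
Statements (Props) of the tasks.  Prove `theorem t_XX : P_XX` (other Props may be used as hypotheses only
if the task says so).
-/

set_option autoImplicit false
open scoped ComplexConjugate InnerProductSpace Topology
open Filter MeasureTheory NormedSpace

namespace Pool.Agent.H712R5.BO

/-! ## Tracial C*-algebras -/

/-- B1: basic facts on the 2-norm -/
def P_B1 : Prop := ∀ (A : Type) [CStarAlgebra A] (τ : A →L[ℂ] ℂ), TrSt τ →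
  (∀ a b : A, n2 τ (a + b) ≤ n2 τ a + n2 τ b) ∧ (∀ a b : A, n2 τ (a - b) ≤ n2 τ a + n2 τ b) ∧
  (∀ (c : ℂ) (a : A), n2 τ (c • a) = ‖c‖ * n2 τ a) ∧
  (∀ (c : ℝ) (a : A), n2 τ (c • a) = |c| * n2 τ a) ∧
  (∀ a : A, n2 τ (star a) = n2 τ a) ∧ (∀ a : A, n2 τ a ≤ ‖a‖) ∧
  (∀ a b : A, ‖τ (a * b)‖ ≤ n2 τ a * n2 τ b) ∧
  (∀ u ∈ unitary A, ∀ v ∈ unitary A, ∀ a : A, n2 τ (u * a * v) = n2 τ a) ∧
  (∀ a : A, 0 ≤ n2 τ a) ∧ Continuous (fun a : A => n2 τ a) ∧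
  (∀ a : A, (n2 τ a) ^ 2 = (τ (star a * a)).re)

/-- B2a: trace derivative formula, polynomials -/
def P_B2a : Prop := ∀ (A : Type) [CStarAlgebra A] (τ : A →L[ℂ] ℂ), TrSt τ →
  ∀ (γ : ℝ → A) (g : A) (t : ℝ), HasDerivAt γ g t → ∀ p : Polynomial ℝ,
  HasDerivAt (fun s => τ (Polynomial.aeval (γ s) p))
    (τ (Polynomial.aeval (γ t) (Polynomial.derivative p) * g)) t

/-- B2: trace derivative formula, C^1 functions (use B2a + Weierstrass + hasDerivAt_of_tendstoUniformlyOn) -/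
def P_B2 : Prop := ∀ (A : Type) [CStarAlgebra A] (τ : A →L[ℂ] ℂ), TrSt τ →
  ∀ (γ γ' : ℝ → A) (c d a b : ℝ), 0 < a →
  (∀ t ∈ Set.Ioo c d, HasDerivAt γ (γ' t) t) → ContinuousOn γ' (Set.Ioo c d) →
  (∀ t ∈ Set.Ioo c d, IsSelfAdjoint (γ t) ∧ spectrum ℝ (γ t) ⊆ Set.Icc a b) →
  (∃ R : ℝ, ∀ t ∈ Set.Ioo c d, ‖γ' t‖ ≤ R) →
  ∀ f f' : ℝ → ℝ, (∀ x : ℝ, 0 < x → HasDerivAt f (f' x) x) → ContinuousOn f' (Set.Ioi 0) →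
  ∀ t ∈ Set.Ioo c d, HasDerivAt (fun s => τ (cfc f (γ s))) (τ (cfc f' (γ t) * γ' t)) t

/-- B2c: spectral bounds for the path `e^{tK/2} e^h e^{tK/2}` -/
def P_B2c : Prop := ∀ (A : Type) [CStarAlgebra A] (h K : A), IsSelfAdjoint h → IsSelfAdjoint K →
  ∃ a b : ℝ, 0 < a ∧ ∀ t ∈ Set.Ioo (-2:ℝ) 2,
    IsSelfAdjoint (exp ((t/2:ℝ) • K) * exp h * exp ((t/2:ℝ) • K)) ∧
    spectrum ℝ (exp ((t/2:ℝ) • K) * exp h * exp ((t/2:ℝ) • K)) ⊆ Set.Icc a b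

/-- B3: upper bound -/
def P_B3 : Prop := ∀ (A : Type) [CStarAlgebra A] (τ : A →L[ℂ] ℂ), TrSt τ →
  ∀ h K : A, IsSelfAdjoint h → IsSelfAdjoint K → ff τ K h ≤ n2 τ h + n2 τ K

/-- B4: triangle inequality -/
def P_B4 : Prop := ∀ (A : Type) [CStarAlgebra A] (τ : A →L[ℂ] ℂ), TrSt τ →
  ∀ S R : A, IsUnit S → IsUnit R → NN τ (S * R) ≤ NN τ S + NN τ R

/-- B4v: facts on `Lg` (no trace) -/
def P_B4v : Prop := ∀ (A : Type) [CStarAlgebra A],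
  (∀ S : A, IsSelfAdjoint (Lg S)) ∧ (∀ S : A, IsUnit S → exp (Lg S) = star S * S) ∧
  (∀ k : A, IsSelfAdjoint k → Lg (exp k) = (2:ℝ) • k) ∧
  (∀ u ∈ unitary A, ∀ S : A, Lg (S * u) = star u * Lg S * u) ∧
  (∀ (T : A), ‖Lg (exp T)‖ ≤ 2 * ‖T‖)

/-- B4u: facts on `Lg` and `NN` -/
def P_B4u : Prop := ∀ (A : Type) [CStarAlgebra A] (τ : A →L[ℂ] ℂ), TrSt τ →
  (∀ S : A, IsSelfAdjoint (Lg S)) ∧ (∀ S : A, IsUnit S → exp (Lg S) = star S * S) ∧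
  (∀ k : A, IsSelfAdjoint k → Lg (exp k) = (2:ℝ) • k) ∧
  (∀ k : A, IsSelfAdjoint k → NN τ (exp k) = 2 * n2 τ k) ∧
  (∀ u ∈ unitary A, ∀ v ∈ unitary A, ∀ S : A, NN τ (u * S * v) = NN τ S) ∧
  (∀ u ∈ unitary A, ∀ S : A, IsUnit S → Lg (S * u) = star u * Lg S * u) ∧
  (∀ (T : A), ‖Lg (exp T)‖ ≤ 2 * ‖T‖)

/-- B5: similarity increases `NN` -/
def P_B5 : Prop := ∀ (A : Type) [CStarAlgebra A] (τ : A →L[ℂ] ℂ), TrSt τ →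
  ∀ (k : A) (D : Aˣ), IsSelfAdjoint k → 2 * n2 τ k ≤ NN τ ((↑D⁻¹ : A) * exp k * (D : A))

/-- B6: midpoint inequality -/
def P_B6 : Prop := ∀ (A : Type) [CStarAlgebra A] (τ : A →L[ℂ] ℂ), TrSt τ →
  ∀ a b : A, IsSelfAdjoint a → IsSelfAdjoint b →
  2 * ff τ ((1/2:ℝ) • a) ((1/2:ℝ) • b) ≤ ff τ a b

/-- B7: local expansion -/
def P_B7 : Prop := ∀ (A : Type) [CStarAlgebra A] (τ : A →L[ℂ] ℂ), TrSt τ →
  ∀ a b : A, IsSelfAdjoint a → IsSelfAdjoint b →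
  Tendsto (fun n : ℕ => (2:ℝ) ^ n * ff τ (((1/2:ℝ) ^ n) • a) (((1/2:ℝ) ^ n) • b)) atTop
    (𝓝 (n2 τ (a + b)))

/-- B8: exponential metric increasing property -/
def P_B8 : Prop := ∀ (A : Type) [CStarAlgebra A] (τ : A →L[ℂ] ℂ), TrSt τ →
  ∀ a b : A, IsSelfAdjoint a → IsSelfAdjoint b → n2 τ (a + b) ≤ ff τ a b

/-- B9: the same for `log |P|^2`, `log |Q|^2` -/
def P_B9 : Prop := ∀ (A : Type) [CStarAlgebra A] (τ : A →L[ℂ] ℂ), TrSt τ →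
  ∀ P Q : Aˣ, n2 τ (Lg (Q : A) - Lg (P : A)) ≤ NN τ ((Q : A) * (↑P⁻¹ : A))

/-- B10: Karlsson-Margulis lemma in a pre-inner product space -/
def P_B10 : Prop := ∀ (V : Type) [AddCommGroup V] [Module ℝ V] (B : V →ₗ[ℝ] V →ₗ[ℝ] ℝ),
  (∀ x y, B x y = B y x) → (∀ x, 0 ≤ B x x) → ∀ L : ℕ → V,
  (∀ k m, Real.sqrt (B (L (k + m)) (L (k + m)))
    ≤ Real.sqrt (B (L k) (L k)) + Real.sqrt (B (L m) (L m))) →
  (∀ k m, Real.sqrt (B (L (k + m) - L k) (L (k + m) - L k)) ≤ Real.sqrt (B (L m) (L m))) →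
  ∀ ε > (0:ℝ), ∃ K : ℕ, 1 ≤ K ∧ ∀ k ≥ K, ∀ m ≥ K,
    Real.sqrt (B ((1/(k:ℝ)) • L k - (1/(m:ℝ)) • L m) ((1/(k:ℝ)) • L k - (1/(m:ℝ)) • L m)) < ε

/-- B11: `L_k = log |exp(kT)|^2` -/
def P_B11 : Prop := ∀ (A : Type) [CStarAlgebra A] (τ : A →L[ℂ] ℂ), TrSt τ → ∀ T : A,
  (∀ k m : ℕ, NN τ (ex ((k + m : ℕ) : ℂ) T) ≤ NN τ (ex (k : ℂ) T) + NN τ (ex (m : ℂ) T)) ∧
  (∀ k m : ℕ, n2 τ (Lg (ex ((k + m : ℕ) : ℂ) T) - Lg (ex (k : ℂ) T)) ≤ NN τ (ex (m : ℂ) T))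

/-- B12: Cauchy property -/
def P_B12 : Prop := ∀ (A : Type) [CStarAlgebra A] (τ : A →L[ℂ] ℂ), TrSt τ → ∀ T : A,
  ∀ ε > (0:ℝ), ∃ K : ℕ, 1 ≤ K ∧ ∀ k ≥ K, ∀ m ≥ K,
    n2 τ ((1/(k:ℝ)) • Lg (ex (k : ℂ) T) - (1/(m:ℝ)) • Lg (ex (m : ℂ) T)) < ε

/-- B13: determinant of `exp T` -/
def P_B13 : Prop := ∀ (A : Type) [CStarAlgebra A] (τ : A →L[ℂ] ℂ), TrSt τ → ∀ T : A,
  (τ (Lg (exp T))).re = 2 * (τ T).re

/-! ## the lower bound -/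

/-- D1: `τ` is positive and `τ log` is monotone -/
def P_D1 : Prop := ∀ (A : Type) [CStarAlgebra A] [PartialOrder A] [StarOrderedRing A]
  (τ : A →L[ℂ] ℂ), TrSt τ →
  (∀ a b : A, a ≤ b → (τ a).re ≤ (τ b).re) ∧
  (∀ a b : A, IsStrictlyPositive a → a ≤ b → (τ (CFC.log a)).re ≤ (τ (CFC.log b)).re)

/-- D2: `τ log (1+a+b) ≤ τ log (1+a) + τ log (1+b)` -/
def P_D2 : Prop := ∀ (A : Type) [CStarAlgebra A] [PartialOrder A] [StarOrderedRing A]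
  (τ : A →L[ℂ] ℂ), TrSt τ → ∀ a b : A, 0 ≤ a → 0 ≤ b →
  (τ (CFC.log (1 + a + b))).re ≤ (τ (CFC.log (1 + a))).re + (τ (CFC.log (1 + b))).re

/-- D3: finite sums -/
def P_D3 : Prop := ∀ (A : Type) [CStarAlgebra A] [PartialOrder A] [StarOrderedRing A]
  (τ : A →L[ℂ] ℂ), TrSt τ → ∀ (n : ℕ) (a : Fin n → A), (∀ j, 0 ≤ a j) →
  (τ (CFC.log (1 + ∑ j, a j))).re ≤ ∑ j, (τ (CFC.log (1 + a j))).re

/-- D4 -/
def P_D4 : Prop := ∀ (A : Type) [CStarAlgebra A] (τ : A →L[ℂ] ℂ), TrSt τ → ∀ L : A,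
  IsSelfAdjoint L → (τ (CFC.log (1 + exp L))).re ≤ Real.log 2 + n2 τ L

/-- D5: averages over roots of unity pick the k-th term -/
def P_D5 : Prop := ∀ (A : Type) [CStarAlgebra A] (T : A) (k : ℕ), 1 ≤ k →
  Tendsto (fun n : ℕ => (1/(n:ℂ)) • ∑ s ∈ Finset.range n, (rt n s) ^ (-(k:ℤ)) • ex (k * rt n s) T)
    atTop (𝓝 (((k:ℂ) ^ k / (k.factorial : ℂ)) • T ^ k))

/-- D6: operator inequality -/
def P_D6 : Prop := ∀ (A : Type) [CStarAlgebra A] [PartialOrder A] [StarOrderedRing A]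
  (T : A) (k M : ℕ), 1 ≤ k → 1 ≤ M →
  star (T ^ k) * T ^ k ≤ ((ck k) ^ 2 * Real.exp (4 * Real.pi * k * ‖T‖ / M)) •
    ∑ j : Fin M, star (ex (k * rt M j) T) * ex (k * rt M j) T

/-- D7: the final inequality -/
def P_D7 : Prop := ∀ (A : Type) [CStarAlgebra A] (τ : A →L[ℂ] ℂ), TrSt τ → ∀ (T : A) (k M : ℕ),
  1 ≤ k → 1 ≤ M →
  (τ (CFC.log (algebraMap ℝ A ((ck k) ^ 2) + star (T ^ k) * T ^ k))).re
    ≤ 2 * Real.log (ck k) + 4 * Real.pi * k * ‖T‖ / M + M * Real.log 2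
      + ∑ j : Fin M, NN τ (ex (k * rt M j) T)

/-- D8: numbers: from D7 to a linear lower bound -/
def P_D8 : Prop := ∀ (a : ℕ → ℝ), (∀ k M : ℕ, 1 ≤ k → 1 ≤ M →
  0 ≤ 2 * Real.log (ck k) + 4 * Real.pi * k * 3 / M + M * Real.log 2 + M * a k) →
  ∃ c > (0:ℝ), ∃ K : ℕ, ∀ k ≥ K, c * k ≤ a k

/-! ## the algebra `Eqv` -/

/-- C1: `tauE` is a tracial state -/
def P_C1 : Prop := ∀ (H : Type) [NormedAddCommGroup H] [InnerProductSpace ℂ H] [CompleteSpace H]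
  (E : unitary (H →L[ℂ] H)) (β : UnitAddCircle) (b : HilbertBasis ℤ ℂ H),
  (∀ r : ℤ, (E : H →L[ℂ] H) (b r) = b (r + 1)) → TrSt (tauE E β (b 0))

/-- C2: the 2-norm in `Eqv` is an integral -/
def P_C2 : Prop := ∀ (H : Type) [NormedAddCommGroup H] [InnerProductSpace ℂ H] [CompleteSpace H]
  (E : unitary (H →L[ℂ] H)) (β : UnitAddCircle) (v : H) (A : Eqv E β),
  (n2 (tauE E β v) A) ^ 2 = ∫ θ, ‖ev E β θ A v‖ ^ 2 ∂AddCircle.haarAddCircle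

/-- C3: rotation invariance of `NN (exp(k z T))` -/
def P_C3 : Prop := ∀ (H : Type) [NormedAddCommGroup H] [InnerProductSpace ℂ H] [CompleteSpace H]
  (E : unitary (H →L[ℂ] H)) (β : UnitAddCircle) (v : H) (T : H →L[ℂ] H)
  (hT : T * (E : H →L[ℂ] H) = (fourier 1 β : ℂ) • ((E : H →L[ℂ] H) * T)) (k M j : ℕ),
  NN (tauE E β v) (ex (k * rt M j) (Tt E β T hT)) = NN (tauE E β v) (ex (k : ℂ) (Tt E β T hT))

/-- C4: evaluation of `Lg`, and norm bound -/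
def P_C4 : Prop := ∀ (H : Type) [NormedAddCommGroup H] [InnerProductSpace ℂ H] [CompleteSpace H]
  (E : unitary (H →L[ℂ] H)) (β : UnitAddCircle) (T : H →L[ℂ] H)
  (hT : T * (E : H →L[ℂ] H) = (fourier 1 β : ℂ) • ((E : H →L[ℂ] H) * T)) (k : ℕ)
  (θ : UnitAddCircle),
  ev E β θ (Lg (ex (k : ℂ) (Tt E β T hT))) = Lg (ex (k : ℂ) ((fourier 1 θ : ℂ) • T)) ∧
  ‖Lg (ex (k : ℂ) ((fourier 1 θ : ℂ) • T))‖ ≤ 2 * k * ‖T‖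

/-- C5: the trace of `log (δ + |T^k|^2)` -/
def P_C5 : Prop := ∀ (H : Type) [NormedAddCommGroup H] [InnerProductSpace ℂ H] [CompleteSpace H]
  (E : unitary (H →L[ℂ] H)) (β : UnitAddCircle) (v : H) (T : H →L[ℂ] H)
  (hT : T * (E : H →L[ℂ] H) = (fourier 1 β : ℂ) • ((E : H →L[ℂ] H) * T)) (k : ℕ) (δ : ℝ),
  0 < δ →
  tauE E β v (CFC.log (algebraMap ℝ (Eqv E β) δ + star ((Tt E β T hT) ^ k) * (Tt E β T hT) ^ k))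
    = ⟪v, CFC.log (algebraMap ℝ (H →L[ℂ] H) δ + star (T ^ k) * T ^ k) v⟫_ℂ

/-- C6: the trace of `T` and of `Lg (exp (kT))` vanish -/
def P_C6 : Prop := ∀ (H : Type) [NormedAddCommGroup H] [InnerProductSpace ℂ H] [CompleteSpace H]
  (E : unitary (H →L[ℂ] H)) (β : UnitAddCircle) (v : H) (T : H →L[ℂ] H)
  (hT : T * (E : H →L[ℂ] H) = (fourier 1 β : ℂ) • ((E : H →L[ℂ] H) * T)),
  tauE E β v (Tt E β T hT) = 0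

/-- C7: Cauchy in `L^2(𝕋; H)` implies a.e. convergence along a subsequence -/
def P_C7 : Prop := ∀ (H : Type) [NormedAddCommGroup H] [InnerProductSpace ℂ H] [CompleteSpace H]
  (y : ℕ → UnitAddCircle → H), (∀ k, Continuous (y k)) →
  (∀ ε > (0:ℝ), ∃ K : ℕ, ∀ k ≥ K, ∀ m ≥ K,
    ∫ θ, ‖y k θ - y m θ‖ ^ 2 ∂AddCircle.haarAddCircle < ε) →
  ∃ (φ : ℕ → ℕ) (y' : UnitAddCircle → H), StrictMono φ ∧
    MemLp y' 2 AddCircle.haarAddCircle ∧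
    (∀ᵐ θ ∂AddCircle.haarAddCircle, Tendsto (fun i => y (φ i) θ) atTop (𝓝 (y' θ))) ∧
    Tendsto (fun i => ∫ θ, ‖y (φ i) θ - y' θ‖ ^ 2 ∂AddCircle.haarAddCircle) atTop (𝓝 0)

/-- C8: strong limits from convergence on a Hilbert basis -/
def P_C8 : Prop := ∀ (H : Type) [NormedAddCommGroup H] [InnerProductSpace ℂ H] [CompleteSpace H]
  (b : HilbertBasis ℤ ℂ H) (A : ℕ → (H →L[ℂ] H)) (R : ℝ), (∀ i, ‖A i‖ ≤ R) →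
  (∀ r : ℤ, ∃ w : H, Tendsto (fun i => A i (b r)) atTop (𝓝 w)) →
  ∃ X : H →L[ℂ] H, ∀ v, Tendsto (fun i => A i v) atTop (𝓝 (X v))

/-- C9: the limit is not scalar for almost every `θ` (ergodicity of the irrational rotation) -/
def P_C9 : Prop := ∀ (H : Type) [NormedAddCommGroup H] [InnerProductSpace ℂ H] [CompleteSpace H]
  (b : HilbertBasis ℤ ℂ H) (E : unitary (H →L[ℂ] H)) (α : ℝ), Irrational α →
  (∀ r : ℤ, (E : H →L[ℂ] H) (b r) = b (r + 1)) →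
  ∀ (y : ℕ → UnitAddCircle → H) (y' : UnitAddCircle → H), (∀ i, Continuous (y i)) →
  MemLp y' 2 AddCircle.haarAddCircle →
  Tendsto (fun i => ∫ θ, ‖y i θ - y' θ‖ ^ 2 ∂AddCircle.haarAddCircle) atTop (𝓝 0) →
  (∀ i, (∫ θ, ⟪b 0, y i θ⟫_ℂ ∂AddCircle.haarAddCircle).re = 0) →
  (∀ i θ, (⟪b 0, y i θ⟫_ℂ).im = 0) →
  (∃ c > (0:ℝ), ∀ i, c ≤ ∫ θ, ‖y i θ‖ ^ 2 ∂AddCircle.haarAddCircle) →
  ¬ (∀ᵐ θ ∂AddCircle.haarAddCircle, ∃ z : ℂ, y' θ = z • b 0 ∧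
      (E : H →L[ℂ] H) (y' (θ + (α : UnitAddCircle))) = z • b 1)

/-- C10: continuous functional calculus is strongly continuous on bounded sets -/
def P_C10 : Prop := ∀ (H : Type) [NormedAddCommGroup H] [InnerProductSpace ℂ H] [CompleteSpace H]
  (Y : ℕ → (H →L[ℂ] H)) (X : H →L[ℂ] H) (R : ℝ), (∀ i, ‖Y i‖ ≤ R) →
  (∀ i, IsSelfAdjoint (Y i)) → (∀ v, Tendsto (fun i => Y i v) atTop (𝓝 (X v))) →
  IsSelfAdjoint X ∧ ∀ f : ℝ → ℝ, Continuous f →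
    ∀ v, Tendsto (fun i => cfc f (Y i) v) atTop (𝓝 (cfc f X v))

/-- C11: growth estimates -/
def P_C11 : Prop := ∀ (H : Type) [NormedAddCommGroup H] [InnerProductSpace ℂ H] [CompleteSpace H]
  (S R Y : H →L[ℂ] H) (k : ℕ) (φ χ : ℝ → ℝ) (a b : ℝ), IsSelfAdjoint Y → S * R = R * S →
  star S * S = exp ((k:ℝ) • Y) → Continuous φ → Continuous χ →
  (∀ x, 0 ≤ χ x ∧ χ x ≤ 1) → (∀ x, a ≤ x → φ x = 0) → (∀ x, x ≤ b → χ x = 0) →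
  ∀ v : H, ‖cfc χ Y (R (cfc φ Y v))‖
    ≤ Real.exp (-(k * (b - a) / 2)) * ‖R‖ * ‖cfc φ Y v‖

/-- C12: a nonscalar strong limit gives an invariant subspace -/
def P_C12 : Prop := ∀ (H : Type) [NormedAddCommGroup H] [InnerProductSpace ℂ H] [CompleteSpace H]
  (T : H →L[ℂ] H) (k : ℕ → ℕ), StrictMono k → (∀ i, 1 ≤ k i) → ∀ X : H →L[ℂ] H,
  (∀ v, Tendsto (fun i => ((1/(k i : ℝ)) • Lg (ex ((k i : ℕ) : ℂ) T)) v) atTop (𝓝 (X v))) →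
  (¬ ∃ c : ℂ, X = c • 1) →
  ∃ V : Submodule ℂ H, IsClosed (V : Set H) ∧ V ≠ ⊥ ∧ V ≠ ⊤ ∧ ∀ v ∈ V, T v ∈ V

/-- MAIN: the abstract theorem -/
def P_MAIN : Prop := ∀ (H : Type) [NormedAddCommGroup H] [InnerProductSpace ℂ H] [CompleteSpace H]
  (b : HilbertBasis ℤ ℂ H) (E : unitary (H →L[ℂ] H)) (α : ℝ), Irrational α →
  (∀ r : ℤ, (E : H →L[ℂ] H) (b r) = b (r + 1)) → ∀ T : H →L[ℂ] H,
  T * (E : H →L[ℂ] H) = (fourier 1 (α : UnitAddCircle) : ℂ) • ((E : H →L[ℂ] H) * T) →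
  ‖T‖ ≤ 3 →
  (∀ (k : ℕ) (δ : ℝ), 1 ≤ k → 0 < δ →
    0 ≤ (⟪b 0, CFC.log (algebraMap ℝ (H →L[ℂ] H) δ + star (T ^ k) * T ^ k) (b 0)⟫_ℂ).re) →
  ∃ V : Submodule ℂ H, IsClosed (V : Set H) ∧ V ≠ ⊥ ∧ V ≠ ⊤ ∧ ∀ v ∈ V, T v ∈ V

/-! ## the Bishop operator on `L²[0,1)` -/

/-- the space of the frozen statement -/
abbrev LI : Type := Lp ℂ 2 (volume.restrict (Set.Ico (0:ℝ) 1))

/-- Z1: multiplication by bounded functions -/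
def P_Z1 : Prop := ∀ (g : ℝ → ℂ) (R : ℝ), Measurable g → (∀ x, ‖g x‖ ≤ R) →
  ∃ M : LI →L[ℂ] LI, ‖M‖ ≤ R ∧ ∀ f : LI, (M f : ℝ → ℂ) =ᵐ[volume.restrict (Set.Ico (0:ℝ) 1)]
    (fun x => g x * (f : ℝ → ℂ) x)

/-- Z2: the map `x ↦ {x + c}` preserves the measure -/
def P_Z2 : Prop := ∀ c : ℝ, MeasurePreserving (fun x : ℝ => Int.fract (x + c))
  (volume.restrict (Set.Ico (0:ℝ) 1)) (volume.restrict (Set.Ico (0:ℝ) 1))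

/-- Z3: the Fourier basis and the multiplication by `e^{2πix}` -/
def P_Z3 : Prop := ∃ (b : HilbertBasis ℤ ℂ LI) (E : unitary (LI →L[ℂ] LI)),
  (∀ r : ℤ, (b r : ℝ → ℂ) =ᵐ[volume.restrict (Set.Ico (0:ℝ) 1)]
    (fun x => Complex.exp (2 * Real.pi * Complex.I * r * x))) ∧
  (∀ f : LI, ((E : LI →L[ℂ] LI) f : ℝ → ℂ) =ᵐ[volume.restrict (Set.Ico (0:ℝ) 1)]
    (fun x => Complex.exp (2 * Real.pi * Complex.I * x) * (f : ℝ → ℂ) x))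

/-- Z4: log-integral lower bound -/
def P_Z4 : Prop := ∀ (α : ℝ) (k : ℕ) (δ : ℝ), 0 < δ →
  0 ≤ ∫ x in Set.Ico (0:ℝ) 1,
    Real.log (δ + ∏ j ∈ Finset.range k, (Real.exp 1 * Int.fract (x - (j + 1) * α)) ^ 2)

/-- Z5: `log` of a multiplication operator -/
def P_Z5 : Prop := ∀ (A : LI →L[ℂ] LI) (g : ℝ → ℝ) (δ R : ℝ) (v : LI), 0 < δ → Measurable g →
  (∀ x, δ ≤ g x ∧ g x ≤ R) →
  (∀ f : LI, (A f : ℝ → ℂ) =ᵐ[volume.restrict (Set.Ico (0:ℝ) 1)]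
    (fun x => (g x : ℂ) * (f : ℝ → ℂ) x)) →
  (v : ℝ → ℂ) =ᵐ[volume.restrict (Set.Ico (0:ℝ) 1)] (fun _ => 1) →
  (⟪v, CFC.log A v⟫_ℂ).re = ∫ x in Set.Ico (0:ℝ) 1, Real.log (g x)

/-- Z6: `|T^k|^2` is a multiplication operator (`T f (x) = e x f({x+α})`) -/
def P_Z6 : Prop := ∀ (α : ℝ) (T : LI →L[ℂ] LI),
  (∀ f : LI, (T f : ℝ → ℂ) =ᵐ[volume.restrict (Set.Ico (0:ℝ) 1)]
    (fun x : ℝ => ((Real.exp 1 * x : ℝ) : ℂ) * (f : ℝ → ℂ) (Int.fract (x + α)))) →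
  ∀ (k : ℕ) (f : LI), ((star (T ^ k) * T ^ k) f : ℝ → ℂ)
    =ᵐ[volume.restrict (Set.Ico (0:ℝ) 1)]
    (fun x => ((∏ j ∈ Finset.range k, (Real.exp 1 * Int.fract (x - (j + 1) * α)) ^ 2 : ℝ) : ℂ)
      * (f : ℝ → ℂ) x)

/-- Z7: norm and commutation relation -/
def P_Z7 : Prop := ∀ (α : ℝ) (T : LI →L[ℂ] LI) (E : LI →L[ℂ] LI),
  (∀ f : LI, (T f : ℝ → ℂ) =ᵐ[volume.restrict (Set.Ico (0:ℝ) 1)]
    (fun x : ℝ => ((Real.exp 1 * x : ℝ) : ℂ) * (f : ℝ → ℂ) (Int.fract (x + α)))) →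
  (∀ f : LI, (E f : ℝ → ℂ) =ᵐ[volume.restrict (Set.Ico (0:ℝ) 1)]
    (fun x => Complex.exp (2 * Real.pi * Complex.I * x) * (f : ℝ → ℂ) x)) →
  ‖T‖ ≤ 3 ∧ T * E = (fourier 1 (α : UnitAddCircle) : ℂ) • (E * T)

/-- FIN: the frozen statement -/
def P_FIN : Prop := ∀ α : ℝ, Irrational α →
    ∀ T : LI →L[ℂ] LI,
      (∀ f : LI,
        (T f : ℝ → ℂ) =ᵐ[volume.restrict (Set.Ico (0:ℝ) 1)]
          (fun x : ℝ => (x : ℂ) * (f : ℝ → ℂ) (Int.fract (x + α)))) →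
      ∃ V : Submodule ℂ LI,
        IsClosed (V : Set LI) ∧
        V ≠ ⊥ ∧ V ≠ ⊤ ∧ ∀ v ∈ V, T v ∈ V

end Pool.Agent.H712R5.BO
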