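import Pool.Agent.H712R5.BO.Stmts

set_option autoImplicit false

namespace Pool.Agent.H712R5.BO

open MeasureTheory Set

theorem t_Z2 : P_Z2 := by
  intro c
  obtain ⟨a, ha⟩ : ∃ a : ℝ, a = Int.fract c := ⟨_, rfl⟩
  have ha0 : 0 ≤ a := by rw [ha]; exact Int.fract_nonneg c
  have ha1 : a < 1 := by rw [ha]; exact Int.fract_lt_one c
  have hf : ∀ x : ℝ, Int.fract (x + c) = Int.fract (x + a) := by
    intro x
    have h1 : x + c = (x + a) + (⌊c⌋ : ℤ) := by
      rw [ha]
      have := Int.fract_add_floor c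
      linarith
    rw [h1, Int.fract_add_intCast]
  have hmeas : Measurable (fun x : ℝ => Int.fract (x + c)) :=
    measurable_fract.comp (measurable_id.add_const c)
  refine ⟨hmeas, ?_⟩
  ext S hS
  rw [Measure.map_apply hmeas hS, Measure.restrict_apply (hmeas hS), Measure.restrict_apply hS]
  have h1 : (fun x : ℝ => Int.fract (x + c)) ⁻¹' S ∩ Ico (0:ℝ) 1 =
      (fun x : ℝ => x + a) ⁻¹' (S ∩ Ico a 1) ∪ (fun x : ℝ => x + (a - 1)) ⁻¹' (S ∩ Ico 0 a) := by
    ext x
    simp only [mem_inter_iff, mem_preimage, mem_union, mem_Ico, hf]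
    constructor
    · rintro ⟨hxS, hx0, hx1⟩
      by_cases h : x + a < 1
      · left
        rw [Int.fract_eq_self.2 ⟨by linarith, h⟩] at hxS
        exact ⟨hxS, by linarith, h⟩
      · right
        have h2 : Int.fract (x + a) = x + (a - 1) := by
          rw [Int.fract_eq_iff]
          exact ⟨by linarith, by linarith, 1, by push_cast; ring⟩
        rw [h2] at hxS
        exact ⟨hxS, by linarith, by linarith⟩
    · rintro (⟨hxS, hx0, hx1⟩ | ⟨hxS, hx0, hx1⟩)
      · rw [Int.fract_eq_self.2 ⟨by linarith, hx1⟩]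
        exact ⟨hxS, by linarith, by linarith⟩
      · have h2 : Int.fract (x + a) = x + (a - 1) := by
          rw [Int.fract_eq_iff]
          exact ⟨by linarith, by linarith, 1, by push_cast; ring⟩
        rw [h2]
        exact ⟨hxS, by linarith, by linarith⟩
  have hdis : Disjoint ((fun x : ℝ => x + a) ⁻¹' (S ∩ Ico a 1))
      ((fun x : ℝ => x + (a - 1)) ⁻¹' (S ∩ Ico 0 a)) := by
    rw [Set.disjoint_left]
    intro x hx hx'
    simp only [mem_inter_iff, mem_preimage, mem_Ico] at hx hx'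
    linarith [hx.2.1, hx.2.2, hx'.2.1, hx'.2.2]
  have hm2 : MeasurableSet ((fun x : ℝ => x + (a - 1)) ⁻¹' (S ∩ Ico 0 a)) :=
    (measurable_id.add_const (a - 1)) (hS.inter measurableSet_Ico)
  rw [h1, measure_union hdis hm2, measure_preimage_add_right, measure_preimage_add_right]
  have h3 : S ∩ Ico (0:ℝ) 1 = (S ∩ Ico a 1) ∪ (S ∩ Ico 0 a) := by
    rw [← inter_union_distrib_left, Set.union_comm, Ico_union_Ico_eq_Ico ha0 ha1.le]
  have hdis2 : Disjoint (S ∩ Ico a 1) (S ∩ Ico 0 a) := by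
    rw [Set.disjoint_left]
    intro x hx hx'
    exact absurd hx'.2.2 (not_lt.2 hx.2.1)
  rw [h3, measure_union hdis2 (hS.inter measurableSet_Ico)]

end Pool.Agent.H712R5.BO
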