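import Pool.Agent.H712R5.BO.Stmts

/-! Z3: the Fourier basis of `L²[0,1)` and the multiplication by `e^{2πix}`. -/

set_option autoImplicit false
open scoped ComplexConjugate InnerProductSpace Topology
open Filter MeasureTheory NormedSpace

namespace Pool.Agent.H712R5.BO

theorem Z3_mk : MeasurePreserving (fun x : ℝ => (x : UnitAddCircle))
    (volume.restrict (Set.Ico (0:ℝ) 1)) AddCircle.haarAddCircle := by
  have h := AddCircle.measurePreserving_mk (1:ℝ) 0
  rw [AddCircle.volume_eq_smul_haarAddCircle, ENNReal.ofReal_one, one_smul, zero_add] at h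
  have h2 : volume.restrict (Set.Ico (0:ℝ) 1) = volume.restrict (Set.Ioc (0:ℝ) 1) :=
    Measure.restrict_congr_set Ico_ae_eq_Ioc
  rw [h2]
  exact h

/-- the inverse map -/
noncomputable def Z3_g (y : UnitAddCircle) : ℝ := (AddCircle.equivIco (1:ℝ) 0 y : ℝ)

theorem Z3_g_meas : Measurable Z3_g :=
  measurable_subtype_coe.comp (AddCircle.measurableEquivIco (1:ℝ) 0).measurable

theorem Z3_g_mk (x : ℝ) (hx : x ∈ Set.Ico (0:ℝ) 1) : Z3_g (x : UnitAddCircle) = x := by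
  have hx' : x ∈ Set.Ico (0:ℝ) (0 + 1) := by simpa using hx
  unfold Z3_g
  rw [AddCircle.equivIco_coe_eq hx']

theorem Z3_gmp : MeasurePreserving Z3_g AddCircle.haarAddCircle
    (volume.restrict (Set.Ico (0:ℝ) 1)) := by
  refine ⟨Z3_g_meas, ?_⟩
  rw [← Z3_mk.map_eq, Measure.map_map Z3_g_meas Z3_mk.measurable]
  have h : (Z3_g ∘ fun x : ℝ => (x : UnitAddCircle)) =ᵐ[volume.restrict (Set.Ico (0:ℝ) 1)] id := by
    filter_upwards [ae_restrict_mem measurableSet_Ico] with x hx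
    exact Z3_g_mk x hx
  rw [Measure.map_congr h, Measure.map_id]

noncomputable def Z3_J : Lp ℂ 2 (AddCircle.haarAddCircle (T := 1)) →ₗᵢ[ℂ] LI :=
  Lp.compMeasurePreservingₗᵢ ℂ (fun x : ℝ => (x : UnitAddCircle)) Z3_mk

theorem Z3_J_ae (u : Lp ℂ 2 (AddCircle.haarAddCircle (T := 1))) :
    (Z3_J u : ℝ → ℂ) =ᵐ[volume.restrict (Set.Ico (0:ℝ) 1)]
      (fun x : ℝ => (u : UnitAddCircle → ℂ) (x : UnitAddCircle)) :=
  Lp.coeFn_compMeasurePreserving u Z3_mk

theorem Z3_J_surj : Function.Surjective Z3_J := by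
  intro f
  refine ⟨Lp.compMeasurePreserving Z3_g Z3_gmp f, ?_⟩
  apply Lp.ext
  have h1 := Z3_J_ae (Lp.compMeasurePreserving Z3_g Z3_gmp f)
  have h2 : (Lp.compMeasurePreserving Z3_g Z3_gmp f : UnitAddCircle → ℂ)
      =ᵐ[AddCircle.haarAddCircle] (f : ℝ → ℂ) ∘ Z3_g := Lp.coeFn_compMeasurePreserving f Z3_gmp
  have h3 := Z3_mk.quasiMeasurePreserving.ae_eq_comp h2
  filter_upwards [h1, h3, ae_restrict_mem measurableSet_Ico] with x hx1 hx3 hx
  rw [hx1]
  simp only [Function.comp_def] at hx3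
  rw [hx3, Z3_g_mk x hx]

noncomputable def Z3_Je : Lp ℂ 2 (AddCircle.haarAddCircle (T := 1)) ≃ₗᵢ[ℂ] LI :=
  LinearIsometryEquiv.ofSurjective Z3_J Z3_J_surj

noncomputable def Z3_b : HilbertBasis ℤ ℂ LI :=
  HilbertBasis.ofRepr (Z3_Je.symm.trans (fourierBasis (T := 1)).repr)

theorem Z3_b_eq (r : ℤ) : Z3_b r = Z3_J (fourierLp (T := 1) 2 r) := by
  have h : Z3_b r = Z3_Je ((fourierBasis (T := 1)) r) := rfl
  rw [h, coe_fourierBasis]
  rfl

theorem Z3_b_ae (r : ℤ) : (Z3_b r : ℝ → ℂ) =ᵐ[volume.restrict (Set.Ico (0:ℝ) 1)]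
    (fun x => Complex.exp (2 * Real.pi * Complex.I * r * x)) := by
  rw [Z3_b_eq]
  have h1 := Z3_J_ae (fourierLp (T := 1) 2 r)
  have h2 := Z3_mk.quasiMeasurePreserving.ae_eq_comp (coeFn_fourierLp (T := 1) 2 r)
  filter_upwards [h1, h2] with x hx1 hx2
  rw [hx1]
  simp only [Function.comp_def] at hx2
  rw [hx2, fourier_coe_apply]
  simp

theorem t_Z3 (h : P_Z1) : P_Z3 := by
  obtain ⟨M, hM, hMf⟩ := h (fun x => Complex.exp (2 * Real.pi * Complex.I * x)) 1
    (by fun_prop) (fun x => by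
      have : (2 * Real.pi * Complex.I * x : ℂ) = ((2 * Real.pi * x : ℝ) : ℂ) * Complex.I := by
        push_cast; ring
      rw [this, Complex.norm_exp_ofReal_mul_I])
  obtain ⟨M', hM', hMf'⟩ := h (fun x => Complex.exp (-(2 * Real.pi * Complex.I * x))) 1
    (by fun_prop) (fun x => by
      have : (-(2 * Real.pi * Complex.I * x) : ℂ) = ((-(2 * Real.pi * x) : ℝ) : ℂ) * Complex.I := by
        push_cast; ring
      rw [this, Complex.norm_exp_ofReal_mul_I])
  have e1 : ∀ f : LI, M' (M f) = f := by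
    intro f
    apply Lp.ext
    filter_upwards [hMf' (M f), hMf f] with x hx1 hx2
    rw [hx1, hx2, ← mul_assoc, ← Complex.exp_add, neg_add_cancel, Complex.exp_zero, one_mul]
  have e2 : ∀ f : LI, M (M' f) = f := by
    intro f
    apply Lp.ext
    filter_upwards [hMf (M' f), hMf' f] with x hx1 hx2
    rw [hx1, hx2, ← mul_assoc, ← Complex.exp_add, add_neg_cancel, Complex.exp_zero, one_mul]
  have n1 : ∀ f : LI, ‖M f‖ = ‖f‖ := by
    intro f
    apply le_antisymm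
    · calc ‖M f‖ ≤ ‖M‖ * ‖f‖ := M.le_opNorm f
        _ ≤ 1 * ‖f‖ := by gcongr
        _ = ‖f‖ := one_mul _
    · calc ‖f‖ = ‖M' (M f)‖ := by rw [e1]
        _ ≤ ‖M'‖ * ‖M f‖ := M'.le_opNorm _
        _ ≤ 1 * ‖M f‖ := by gcongr
        _ = ‖M f‖ := one_mul _
  have s1 : star M * M = 1 := (ContinuousLinearMap.norm_map_iff_adjoint_comp_self M).mp n1
  have s2 : M * M' = 1 := by
    ext1 f
    exact e2 f
  have s3 : star M = M' := by
    calc star M = star M * (M * M') := by rw [s2, mul_one]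
      _ = M' := by rw [← mul_assoc, s1, one_mul]
  refine ⟨Z3_b, ⟨M, ?_⟩, Z3_b_ae, hMf⟩
  rw [Unitary.mem_iff]
  exact ⟨s1, by rw [s3, s2]⟩

end Pool.Agent.H712R5.BO
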