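import Pool.Agent.H712R5.BO.Stmts

set_option autoImplicit false
open scoped ComplexConjugate InnerProductSpace Topology
open Filter MeasureTheory NormedSpace

namespace Pool.Agent.H712R5.BO

theorem Z6_fract1 (α x : ℝ) (hx : x ∈ Set.Ico (0:ℝ) 1) :
    Int.fract (Int.fract (x + α) + (-α)) = x := by
  have h : Int.fract (x + α) + (-α) = x + ((-⌊x + α⌋ : ℤ) : ℝ) := by
    have : Int.fract (x + α) = x + α - ⌊x + α⌋ := rfl
    rw [this]; push_cast; ring
  rw [h, Int.fract_add_intCast]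
  exact Int.fract_eq_self.mpr hx

theorem Z6_fract2 (α x : ℝ) (hx : x ∈ Set.Ico (0:ℝ) 1) :
    Int.fract (Int.fract (x + (-α)) + α) = x := by
  have h := Z6_fract1 (-α) x hx
  rw [neg_neg] at h
  exact h

theorem Z6_fract3 (α x : ℝ) (j : ℕ) :
    Int.fract (Int.fract (x + (-α)) - (j + 1) * α) = Int.fract (x - ((j + 1 : ℕ) + 1) * α) := by
  have h : Int.fract (x + (-α)) - (j + 1) * α =
      (x - ((j + 1 : ℕ) + 1) * α) + ((-⌊x + (-α)⌋ : ℤ) : ℝ) := by
    have : Int.fract (x + (-α)) = x + (-α) - ⌊x + (-α)⌋ := rfl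
    rw [this]; push_cast; ring
  rw [h, Int.fract_add_intCast]

theorem Z6_adj (h : P_Z2) (α : ℝ) (T : LI →L[ℂ] LI)
    (hT : ∀ f : LI, (T f : ℝ → ℂ) =ᵐ[volume.restrict (Set.Ico (0:ℝ) 1)]
      (fun x : ℝ => ((Real.exp 1 * x : ℝ) : ℂ) * (f : ℝ → ℂ) (Int.fract (x + α)))) (u : LI) :
    (star T u : ℝ → ℂ) =ᵐ[volume.restrict (Set.Ico (0:ℝ) 1)]
      (fun y : ℝ => ((Real.exp 1 * Int.fract (y + (-α)) : ℝ) : ℂ) *
        (u : ℝ → ℂ) (Int.fract (y + (-α)))) := by
  have hS := h α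
  have hR := h (-α)
  have hmem : ∀ᵐ x ∂(volume.restrict (Set.Ico (0:ℝ) 1)), x ∈ Set.Ico (0:ℝ) 1 :=
    ae_restrict_mem measurableSet_Ico
  set w : ℝ → ℂ := fun y : ℝ => ((Real.exp 1 * Int.fract (y + (-α)) : ℝ) : ℂ) *
        (u : ℝ → ℂ) (Int.fract (y + (-α))) with hw
  have hwm : AEStronglyMeasurable w (volume.restrict (Set.Ico (0:ℝ) 1)) := by
    apply AEStronglyMeasurable.mul
    · apply Measurable.aestronglyMeasurable
      apply Complex.measurable_ofReal.comp
      exact (measurable_fract.comp (measurable_id.add_const (-α))).const_mul _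
    · exact (Lp.aestronglyMeasurable u).comp_quasiMeasurePreserving hR.quasiMeasurePreserving
  have hwL : MemLp w 2 (volume.restrict (Set.Ico (0:ℝ) 1)) := by
    refine MemLp.of_le_mul (c := Real.exp 1)
      (Lp.memLp (Lp.compMeasurePreserving _ hR u)) hwm ?_
    filter_upwards [Lp.coeFn_compMeasurePreserving u hR] with x h1
    rw [h1, hw]
    simp only [norm_mul, Function.comp]
    apply mul_le_mul_of_nonneg_right _ (norm_nonneg _)
    rw [Complex.norm_real, Real.norm_eq_abs, abs_of_nonneg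
      (mul_nonneg (Real.exp_pos 1).le (Int.fract_nonneg _))]
    calc Real.exp 1 * Int.fract (x + -α) ≤ Real.exp 1 * 1 :=
          mul_le_mul_of_nonneg_left (Int.fract_lt_one _).le (Real.exp_pos 1).le
      _ = Real.exp 1 := mul_one _
  have key : star T u = hwL.toLp w := by
    apply ext_inner_right ℂ
    intro g
    rw [ContinuousLinearMap.star_eq_adjoint, ContinuousLinearMap.adjoint_inner_left]
    rw [L2.inner_def, L2.inner_def]
    set F : ℝ → ℂ := fun y => ⟪w y, (g : ℝ → ℂ) y⟫_ℂ with hF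
    have hFm : AEStronglyMeasurable F (volume.restrict (Set.Ico (0:ℝ) 1)) :=
      hwm.inner (Lp.aestronglyMeasurable g)
    have h2 : ∫ y, F y ∂(volume.restrict (Set.Ico (0:ℝ) 1)) =
        ∫ x, F (Int.fract (x + α)) ∂(volume.restrict (Set.Ico (0:ℝ) 1)) := by
      have h3 := integral_map (μ := volume.restrict (Set.Ico (0:ℝ) 1))
        (φ := fun x : ℝ => Int.fract (x + α)) hS.measurable.aemeasurable (f := F)
        (by rw [hS.map_eq]; exact hFm)
      rw [hS.map_eq] at h3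
      exact h3
    have h4 : ∫ y, ⟪(hwL.toLp w : ℝ → ℂ) y, (g : ℝ → ℂ) y⟫_ℂ ∂(volume.restrict (Set.Ico (0:ℝ) 1))
        = ∫ y, F y ∂(volume.restrict (Set.Ico (0:ℝ) 1)) := by
      apply integral_congr_ae
      filter_upwards [hwL.coeFn_toLp] with y hy
      rw [hy]
    rw [h4, h2]
    apply integral_congr_ae
    filter_upwards [hT g, hmem] with x h5 h6
    rw [h5, hF, hw]
    simp only
    rw [Z6_fract1 α x h6]
    simp only [RCLike.inner_apply, map_mul, Complex.conj_ofReal]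
    ring
  rw [key]
  exact hwL.coeFn_toLp

theorem t_Z6 (h : P_Z2) : P_Z6 := by
  intro α T hT k
  have hS := h α
  have hR := h (-α)
  have hmem : ∀ᵐ x ∂(volume.restrict (Set.Ico (0:ℝ) 1)), x ∈ Set.Ico (0:ℝ) 1 :=
    ae_restrict_mem measurableSet_Ico
  induction k with
  | zero =>
    intro f
    have e : (star (T ^ 0) * T ^ 0) f = f := by simp
    rw [e]
    filter_upwards with x
    simp
  | succ k ih =>
    intro f
    have e : (star (T ^ (k + 1)) * T ^ (k + 1)) f = star T ((star (T ^ k) * T ^ k) (T f)) := by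
      rw [pow_succ, star_mul]
      rfl
    rw [e]
    have h1 : ∀ᵐ x ∂(volume.restrict (Set.Ico (0:ℝ) 1)),
        (((star (T ^ k) * T ^ k) (T f) : LI) : ℝ → ℂ) (Int.fract (x + (-α))) =
        ((∏ j ∈ Finset.range k, (Real.exp 1 *
          Int.fract (Int.fract (x + (-α)) - (j + 1) * α)) ^ 2 : ℝ) : ℂ)
          * (T f : ℝ → ℂ) (Int.fract (x + (-α))) :=
      hR.quasiMeasurePreserving.ae (ih (T f))
    have h2 : ∀ᵐ x ∂(volume.restrict (Set.Ico (0:ℝ) 1)),
        (T f : ℝ → ℂ) (Int.fract (x + (-α))) =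
        ((Real.exp 1 * Int.fract (x + (-α)) : ℝ) : ℂ) *
          (f : ℝ → ℂ) (Int.fract (Int.fract (x + (-α)) + α)) :=
      hR.quasiMeasurePreserving.ae (hT f)
    filter_upwards [Z6_adj h α T hT ((star (T ^ k) * T ^ k) (T f)), h1, h2, hmem] with x e1 e2 e3 e4
    rw [e1, e2, e3, Z6_fract2 α x e4, Finset.prod_range_succ']
    have e5 : ∀ j ∈ Finset.range k, (Real.exp 1 *
          Int.fract (Int.fract (x + (-α)) - (j + 1) * α)) ^ 2 =
          (Real.exp 1 * Int.fract (x - ((j + 1 : ℕ) + 1) * α)) ^ 2 := by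
      intro j _
      rw [Z6_fract3]
    rw [Finset.prod_congr rfl e5]
    have e6 : x - (((0 : ℕ) : ℝ) + 1) * α = x + (-α) := by push_cast; ring
    rw [e6]
    push_cast
    ring

end Pool.Agent.H712R5.BO
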