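import Pool.Agent.H712R5.BO.Stmts

set_option autoImplicit false
open scoped ComplexConjugate InnerProductSpace Topology
open Filter MeasureTheory NormedSpace

namespace Pool.Agent.H712R5.BO

theorem Z7_exp (y α : ℝ) :
    Complex.exp (2 * Real.pi * Complex.I * (Int.fract (y + α) : ℝ)) =
      Complex.exp (2 * Real.pi * Complex.I * α) * Complex.exp (2 * Real.pi * Complex.I * y) := by
  rw [← Complex.exp_add]
  have h : ((Int.fract (y + α) : ℝ) : ℂ) = (y : ℂ) + α - (⌊y + α⌋ : ℤ) := by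
    have : Int.fract (y + α) = y + α - ⌊y + α⌋ := rfl
    rw [this]
    push_cast
    ring
  rw [h]
  have e : 2 * Real.pi * Complex.I * ((y : ℂ) + α - (⌊y + α⌋ : ℤ)) =
      (2 * Real.pi * Complex.I * α + 2 * Real.pi * Complex.I * y) -
        ((⌊y + α⌋ : ℤ) : ℂ) * (2 * Real.pi * Complex.I) := by ring
  rw [e, Complex.exp_sub, Complex.exp_int_mul_two_pi_mul_I, div_one]

theorem t_Z7 (h : P_Z2) : P_Z7 := by
  intro α T E hT hE
  have hS := h α
  have hmem : ∀ᵐ x ∂(volume.restrict (Set.Ico (0:ℝ) 1)), x ∈ Set.Ico (0:ℝ) 1 :=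
    ae_restrict_mem measurableSet_Ico
  constructor
  · apply ContinuousLinearMap.opNorm_le_bound _ (by norm_num)
    intro f
    have h1 : ‖T f‖ ≤ 3 * ‖Lp.compMeasurePreserving _ hS f‖ := by
      apply Lp.norm_le_mul_norm_of_ae_le_mul
      filter_upwards [hT f, Lp.coeFn_compMeasurePreserving f hS, hmem] with x h1 h2 h3
      rw [h1, h2, norm_mul]
      apply mul_le_mul_of_nonneg_right _ (norm_nonneg _)
      rw [Complex.norm_real, Real.norm_eq_abs, abs_of_nonneg
        (mul_nonneg (Real.exp_pos 1).le h3.1)]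
      have h4 := Real.exp_one_lt_d9
      have h5 : Real.exp 1 * x ≤ Real.exp 1 * 1 :=
        mul_le_mul_of_nonneg_left h3.2.le (Real.exp_pos 1).le
      linarith
    rw [Lp.norm_compMeasurePreserving] at h1
    exact h1
  · ext1 f
    have e1 : (T * E) f = T (E f) := rfl
    have e2 : ((fourier 1 (α : UnitAddCircle) : ℂ) • (E * T)) f =
        (fourier 1 (α : UnitAddCircle) : ℂ) • (E (T f)) := rfl
    rw [e1, e2]
    apply Lp.ext
    have hEf : ∀ᵐ x ∂(volume.restrict (Set.Ico (0:ℝ) 1)), ((E f : LI) : ℝ → ℂ) (Int.fract (x + α))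
        = Complex.exp (2 * Real.pi * Complex.I * (Int.fract (x + α) : ℝ)) *
          (f : ℝ → ℂ) (Int.fract (x + α)) :=
      hS.quasiMeasurePreserving.ae (hE f)
    filter_upwards [hT (E f), Lp.coeFn_smul (fourier 1 (α : UnitAddCircle) : ℂ) (E (T f)),
      hE (T f), hT f, hEf] with x h1 h2 h3 h4 h5
    rw [h1, h2, Pi.smul_apply, h3, h4, h5, smul_eq_mul, Z7_exp, fourier_coe_apply]
    have e3 : (2 * Real.pi * Complex.I * ((1 : ℤ) : ℂ) * (α : ℂ) / ((1 : ℝ) : ℂ)) =
        2 * Real.pi * Complex.I * α := by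
      push_cast; ring
    rw [e3]
    ring

end Pool.Agent.H712R5.BO
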